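import Mathlib

/-! # Combinatorial lemmas for pencil type systems -/

namespace Pool.Agent.H49.Pencil

open Finset

/-- Inclusion-exclusion: binomial coefficients of `c - x` in terms of those of `x`. -/
theorem choose_sub_eq (x : ℕ) : ∀ c g : ℕ, x ≤ c →
    (((c - x).choose g : ℕ) : ℂ) =
      ∑ i ∈ range (g + 1), (-1 : ℂ) ^ i * ((c - i).choose (g - i) : ℂ) * (x.choose i : ℂ) := by
  induction x with
  | zero =>
    intro c g _
    rw [sum_range_succ', sum_eq_zero]
    · simp
    · intro i _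
      simp
  | succ x ih =>
    intro c g hx
    rcases g with _ | g
    · simp
    · have h1 : (c - x) = (c - 1 - x) + 1 := by omega
      have h2 : c - (x + 1) = c - 1 - x := by omega
      have h3 := ih c (g + 1) (by omega)
      have h4 := ih (c - 1) g (by omega)
      rw [h1, Nat.choose_succ_succ] at h3
      rw [h2]
      have h5 : (((c - 1 - x).choose (g + 1) : ℕ) : ℂ) =
          (∑ i ∈ range (g + 1 + 1), (-1 : ℂ) ^ i * ((c - i).choose (g + 1 - i) : ℂ) *
            (x.choose i : ℂ)) -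
          ∑ i ∈ range (g + 1), (-1 : ℂ) ^ i * ((c - 1 - i).choose (g - i) : ℂ) *
            (x.choose i : ℂ) := by
        rw [← h3, ← h4]
        push_cast
        ring
      rw [h5, sum_range_succ' _ (g + 1), sum_range_succ' _ (g + 1)]
      simp only [Nat.choose_zero_right, Nat.choose_succ_succ x]
      have h6 : ∀ i, ((c - (i + 1)).choose (g + 1 - (i + 1)) : ℂ) =
          ((c - 1 - i).choose (g - i) : ℂ) := by
        intro i
        rw [show c - (i + 1) = c - 1 - i by omega, show g + 1 - (i + 1) = g - i by omega]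
      have h7 : ∑ i ∈ range (g + 1), (-1 : ℂ) ^ (i + 1) *
          ((c - (i + 1)).choose (g + 1 - (i + 1)) : ℂ) * (((x.choose i + x.choose (i + 1) : ℕ)) : ℂ) =
          (∑ i ∈ range (g + 1), (-1 : ℂ) ^ (i + 1) *
          ((c - (i + 1)).choose (g + 1 - (i + 1)) : ℂ) * (x.choose (i + 1) : ℂ)) -
          ∑ i ∈ range (g + 1), (-1 : ℂ) ^ i * ((c - 1 - i).choose (g - i) : ℂ) *
            (x.choose i : ℂ) := by
        rw [← sum_sub_distrib]
        refine sum_congr rfl fun i _ => ?_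
        rw [h6]
        push_cast
        ring
      rw [h7]
      ring

/-- Weighted version of unisolvence: a function `z` on the box `∏ [0, c_l]` which vanishes at
the `δ` with `|δ| + j ≤ |c|` and is orthogonal to all products of binomial coefficients of
degree `< j` is zero. -/
theorem box_eq_zero {n : ℕ} (c : Fin n → ℕ) (j : ℕ) (z : (Fin n → ℕ) → ℂ)
    (h1 : ∀ δ ∈ Fintype.piFinset (fun l => range (c l + 1)), ∑ l, δ l + j ≤ ∑ l, c l → z δ = 0)
    (h2 : ∀ γ : Fin n → ℕ, ∑ l, γ l < j →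
      ∑ δ ∈ Fintype.piFinset (fun l => range (c l + 1)), (∏ l, ((δ l).choose (γ l) : ℂ)) * z δ = 0) :
    ∀ δ ∈ Fintype.piFinset (fun l => range (c l + 1)), z δ = 0 := by
  classical
  set box := Fintype.piFinset (fun l => range (c l + 1)) with hbox
  have hmem : ∀ δ, δ ∈ box ↔ ∀ l, δ l ≤ c l := by
    intro δ
    rw [hbox, Fintype.mem_piFinset]
    simp only [mem_range, Nat.lt_succ_iff]
  -- reflected conditions
  have h3 : ∀ γ : Fin n → ℕ, ∑ l, γ l < j →
      ∑ δ ∈ box, (∏ l, (((c l - δ l).choose (γ l) : ℕ) : ℂ)) * z δ = 0 := by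
    intro γ hγ
    have hexp : ∀ δ ∈ box, (∏ l, (((c l - δ l).choose (γ l) : ℕ) : ℂ)) * z δ =
        ∑ i ∈ Fintype.piFinset (fun l => range (γ l + 1)),
          (∏ l, ((-1 : ℂ) ^ (i l) * ((c l - i l).choose (γ l - i l) : ℂ))) *
            ((∏ l, ((δ l).choose (i l) : ℂ)) * z δ) := by
      intro δ hδ
      have e1 : ∏ l, (((c l - δ l).choose (γ l) : ℕ) : ℂ) =
          ∏ l, ∑ i ∈ range (γ l + 1), (-1 : ℂ) ^ i * ((c l - i).choose (γ l - i) : ℂ) *
            ((δ l).choose i : ℂ) :=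
        prod_congr rfl fun l _ => choose_sub_eq (δ l) (c l) (γ l) ((hmem δ).1 hδ l)
      rw [e1, prod_univ_sum, sum_mul]
      refine sum_congr rfl fun i _ => ?_
      rw [← mul_assoc, ← prod_mul_distrib]
    rw [sum_congr rfl hexp, sum_comm]
    refine sum_eq_zero fun i hi => ?_
    rw [← mul_sum, h2 i, mul_zero]
    refine lt_of_le_of_lt (sum_le_sum fun l _ => ?_) hγ
    rw [Fintype.mem_piFinset] at hi
    have := hi l
    rw [mem_range] at this
    omega
  -- minimal counterexample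
  by_contra hcon
  push Not at hcon
  obtain ⟨δ₁, hδ₁, hz₁⟩ := hcon
  obtain ⟨δ, hδ, hmin⟩ := exists_min_image (box.filter fun δ => z δ ≠ 0) (fun δ => ∑ l, δ l)
    ⟨δ₁, mem_filter.2 ⟨hδ₁, hz₁⟩⟩
  rw [mem_filter] at hδ
  obtain ⟨hδ, hz⟩ := hδ
  have hle := (hmem δ).1 hδ
  have hsum : ∑ l, (c l - δ l) + ∑ l, δ l = ∑ l, c l := by
    rw [← sum_add_distrib]
    exact sum_congr rfl fun l _ => Nat.sub_add_cancel (hle l)
  have hlt : ∑ l, (c l - δ l) < j := by
    by_contra hge
    push Not at hge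
    exact hz (h1 δ hδ (by omega))
  have h4 := h3 (fun l => c l - δ l) hlt
  rw [sum_eq_single δ] at h4
  · apply hz
    have : ∏ l, (((c l - δ l).choose (c l - δ l) : ℕ) : ℂ) = 1 :=
      prod_eq_one fun l _ => by rw [Nat.choose_self, Nat.cast_one]
    rw [this, one_mul] at h4
    exact h4
  · intro δ' hδ' hne
    by_cases hall : ∀ l, δ' l ≤ δ l
    · have hlt' : ∑ l, δ' l < ∑ l, δ l := by
        refine lt_of_le_of_ne (sum_le_sum fun l _ => hall l) fun heq => hne ?_
        funext l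
        by_contra hl
        have : ∑ l, δ' l < ∑ l, δ l :=
          sum_lt_sum (fun l _ => hall l) ⟨l, mem_univ l, lt_of_le_of_ne (hall l) hl⟩
        omega
      have hz' : z δ' = 0 := by
        by_contra hz'
        have := hmin δ' (mem_filter.2 ⟨hδ', hz'⟩)
        omega
      rw [hz', mul_zero]
    · push Not at hall
      obtain ⟨l, hl⟩ := hall
      have : (((c l - δ' l).choose (c l - δ l) : ℕ) : ℂ) = 0 := by
        have := (hmem δ').1 hδ' l
        rw [Nat.choose_eq_zero_of_lt (by omega), Nat.cast_zero]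
      rw [prod_eq_zero (mem_univ l) this, zero_mul]
  · intro h
    exact absurd hδ h

/-- One variable convexity lemma. -/
theorem convex_one (c K e₁ f₁ e f : ℕ) (h1 : e₁ ≤ e) (h2 : e ≤ f) (h3 : e₁ + f₁ = e + f) :
    ∑ β ∈ range (c + 1), (K - (β * e + (c - β) * f)) ≤
      ∑ β ∈ range (c + 1), (K - (β * e₁ + (c - β) * f₁)) := by
  have hrefl : ∀ g : ℕ → ℕ, ∑ β ∈ range (c + 1), g β = ∑ β ∈ range (c + 1), g (c - β) := by
    intro g
    rw [← sum_range_reflect g (c + 1)]
    refine sum_congr rfl fun β _ => ?_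
    rw [show c + 1 - 1 - β = c - β by omega]
  have key : ∀ β ∈ range (c + 1), (K - (β * e + (c - β) * f)) +
      (K - ((c - β) * e + (c - (c - β)) * f)) ≤ (K - (β * e₁ + (c - β) * f₁)) +
      (K - ((c - β) * e₁ + (c - (c - β)) * f₁)) := by
    intro β hβ
    rw [mem_range] at hβ
    obtain ⟨u, rfl⟩ : ∃ u, e = e₁ + u := ⟨e - e₁, by omega⟩
    obtain ⟨v, rfl⟩ : ∃ v, f = e₁ + u + v := ⟨f - (e₁ + u), by omega⟩
    have hf₁ : f₁ = e₁ + u + v + u := by omega
    subst hf₁
    obtain ⟨w, rfl⟩ : ∃ w, c = β + w := ⟨c - β, by omega⟩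
    rw [show β + w - β = w by omega, show β + w - w = β by omega]
    rcases le_total β w with h | h
    · obtain ⟨t, rfl⟩ : ∃ t, w = β + t := ⟨w - β, by omega⟩
      have hx1 : β * e₁ + (β + t) * (e₁ + u + v + u) =
          (β * (e₁ + u) + (β + t) * (e₁ + u + v)) + t * u := by ring
      have hx2 : (β + t) * (e₁ + u) + β * (e₁ + u + v) =
          ((β + t) * e₁ + β * (e₁ + u + v + u)) + t * u := by ring
      have hx3 : (β * (e₁ + u) + (β + t) * (e₁ + u + v)) =
          ((β + t) * (e₁ + u) + β * (e₁ + u + v)) + t * v := by ring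
      generalize (β * (e₁ + u) + (β + t) * (e₁ + u + v)) = y1 at *
      generalize ((β + t) * (e₁ + u) + β * (e₁ + u + v)) = y2 at *
      generalize β * e₁ + (β + t) * (e₁ + u + v + u) = x1 at *
      generalize ((β + t) * e₁ + β * (e₁ + u + v + u)) = x2 at *
      generalize t * u = p at *
      generalize t * v = q at *
      omega
    · obtain ⟨t, rfl⟩ : ∃ t, β = w + t := ⟨β - w, by omega⟩
      have hx1 : w * e₁ + (w + t) * (e₁ + u + v + u) =
          (w * (e₁ + u) + (w + t) * (e₁ + u + v)) + t * u := by ring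
      have hx2 : (w + t) * (e₁ + u) + w * (e₁ + u + v) =
          ((w + t) * e₁ + w * (e₁ + u + v + u)) + t * u := by ring
      have hx3 : (w * (e₁ + u) + (w + t) * (e₁ + u + v)) =
          ((w + t) * (e₁ + u) + w * (e₁ + u + v)) + t * v := by ring
      generalize (w * (e₁ + u) + (w + t) * (e₁ + u + v)) = y1 at *
      generalize ((w + t) * (e₁ + u) + w * (e₁ + u + v)) = y2 at *
      generalize w * e₁ + (w + t) * (e₁ + u + v + u) = x1 at *
      generalize ((w + t) * e₁ + w * (e₁ + u + v + u)) = x2 at *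
      generalize t * u = p at *
      generalize t * v = q at *
      omega
  have h4 := sum_le_sum key
  rw [sum_add_distrib, sum_add_distrib, ← hrefl fun β => K - (β * e + (c - β) * f),
    ← hrefl fun β => K - (β * e₁ + (c - β) * f₁)] at h4
  omega

/-- The number of parameters. -/
def hsum {n : ℕ} (c : Fin n → ℕ) (D : ℕ) (e f : Fin n → ℕ) : ℕ :=
  ∑ β : (l : Fin n) → Fin (c l + 1), (D - ∑ l, ((β l : ℕ) * e l + (c l - β l) * f l))

theorem hsum_convex {n : ℕ} (c : Fin n → ℕ) (D : ℕ) (e₁ f₁ : Fin n → ℕ) (e f : ℕ)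
    (h1 : ∀ l, e₁ l ≤ e) (h2 : e ≤ f) (h3 : ∀ l, e₁ l + f₁ l = e + f) :
    hsum c D (fun _ => e) (fun _ => f) ≤ hsum c D e₁ f₁ := by
  unfold hsum
  induction n generalizing D with
  | zero => simp
  | succ n ih =>
    have hcons : ∀ (D : ℕ) (e f : Fin (n + 1) → ℕ),
        ∑ β : (l : Fin (n + 1)) → Fin (c l + 1), (D - ∑ l, ((β l : ℕ) * e l + (c l - β l) * f l)) =
        ∑ b : Fin (c 0 + 1), ∑ β : (l : Fin n) → Fin (c l.succ + 1),
          ((D - ((b : ℕ) * e 0 + (c 0 - b) * f 0)) -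
            ∑ l, ((β l : ℕ) * e l.succ + (c l.succ - β l) * f l.succ)) := by
      intro D e f
      rw [← (Fin.consEquiv fun l : Fin (n + 1) => Fin (c l + 1)).sum_comp, Fintype.sum_prod_type]
      refine sum_congr rfl fun b _ => sum_congr rfl fun β _ => ?_
      rw [Fin.sum_univ_succ, Nat.sub_sub]
      rfl
    rw [hcons, hcons]
    have step1 : ∀ b : Fin (c 0 + 1), ∑ β : (l : Fin n) → Fin (c l.succ + 1),
          ((D - ((b : ℕ) * e₁ 0 + (c 0 - b) * f₁ 0)) -
            ∑ l, ((β l : ℕ) * e + (c l.succ - β l) * f)) ≤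
        ∑ β : (l : Fin n) → Fin (c l.succ + 1),
          ((D - ((b : ℕ) * e₁ 0 + (c 0 - b) * f₁ 0)) -
            ∑ l, ((β l : ℕ) * e₁ l.succ + (c l.succ - β l) * f₁ l.succ)) := fun b =>
      ih (fun l => c l.succ) _ (fun l => e₁ l.succ) (fun l => f₁ l.succ) (fun l => h1 _)
        (fun l => h3 _)
    refine le_trans ?_ (sum_le_sum fun b _ => step1 b)
    rw [sum_comm, sum_comm (s := univ (α := Fin (c 0 + 1)))]
    refine sum_le_sum fun β _ => ?_
    have hfin : ∀ g : ℕ → ℕ, ∑ b : Fin (c 0 + 1), g b = ∑ b ∈ range (c 0 + 1), g b :=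
      fun g => Fin.sum_univ_eq_sum_range g _
    have e1 := hfin fun b => D - (b * e + (c 0 - b) * f) -
      ∑ l, ((β l : ℕ) * e + (c l.succ - β l) * f)
    have e2 := hfin fun b => D - (b * e₁ 0 + (c 0 - b) * f₁ 0) -
      ∑ l, ((β l : ℕ) * e + (c l.succ - β l) * f)
    rw [e1, e2]
    have h4 := convex_one (c 0) (D - ∑ l, ((β l : ℕ) * e + (c l.succ - β l) * f)) (e₁ 0) (f₁ 0)
      e f (h1 0) h2 (h3 0)
    refine le_trans (le_of_eq ?_) (le_trans h4 (le_of_eq ?_))
    · exact sum_congr rfl fun b _ => by omega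
    · exact sum_congr rfl fun b _ => by omega

end Pool.Agent.H49.Pencil
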