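import Mathlib

/-! # Two independent curves through points of a plane -/

namespace Pool.Agent.H49.Pencil

open Finset Polynomial

/-- `P(s) x + Q(s)` has degree at most `D` (with `deg P < D`) and vanishes at the points. -/
def Good {ι : Type*} (σ ξ : ι → ℂ) (D : ℕ) (P Q : ℂ[X]) : Prop :=
  P ∈ degreeLT ℂ D ∧ Q ∈ degreeLT ℂ (D + 1) ∧ ∀ j, P.eval (σ j) * ξ j + Q.eval (σ j) = 0

/-- evaluation at the points -/
noncomputable def evMap {ι : Type*} (σ ξ : ι → ℂ) (D : ℕ) :
    (degreeLT ℂ D × degreeLT ℂ (D + 1)) →ₗ[ℂ] (ι → ℂ) where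
  toFun := fun x j => (x.1 : ℂ[X]).eval (σ j) * ξ j + (x.2 : ℂ[X]).eval (σ j)
  map_add' := fun x y => by
    funext j
    simp only [Prod.fst_add, Prod.snd_add, Submodule.coe_add, eval_add, Pi.add_apply]
    ring
  map_smul' := fun a x => by
    funext j
    simp only [Prod.smul_fst, Prod.smul_snd, Submodule.coe_smul, eval_smul, Pi.smul_apply,
      smul_eq_mul, RingHom.id_apply]
    ring

theorem finrank_dom (D : ℕ) :
    Module.finrank ℂ (degreeLT ℂ D × degreeLT ℂ (D + 1)) = 2 * D + 1 := by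
  have : ∀ k, Module.Finite ℂ (degreeLT ℂ k) := fun k =>
    Module.Finite.equiv (degreeLTEquiv ℂ k).symm
  rw [Module.finrank_prod, (degreeLTEquiv ℂ D).finrank_eq, (degreeLTEquiv ℂ (D + 1)).finrank_eq,
    Module.finrank_fin_fun, Module.finrank_fin_fun]
  ring

theorem finrank_ker_ge {ι : Type*} [Fintype ι] (σ ξ : ι → ℂ) (D : ℕ) :
    2 * D + 1 ≤ Module.finrank ℂ (LinearMap.ker (evMap σ ξ D)) + Fintype.card ι := by
  have : ∀ k, Module.Finite ℂ (degreeLT ℂ k) := fun k =>
    Module.Finite.equiv (degreeLTEquiv ℂ k).symm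
  have h1 := LinearMap.finrank_range_add_finrank_ker (evMap σ ξ D)
  have h2 : Module.finrank ℂ (LinearMap.range (evMap σ ξ D)) ≤ Fintype.card ι := by
    rw [← Module.finrank_fintype_fun_eq_card (R := ℂ) (η := ι)]
    exact Submodule.finrank_le _
  rw [finrank_dom] at h1
  omega

theorem rank_one_bound {ι : Type*} [Fintype ι] (σ ξ : ι → ℂ) (e D : ℕ) (P Q : ℂ[X])
    (hne : P ≠ 0 ∨ Q ≠ 0)
    (hmin : ∀ D' < e, ∀ P' Q', Good σ ξ D' P' Q' → P' = 0 ∧ Q' = 0)
    (hdep : ∀ P' Q', Good σ ξ D P' Q' → P * Q' - P' * Q = 0) :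
    Module.finrank ℂ (LinearMap.ker (evMap σ ξ D)) ≤ D + 1 - e := by
  classical
  -- auxiliary points
  obtain ⟨τ, hτ, hτσ, hτA⟩ : ∃ τ : ℕ → ℂ, Function.Injective τ ∧ (∀ i j, τ i ≠ σ j) ∧
      ∀ i, P.eval (τ i) ≠ 0 ∨ Q.eval (τ i) ≠ 0 := by
    have hfin : ({x | P.eval x = 0 ∧ Q.eval x = 0} : Set ℂ).Finite := by
      rcases hne with h | h
      · exact (P.finite_setOfPred_isRoot h).subset fun x hx => hx.1
      · exact (Q.finite_setOfPred_isRoot h).subset fun x hx => hx.2
    have hinf : (Set.range σ ∪ {x | P.eval x = 0 ∧ Q.eval x = 0})ᶜ.Infinite :=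
      ((Set.finite_range σ).union hfin).infinite_compl
    refine ⟨fun k => (hinf.natEmbedding _ k).1, fun a b hab =>
      (hinf.natEmbedding _).injective (Subtype.ext hab), fun k i h => ?_, fun k => ?_⟩
    · exact (hinf.natEmbedding _ k).2 (Or.inl ⟨i, h.symm⟩)
    · by_contra hcon
      push Not at hcon
      exact (hinf.natEmbedding _ k).2 (Or.inr hcon)
  set K := D + 1 - e with hK
  let L : LinearMap.ker (evMap σ ξ D) →ₗ[ℂ] (Fin K → ℂ) :=
    { toFun := fun x i => if P.eval (τ i) = 0 then (x.1.2 : ℂ[X]).eval (τ i)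
        else (x.1.1 : ℂ[X]).eval (τ i)
      map_add' := fun x y => by
        funext i
        by_cases h : P.eval (τ i) = 0
        · simp [h]
        · simp [h]
      map_smul' := fun a x => by
        funext i
        by_cases h : P.eval (τ i) = 0
        · simp [h]
        · simp [h] }
  have hinj : Function.Injective L := by
    rw [injective_iff_map_eq_zero]
    intro x hx
    obtain ⟨⟨⟨P', hP'⟩, ⟨Q', hQ'⟩⟩, hker⟩ := x
    have hgood : Good σ ξ D P' Q' := ⟨hP', hQ', fun j => congrFun (LinearMap.mem_ker.1 hker) j⟩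
    have hzero : P' = 0 ∧ Q' = 0 := by
      rcases lt_or_ge D e with hDe | hDe
      · exact hmin D hDe P' Q' hgood
      have hdet := hdep P' Q' hgood
      have hev : ∀ i < K, P'.eval (τ i) = 0 ∧ Q'.eval (τ i) = 0 := by
        intro i hi
        have h1 := congrFun hx ⟨i, hi⟩
        change (if P.eval (τ i) = 0 then Q'.eval (τ i) else P'.eval (τ i)) = 0 at h1
        have h2 : P.eval (τ i) * Q'.eval (τ i) - P'.eval (τ i) * Q.eval (τ i) = 0 := by
          have := congrArg (eval (τ i)) hdet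
          simpa using this
        split_ifs at h1 with h3
        · refine ⟨?_, h1⟩
          rw [h1, mul_zero, zero_sub, neg_eq_zero] at h2
          exact (mul_eq_zero.1 h2).resolve_right ((hτA i).resolve_left fun h => h h3)
        · refine ⟨h1, ?_⟩
          rw [h1, zero_mul, sub_zero] at h2
          exact (mul_eq_zero.1 h2).resolve_left h3
      have hdvd : ∀ R : ℂ[X], (∀ i < K, R.eval (τ i) = 0) → ∏ k ∈ range K, (X - C (τ k)) ∣ R := by
        intro R hR
        apply Finset.prod_dvd_of_coprime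
        · intro i _ i' _ hii
          exact (pairwise_coprime_X_sub_C hτ) hii
        · intro k hk
          rw [dvd_iff_isRoot]
          exact hR k (mem_range.1 hk)
      obtain ⟨P'', hP''⟩ := hdvd P' fun i hi => (hev i hi).1
      obtain ⟨Q'', hQ''⟩ := hdvd Q' fun i hi => (hev i hi).2
      set Pl := ∏ k ∈ range K, (X - C (τ k)) with hPl
      have hPm : Pl.Monic := monic_prod_of_monic _ _ fun k _ => monic_X_sub_C _
      have hPd : Pl.natDegree = K := by
        rw [hPl, natDegree_prod_of_monic _ _ (fun k _ => monic_X_sub_C _)]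
        simp
      have hdeg : ∀ (R R' : ℂ[X]) (t : ℕ), R = Pl * R' → R ∈ degreeLT ℂ t →
          R' ∈ degreeLT ℂ (t - K) := by
        intro R R' t h1 h2
        by_cases h0 : R' = 0
        · rw [h0]
          exact zero_mem _
        have hR0 : R ≠ 0 := by
          rw [h1]
          exact mul_ne_zero hPm.ne_zero h0
        rw [mem_degreeLT, degree_eq_natDegree hR0, Nat.cast_lt] at h2
        rw [mem_degreeLT, degree_eq_natDegree h0, Nat.cast_lt]
        rw [h1, natDegree_mul hPm.ne_zero h0, hPd] at h2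
        omega
      have hP3 := hdeg P' P'' D hP'' hP'
      have hQ3 := hdeg Q' Q'' (D + 1) hQ'' hQ'
      have hboth : P'' = 0 ∧ Q'' = 0 := by
        rcases Nat.eq_zero_or_pos e with he | he
        · rw [show D - K = 0 by omega] at hP3
          rw [show D + 1 - K = 0 by omega] at hQ3
          rw [mem_degreeLT, Nat.cast_zero] at hP3 hQ3
          constructor
          · by_contra h
            rw [degree_eq_natDegree h] at hP3
            exact absurd hP3 (by simp)
          · by_contra h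
            rw [degree_eq_natDegree h] at hQ3
            exact absurd hQ3 (by simp)
        · apply hmin (e - 1) (by omega)
          refine ⟨by rwa [show D - K = e - 1 by omega] at hP3,
            by rwa [show D + 1 - K = e - 1 + 1 by omega] at hQ3, fun j => ?_⟩
          have h4 := hgood.2.2 j
          rw [hP'', hQ'', eval_mul, eval_mul] at h4
          have h5 : Pl.eval (σ j) ≠ 0 := by
            rw [hPl, eval_prod]
            refine prod_ne_zero_iff.2 fun k _ => ?_
            rw [eval_sub, eval_X, eval_C]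
            exact sub_ne_zero.2 (hτσ k j).symm
          have h6 : Pl.eval (σ j) * (P''.eval (σ j) * ξ j + Q''.eval (σ j)) = 0 := by
            rw [← h4]
            ring
          exact (mul_eq_zero.1 h6).resolve_left h5
      rw [hP'', hQ'', hboth.1, hboth.2, mul_zero]
      exact ⟨rfl, rfl⟩
    apply Subtype.ext
    apply Prod.ext
    · exact Subtype.ext hzero.1
    · exact Subtype.ext hzero.2
  have h := LinearMap.finrank_le_finrank_of_injective hinj
  rwa [Module.finrank_fin_fun] at h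

theorem exists_curves {ι : Type*} [Fintype ι] (σ ξ : ι → ℂ) :
    ∃ (e f : ℕ) (P Q P' Q' : ℂ[X]), e ≤ (Fintype.card ι + 1) / 2 ∧ e + f = Fintype.card ι + 1 ∧
      Good σ ξ e P Q ∧ Good σ ξ f P' Q' ∧ P * Q' - P' * Q ≠ 0 := by
  classical
  have hex : ∀ D, Fintype.card ι < 2 * D + 1 → ∃ P Q, Good σ ξ D P Q ∧ (P ≠ 0 ∨ Q ≠ 0) := by
    intro D hD
    have h1 := finrank_ker_ge σ ξ D
    have h2 : LinearMap.ker (evMap σ ξ D) ≠ ⊥ := by
      intro h
      rw [h, finrank_bot] at h1
      omega
    obtain ⟨x, hx, hx0⟩ := Submodule.exists_mem_ne_zero_of_ne_bot h2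
    obtain ⟨⟨P, hP⟩, ⟨Q, hQ⟩⟩ := x
    refine ⟨P, Q, ⟨hP, hQ, fun j => congrFun (LinearMap.mem_ker.1 hx) j⟩, ?_⟩
    by_contra hcon
    push Not at hcon
    apply hx0
    apply Prod.ext
    · exact Subtype.ext hcon.1
    · exact Subtype.ext hcon.2
  have hex' : ∃ D, ∃ P Q, Good σ ξ D P Q ∧ (P ≠ 0 ∨ Q ≠ 0) :=
    ⟨_, hex ((Fintype.card ι + 1) / 2) (by omega)⟩
  set e := Nat.find hex' with he
  obtain ⟨P, Q, hPQ, hne⟩ := Nat.find_spec hex'
  have hmin : ∀ D' < e, ∀ P' Q', Good σ ξ D' P' Q' → P' = 0 ∧ Q' = 0 := by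
    intro D' hD' P' Q' hg
    by_contra hcon
    rw [not_and_or] at hcon
    exact Nat.find_min hex' hD' ⟨P', Q', hg, hcon⟩
  have hele : e ≤ (Fintype.card ι + 1) / 2 := Nat.find_min' hex' (hex _ (by omega))
  refine ⟨e, Fintype.card ι + 1 - e, P, Q, ?_⟩
  by_contra hcon
  push Not at hcon
  have hb := rank_one_bound σ ξ e (Fintype.card ι + 1 - e) P Q hne hmin
    (fun P' Q' hg => hcon P' Q' hele (by omega) hPQ hg)
  have h1 := finrank_ker_ge σ ξ (Fintype.card ι + 1 - e)
  omega

end Pool.Agent.H49.Pencil
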