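import Pool.Agent.H49.Pencil.Link

/-!
# The classification outside a bounded window
-/

namespace Pool.Agent.H49.PW

open MvPolynomial Finset Pool.Agent.H18.Fat Pool.Agent.H49.Pencil

variable {n : ℕ} {c : Fin n → ℕ}

/-- Exponent vectors with some large exponent. -/
noncomputable def bad (c : Fin n → ℕ) (D : ℕ) : Finset (Fin (n + 2) →₀ ℕ) := by
  classical exact (mons (n + 2) D).filter fun α => ∃ l : Fin n, c l < α l.succ.succ

/-- Exponent vectors with large exponent at `l`. -/
noncomputable def badAt (c : Fin n → ℕ) (D : ℕ) (l : Fin n) : Finset (Fin (n + 2) →₀ ℕ) := by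
  classical exact (mons (n + 2) D).filter fun α => c l < α l.succ.succ

lemma mem_bad {D : ℕ} {α : Fin (n + 2) →₀ ℕ} :
    α ∈ bad c D ↔ α.degree = D ∧ ∃ l : Fin n, c l < α l.succ.succ := by
  classical
  unfold bad
  rw [mem_filter, mem_mons]

lemma mem_badAt {D : ℕ} {l : Fin n} {α : Fin (n + 2) →₀ ℕ} :
    α ∈ badAt c D l ↔ α.degree = D ∧ c l < α l.succ.succ := by
  classical
  unfold badAt
  rw [mem_filter, mem_mons]

/-- The number of good monomials. -/
lemma card_good (D : ℕ) : (D + (n + 1)).choose (n + 1) = len c (D + 1) + (bad c D).card := by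
  classical
  have h1 : len c (D + 1) = ((mons (n + 2) D).filter fun α =>
      ¬ ∃ l : Fin n, c l < α l.succ.succ).card := by
    have h2 : len c (D + 1) = (univ : Finset ((γ : Bx c) × Fin (D + 1 - dg γ))).card := by
      rw [card_univ, Fintype.card_sigma]
      unfold len
      exact sum_congr rfl fun γ _ => (Fintype.card_fin _).symm
    rw [h2]
    apply card_bij (fun x _ => emb (D - dg x.1 - x.2) x.2 x.1)
    · rintro ⟨γ, i⟩ _
      rw [mem_filter, mem_mons, degree_emb]
      refine ⟨?_, ?_⟩
      · have := i.2
        simp only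
        omega
      · rintro ⟨l, hl⟩
        rw [emb_succ] at hl
        have := (γ l).2
        simp only at hl
        omega
    · rintro ⟨γ, i⟩ _ ⟨δ, j⟩ _ h
      have h2 : γ = δ := by
        funext l
        apply Fin.ext
        have := DFunLike.congr_fun h l.succ.succ
        exact this
      subst h2
      have h3 : (i : ℕ) = j := DFunLike.congr_fun h 1
      rw [Fin.ext h3]
    · intro α hα
      rw [mem_filter, mem_mons] at hα
      obtain ⟨hα1, hα2⟩ := hα
      push Not at hα2
      have h3 := eq_emb hα2
      set γ : Bx c := fun l => ⟨α l.succ.succ, Nat.lt_succ_of_le (hα2 l)⟩ with hγ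
      have h4 : α.degree = α 0 + (α 1 + dg γ) := by
        conv_lhs => rw [h3]
        exact degree_emb _ _ _
      refine ⟨⟨γ, ⟨α 1, by omega⟩⟩, mem_univ _, ?_⟩
      simp only
      rw [show D - dg γ - α 1 = α 0 by omega]
      exact h3.symm
  have h3 := card_filter_add_card_filter_not (s := mons (n + 2) D)
    (fun α => ∃ l : Fin n, c l < α l.succ.succ)
  have h4 := card_mons (n + 1) D
  unfold bad
  rw [← h4, h1, ← h3]
  exact Nat.add_comm _ _

lemma card_badAt {d μ : ℕ} {l : Fin n} (h1 : 1 ≤ μ) (h2 : μ + c l = d) :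
    (badAt c d l).card = (μ + (n + 1) - 1).choose (n + 1) := by
  classical
  have h3 : (μ + (n + 1) - 1).choose (n + 1) = (mons (n + 2) (μ - 1)).card := by
    rw [card_mons]
    congr 1
    omega
  rw [h3]
  symm
  apply card_nbij' (fun α => α + Finsupp.single l.succ.succ (c l + 1))
    (fun α => α - Finsupp.single l.succ.succ (c l + 1))
  · intro α hα
    rw [mem_coe, mem_mons] at hα
    rw [mem_coe, mem_badAt]
    simp only [map_add, Finsupp.degree_single, Finsupp.add_apply, Finsupp.single_eq_same]
    omega
  · intro α hα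
    rw [mem_coe, mem_badAt] at hα
    rw [mem_coe, mem_mons]
    have h4 : α - Finsupp.single l.succ.succ (c l + 1) +
        Finsupp.single l.succ.succ (c l + 1) = α := by
      apply tsub_add_cancel_of_le
      rw [Finsupp.single_le_iff]
      omega
    have h5 := congrArg Finsupp.degree h4
    rw [map_add, Finsupp.degree_single] at h5
    simp only
    omega
  · intro α _
    simp only
    exact add_tsub_cancel_right _ _
  · intro α hα
    rw [mem_coe, mem_badAt] at hα
    simp only
    apply tsub_add_cancel_of_le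
    rw [Finsupp.single_le_iff]
    omega

lemma card_bad_eq (D : ℕ) : (bad c D).card =
    ∑ α ∈ mons (n + 2) D, if ∃ l : Fin n, c l < α l.succ.succ then 1 else 0 := by
  classical
  unfold bad
  rw [card_filter]

lemma sum_card_badAt (D : ℕ) : ∑ l, (badAt c D l).card =
    ∑ α ∈ mons (n + 2) D, ∑ l : Fin n, if c l < α l.succ.succ then 1 else 0 := by
  classical
  rw [sum_comm]
  refine sum_congr rfl fun l _ => ?_
  unfold badAt
  rw [card_filter]

lemma ind_le (α : Fin (n + 2) →₀ ℕ) :
    (if ∃ l : Fin n, c l < α l.succ.succ then 1 else 0) ≤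
      ∑ l : Fin n, if c l < α l.succ.succ then 1 else 0 := by
  classical
  split_ifs with h
  · obtain ⟨l, hl⟩ := h
    rw [← sum_erase_add univ _ (mem_univ l), if_pos hl]
    omega
  · exact Nat.zero_le _

lemma bad_le (D : ℕ) : (bad c D).card ≤ ∑ l, (badAt c D l).card := by
  rw [card_bad_eq, sum_card_badAt]
  exact sum_le_sum fun α _ => ind_le α

lemma bad_eq {D : ℕ} (h : ∀ l l' : Fin n, l ≠ l' → D < c l + 1 + (c l' + 1)) :
    (bad c D).card = ∑ l, (badAt c D l).card := by
  classical
  rw [card_bad_eq, sum_card_badAt]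
  refine sum_congr rfl fun α hα => ?_
  split_ifs with h1
  · obtain ⟨l, hl⟩ := h1
    rw [sum_eq_single l]
    · rw [if_pos hl]
    · intro l' _ hl'
      rw [if_neg]
      intro h4
      have h5 := h l l' (Ne.symm hl')
      rw [mem_mons, Finsupp.degree_eq_sum] at hα
      have hne : l.succ.succ ≠ l'.succ.succ := fun h6 =>
        hl' (Fin.succ_injective _ (Fin.succ_injective _ h6)).symm
      have h6 : α l.succ.succ + α l'.succ.succ ≤ ∑ i, α i := by
        rw [← sum_pair hne]
        exact sum_le_sum_of_subset (subset_univ _)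
      omega
    · intro h4
      exact absurd (mem_univ _) h4
  · push Not at h1
    symm
    refine sum_eq_zero fun l _ => ?_
    rw [if_neg (by have := h1 l; omega)]

lemma bad_lt {D : ℕ} {l l' : Fin n} (hll : l ≠ l') (h : c l + 1 + (c l' + 1) ≤ D) :
    (bad c D).card < ∑ l, (badAt c D l).card := by
  classical
  rw [card_bad_eq, sum_card_badAt]
  apply sum_lt_sum (fun α _ => ind_le α)
  have hne : l.succ.succ ≠ l'.succ.succ := fun h6 =>
    hll (Fin.succ_injective _ (Fin.succ_injective _ h6))
  have hl : (Finsupp.single l.succ.succ (c l + 1) + Finsupp.single l'.succ.succ (D - (c l + 1)) :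
      Fin (n + 2) →₀ ℕ) l.succ.succ = c l + 1 := by
    simp [Finsupp.single_eq_of_ne hne]
  have hl' : (Finsupp.single l.succ.succ (c l + 1) + Finsupp.single l'.succ.succ (D - (c l + 1)) :
      Fin (n + 2) →₀ ℕ) l'.succ.succ = D - (c l + 1) := by
    simp [Finsupp.single_eq_of_ne hne.symm]
  refine ⟨Finsupp.single l.succ.succ (c l + 1) + Finsupp.single l'.succ.succ (D - (c l + 1)),
    ?_, ?_⟩
  · rw [mem_mons, map_add, Finsupp.degree_single, Finsupp.degree_single]
    omega
  · rw [if_pos ⟨l, by rw [hl]; omega⟩]
    rw [← sum_erase_add univ _ (mem_univ l), if_pos (by rw [hl]; omega),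
      ← sum_erase_add (univ.erase l) _ (mem_erase.2 ⟨hll.symm, mem_univ _⟩),
      if_pos (by rw [hl']; omega)]
    omega

lemma bad_eq_zero {D : ℕ} (h : ∀ l : Fin n, D ≤ c l) : (bad c D).card = 0 := by
  rw [card_eq_zero, eq_empty_iff_forall_notMem]
  intro α hα
  rw [mem_bad] at hα
  obtain ⟨h1, l, hl⟩ := hα
  have h2 : α l.succ.succ ≤ α.degree := by
    rw [Finsupp.degree_eq_sum]
    exact single_le_sum (f := fun i => α i) (fun i _ => Nat.zero_le _) (mem_univ _)
  have := h l
  omega

lemma bad_pos {D : ℕ} {l : Fin n} (h : c l < D) : 0 < (bad c D).card := by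
  rw [card_pos]
  refine ⟨Finsupp.single l.succ.succ D, ?_⟩
  rw [mem_bad]
  refine ⟨Finsupp.degree_single _ _, l, ?_⟩
  rw [Finsupp.single_eq_same]
  exact h

/-- The main theorem in terms of the lattice model. -/
theorem window (k d : ℕ) (m : Fin k → ℕ) (hm : ∀ i, 1 ≤ m i)
    (J : Fin n ↪ Fin k) (c : Fin n → ℕ) (hc : ∀ l, m (J l) + c l = d) (N L : ℕ)
    (hN : N = len c (d + 1))
    (hL : L = ∑ i ∈ univ.filter (fun i => ∀ l, J l ≠ i), len c (m i))
    (h : 2 * L + sz c ^ 2 * (sz c - 1) * (∑ l, c l) ≤ 2 * N ∨
      2 * N + sz c ^ 2 * (sz c - 1) * (∑ l, c l) ≤ 2 * L) :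
    ForGeneralPoints (n + 1) k fun p =>
      Module.finrank ℂ (fatForms (n + 1) d p m) = N - L ∧
      (¬ ImposesMaximalConditions (n + 1) d p m ↔
        L < N ∧ ∃ l i, J l ≠ i ∧ d + 2 ≤ m (J l) + m i) := by
  classical
  have hlist : ∀ (T : List (Fin k)) (L' : List (Pt n)), T.Nodup → L'.length = T.length →
      ∃ pt : Fin k → Pt n, T.map pt = L' := by
    intro T
    induction T with
    | nil =>
      intro L' _ h1
      refine ⟨fun _ => ⟨0, 0, 0⟩, ?_⟩
      rw [List.length_nil] at h1
      rw [List.length_eq_zero_iff.1 h1]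
      rfl
    | cons i T ih =>
      intro L' h1 h2
      rcases L' with _ | ⟨x, L'⟩
      · simp at h2
      · rw [List.nodup_cons] at h1
        obtain ⟨pt, hpt⟩ := ih L' h1.2 (by simpa using h2)
        refine ⟨Function.update pt i x, ?_⟩
        rw [List.map_cons, Function.update_self, ← hpt]
        congr 1
        apply List.map_congr_left
        intro j hj
        rw [Function.update_of_ne]
        rintro rfl
        exact h1.1 hj
  -- the special configuration
  have hspecial : ∃ p₀ : Fin k → Fin (n + 2) → ℂ,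
      Module.finrank ℂ (fatForms (n + 1) d p₀ m) ≤ N - L := by
    set T := (univ.filter (fun i => ∀ l, J l ≠ i)).toList with hT
    have hsum : (T.map (fun i => len c (m i))).sum = L := by
      rw [hL, hT]
      exact Finset.sum_map_toList _ _
    obtain ⟨L', hL'1, hL'2, hL'3⟩ := exists_config_dim c (T.map m) d (by
      rw [List.map_map]
      have h1 : (T.map (len c ∘ m)).sum = L := hsum
      have h2 : ∑ γ : Bx c, (d + 1 - dg γ) = N := hN.symm
      rw [h1, h2]
      tauto)
    have hlen : L'.length = T.length := by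
      have := congrArg List.length hL'1
      simpa using this
    obtain ⟨pt, hpt⟩ := hlist T L' (Finset.nodup_toList _) hlen
    have hptm : ∀ i ∈ T, (pt i).m = m i := by
      rw [← hpt, List.map_map] at hL'1
      exact fun i hi => List.map_inj_left.1 hL'1 i hi
    obtain ⟨p₀, hp₀⟩ := finrank_special_le (c := c) m J hc T (by
      intro i
      rw [hT, Finset.mem_toList, mem_filter]
      exact ⟨fun h => h.2, fun h => ⟨mem_univ _, h⟩⟩) pt hptm
    refine ⟨p₀, hp₀.trans (le_of_eq ?_)⟩
    rw [hpt, hL'3, List.map_map]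
    have h1 : (T.map (len c ∘ m)).sum = L := hsum
    have h2 : ∑ γ : Bx c, (d + 1 - dg γ) = N := hN.symm
    rw [h1, h2]
  obtain ⟨p₀, hp₀⟩ := hspecial
  -- the lower bound
  have hlower : ForGeneralPoints (n + 1) k fun p =>
      N ≤ Module.finrank ℂ (fatForms (n + 1) d p m) + L := by
    refine ForGeneralPoints.mono (general_coords J) ?_
    rintro p ⟨q, hq1, hq2, hq3⟩
    rw [hq3 d m]
    have h1 := count_le_finrank m J hc hq1 hq2
    have h2 : ∑ i : {i : Fin k // ∀ l, J l ≠ i}, len c (m i.1) = L := by
      rw [hL, sum_subtype (p := fun i => ∀ l, J l ≠ i)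
        (univ.filter (fun i => ∀ l, J l ≠ i)) (by simp) (fun i => len c (m i))]
    rw [h2] at h1
    rw [hN]
    exact h1
  refine ((general_finrank_le d p₀ m).and hlower).mono ?_
  rintro p ⟨hp1, hp2⟩
  have hp : Module.finrank ℂ (fatForms (n + 1) d p m) = N - L := by omega
  refine ⟨hp, ?_⟩
  -- the total length
  have htot : ∑ i, (m i + (n + 1) - 1).choose (n + 1) =
      ∑ l, (badAt c d l).card + (L + ∑ i ∈ univ.filter (fun i => ∀ l, J l ≠ i),
        (bad c (m i - 1)).card) := by
    rw [← sum_filter_add_sum_filter_not univ (fun i => ∀ l, J l ≠ i), add_comm, hL,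
      ← sum_add_distrib]
    congr 1
    · rw [sum_congr rfl fun l (_ : l ∈ univ) => card_badAt (c := c) (hm (J l)) (hc l),
        ← sum_map univ J fun i => (m i + (n + 1) - 1).choose (n + 1)]
      apply sum_congr _ fun _ _ => rfl
      ext i
      rw [mem_filter, mem_map]
      push Not
      simp
    · refine sum_congr rfl fun i _ => ?_
      have h1 := card_good (c := c) (m i - 1)
      have h2 := hm i
      rw [show m i - 1 + 1 = m i by omega, show m i - 1 + (n + 1) = m i + (n + 1) - 1 by omega]
        at h1
      exact h1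
  have hX := card_good (c := c) d
  rw [← hN] at hX
  have hcast : ∑ i, ((m i + (n + 1) - 1).choose (n + 1) : ℤ) =
      ((∑ i, (m i + (n + 1) - 1).choose (n + 1) : ℕ) : ℤ) := by
    push_cast
    rfl
  have hbad := bad_le (c := c) d
  unfold ImposesMaximalConditions
  rw [hcast, hp, htot, hX]
  rcases Nat.lt_or_ge L N with hLN | hLN
  · by_cases hpair : ∃ l i, J l ≠ i ∧ d + 2 ≤ m (J l) + m i
    · refine iff_of_true ?_ ⟨hLN, hpair⟩
      obtain ⟨l, i, hne, h3⟩ := hpair
      have hstrict : (bad c d).card < ∑ l, (badAt c d l).card +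
          ∑ i ∈ univ.filter (fun i => ∀ l, J l ≠ i), (bad c (m i - 1)).card := by
        by_cases hi : ∃ l', J l' = i
        · obtain ⟨l', rfl⟩ := hi
          have h4 : l ≠ l' := fun h5 => hne (by rw [h5])
          have h5 := hc l
          have h6 := hc l'
          have h7 := bad_lt (c := c) (D := d) h4 (by omega)
          omega
        · push Not at hi
          have h5 := hc l
          have h6 : 0 < (bad c (m i - 1)).card := bad_pos (l := l) (by omega)
          have h7 : (bad c (m i - 1)).card ≤
              ∑ i ∈ univ.filter (fun i => ∀ l, J l ≠ i), (bad c (m i - 1)).card :=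
            single_le_sum (f := fun i => (bad c (m i - 1)).card) (fun _ _ => Nat.zero_le _)
              (mem_filter.2 ⟨mem_univ _, hi⟩)
          omega
      intro h5
      omega
    · refine iff_of_false ?_ fun h4 => hpair h4.2
      push Not at hpair
      have h1 : (bad c d).card = ∑ l, (badAt c d l).card := by
        apply bad_eq
        intro l l' hll
        have h2 := hpair l (J l') (fun h3 => hll (J.injective h3))
        have h5 := hc l
        have h6 := hc l'
        omega
      have h2 : ∑ i ∈ univ.filter (fun i => ∀ l, J l ≠ i), (bad c (m i - 1)).card = 0 := by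
        apply sum_eq_zero
        intro i hi
        rw [mem_filter] at hi
        apply bad_eq_zero
        intro l
        have h3 := hpair l i (hi.2 l)
        have h5 := hc l
        omega
      rw [not_not]
      omega
  · refine iff_of_false ?_ fun h4 => by omega
    rw [not_not]
    omega

end Pool.Agent.H49.PW
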