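import Mathlib

/-!
# Generic translates of a subspace of the space of polynomials in a box

`Bx c` is the box of exponents `γ ≤ c`. The vector `u : Bx c → ℂ` stands for the polynomial
`∑ u γ y^γ`; `tr a γ u` is the coefficient of `y^γ` in the translate `u(y + a)`.
-/

namespace Pool.Agent.H49.PW

open Module Topology Filter

/-- The box of exponents. -/
abbrev Bx {n : ℕ} (c : Fin n → ℕ) := (l : Fin n) → Fin (c l + 1)

/-- The total degree of an exponent. -/
def dg {n : ℕ} {c : Fin n → ℕ} (γ : Bx c) : ℕ := ∑ l, (γ l : ℕ)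

/-- Harris' inequality in a box. -/
lemma harris {n : ℕ} {c : Fin n → ℕ} (A A' : Finset (Bx c)) (hA : IsLowerSet (A : Set (Bx c)))
    (hA' : IsLowerSet (A' : Set (Bx c))) :
    A.card * A'.card ≤ (A ∩ A').card * Fintype.card (Bx c) := by
  classical
  refine (Finset.le_card_infs_mul_card_sups A A').trans ?_
  refine Nat.mul_le_mul (Finset.card_le_card ?_) (Finset.card_le_univ _)
  intro x hx
  rw [Finset.mem_infs] at hx
  obtain ⟨a, ha, b, hb, rfl⟩ := hx
  rw [Finset.mem_inter]
  exact ⟨hA inf_le_left ha, hA' inf_le_right hb⟩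

/-- The finrank of a subspace cut by a linear map. -/
lemma finrank_eq_map_add {V W : Type*} [AddCommGroup V] [Module ℂ V] [AddCommGroup W] [Module ℂ W]
    [FiniteDimensional ℂ V] (U : Submodule ℂ V) (A : V →ₗ[ℂ] W) :
    finrank ℂ (U.map A) + finrank ℂ (U ⊓ LinearMap.ker A : Submodule ℂ V) = finrank ℂ U := by
  have h1 := LinearMap.finrank_range_add_finrank_ker (A.domRestrict U)
  rw [LinearMap.range_domRestrict] at h1
  rw [← h1]
  congr 1
  rw [LinearMap.ker_domRestrict]
  have h2 := Submodule.finrank_map_subtype_eq U ((LinearMap.ker A).comap U.subtype)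
  rw [Submodule.map_comap_subtype] at h2
  rw [h2]

/-- Lower semicontinuity of the rank. -/
lemma rank_lsc {X : Type*} [TopologicalSpace X] {V : Type*} [AddCommGroup V] [Module ℂ V]
    {ι : Type*} [Fintype ι] [FiniteDimensional ℂ V] (U : Submodule ℂ V)
    (A : X → V →ₗ[ℂ] (ι → ℂ)) (x₀ : X) (hA : ∀ u, ContinuousAt (fun x => A x u) x₀) :
    ∀ᶠ x in 𝓝 x₀, finrank ℂ (U.map (A x₀)) ≤ finrank ℂ (U.map (A x)) := by
  classical
  set b := Module.finBasis ℂ (U.map (A x₀)) with hb
  have hlift : ∀ i, ∃ u ∈ U, A x₀ u = b i := fun i => by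
    have := (b i).2
    rw [Submodule.mem_map] at this
    exact this
  choose e heU he using hlift
  have hli : LinearIndependent ℂ (fun i => A x₀ (e i)) := by
    have h1 : (fun i => A x₀ (e i)) = (U.map (A x₀)).subtype ∘ b := by
      funext i
      simp [he]
    rw [h1]
    exact b.linearIndependent.map' _ (Submodule.ker_subtype _)
  have hcont : ContinuousAt (fun x => fun i => A x (e i)) x₀ :=
    continuousAt_pi.2 fun i => hA (e i)
  filter_upwards [hcont.eventually (LinearIndependent.eventually hli)] with x hx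
  have h2 : LinearIndependent ℂ (fun i => (⟨A x (e i), Submodule.mem_map_of_mem (heU i)⟩ :
      U.map (A x))) := by
    apply LinearIndependent.of_comp (U.map (A x)).subtype
    exact hx
  have h3 := h2.fintype_card_le_finrank
  simpa using h3

/-- The tangent lemma: if the rank of `A t` on `U` does not jump up near `0`, the derivative of
`A` at a kernel vector lies in the image of `A 0`. -/
lemma tangent {V : Type*} [AddCommGroup V] [Module ℂ V]
    {ι : Type*} [Fintype ι] [FiniteDimensional ℂ V] (U : Submodule ℂ V)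
    (A : ℂ → V →ₗ[ℂ] (ι → ℂ)) (hA : ∀ u, ContinuousAt (fun x => A x u) 0)
    (hrank : ∀ᶠ t in 𝓝 (0 : ℂ), finrank ℂ (U.map (A t)) ≤ finrank ℂ (U.map (A 0)))
    {v : V} (hvU : v ∈ U) (hv0 : A 0 v = 0) {v' : ι → ℂ}
    (hv' : HasDerivAt (fun t => A t v) v' 0) : v' ∈ U.map (A 0) := by
  classical
  by_contra hcon
  set b := Module.finBasis ℂ (U.map (A 0)) with hb
  have hlift : ∀ i, ∃ u ∈ U, A 0 u = b i := fun i => by
    have := (b i).2
    rw [Submodule.mem_map] at this
    exact this
  choose e heU he using hlift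
  have hli : LinearIndependent ℂ (fun i => A 0 (e i)) := by
    have h1 : (fun i => A 0 (e i)) = (U.map (A 0)).subtype ∘ b := by
      funext i
      simp [he]
    rw [h1]
    exact b.linearIndependent.map' _ (Submodule.ker_subtype _)
  -- the limiting family
  let g : ℂ → Option (Fin (finrank ℂ (U.map (A 0)))) → (ι → ℂ) := fun t o =>
    Option.casesOn' o (t⁻¹ • A t v) (fun i => A t (e i))
  let g₀ : Option (Fin (finrank ℂ (U.map (A 0)))) → (ι → ℂ) := fun o =>
    Option.casesOn' o v' (fun i => A 0 (e i))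
  have hg₀ : LinearIndependent ℂ g₀ := by
    apply LinearIndependent.option hli
    intro hmem
    apply hcon
    refine (Submodule.span_le.2 ?_) hmem
    rintro _ ⟨i, rfl⟩
    exact Submodule.mem_map_of_mem (heU i)
  have hlim : Tendsto g (𝓝[≠] 0) (𝓝 g₀) := by
    rw [tendsto_pi_nhds]
    intro o
    cases o with
    | none =>
      have h1 := hasDerivAt_iff_tendsto_slope.1 hv'
      refine h1.congr fun t => ?_
      simp [slope_def_module, hv0, g, Option.casesOn']
    | some i =>
      have h1 : Tendsto (fun t => A t (e i)) (𝓝[≠] 0) (𝓝 (A 0 (e i))) :=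
        (hA (e i)).tendsto.mono_left nhdsWithin_le_nhds
      exact h1
  have hev := hlim.eventually (LinearIndependent.eventually hg₀)
  have hev2 := (hrank.filter_mono (nhdsWithin_le_nhds (s := {0}ᶜ)))
  obtain ⟨t, ht1, ht2⟩ := (hev.and hev2).exists
  have hmem : ∀ o, g t o ∈ U.map (A t) := by
    intro o
    cases o with
    | none => exact Submodule.smul_mem _ _ (Submodule.mem_map_of_mem hvU)
    | some i => exact Submodule.mem_map_of_mem (heU i)
  have h2 : LinearIndependent ℂ (fun o => (⟨g t o, hmem o⟩ : U.map (A t))) := by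
    apply LinearIndependent.of_comp (U.map (A t)).subtype
    exact ht1
  have h3 := h2.fintype_card_le_finrank
  simp only [Fintype.card_option, Fintype.card_fin] at h3
  omega

/-- A point where finitely many lower semicontinuous bounded rank functions are locally constant. -/
lemma exists_locally_constant {X I : Type*} [TopologicalSpace X] [Nonempty X] [Fintype I]
    (ρ : I → X → ℕ) (M : ℕ) (hM : ∀ i x, ρ i x ≤ M)
    (hlsc : ∀ i x, ∀ᶠ y in 𝓝 x, ρ i x ≤ ρ i y) :
    ∃ x₀, ∀ i, ∀ᶠ y in 𝓝 x₀, ρ i y = ρ i x₀ := by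
  classical
  obtain ⟨x₁⟩ := (inferInstance : Nonempty X)
  have hne : (Set.range fun x => ∑ i, ρ i x).Nonempty := ⟨_, x₁, rfl⟩
  have hbdd : BddAbove (Set.range fun x => ∑ i, ρ i x) := by
    refine ⟨∑ _i : I, M, ?_⟩
    rintro _ ⟨x, rfl⟩
    exact Finset.sum_le_sum fun i _ => hM i x
  obtain ⟨x₀, hx₀⟩ := Nat.sSup_mem hne hbdd
  have hmax : ∀ x, ∑ i, ρ i x ≤ ∑ i, ρ i x₀ := fun x => by
    have h1 := le_csSup hbdd ⟨x, rfl⟩
    have h2 : (∑ i, ρ i x₀) = sSup (Set.range fun x => ∑ i, ρ i x) := hx₀
    rw [h2]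
    exact h1
  refine ⟨x₀, fun i => ?_⟩
  have hall : ∀ᶠ y in 𝓝 x₀, ∀ i, ρ i x₀ ≤ ρ i y := eventually_all.2 fun i => hlsc i x₀
  filter_upwards [hall] with y hy
  have h1 := hmax y
  have h2 : ∀ j ∈ Finset.univ, ρ j x₀ ≤ ρ j y := fun j _ => hy j
  have h3 := Finset.sum_le_sum h2
  have h4 := (Finset.sum_eq_sum_iff_of_le h2).1 (le_antisymm h3 h1)
  exact (h4 i (Finset.mem_univ _)).symm

section Translate

variable {n : ℕ} {c : Fin n → ℕ}

/-- The coefficients of a translate: the coefficient of `y^γ` in `u(y + a)`. -/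
noncomputable def tr (a : Fin n → ℂ) (γ : Bx c) : (Bx c → ℂ) →ₗ[ℂ] ℂ :=
  ∑ δ : Bx c, (∏ l, (((δ l : ℕ).choose (γ l) : ℂ) * a l ^ ((δ l : ℕ) - (γ l : ℕ)))) •
    LinearMap.proj δ

lemma tr_apply (a : Fin n → ℂ) (γ : Bx c) (u : Bx c → ℂ) :
    tr a γ u = ∑ δ : Bx c, (∏ l, (((δ l : ℕ).choose (γ l) : ℂ) *
      a l ^ ((δ l : ℕ) - (γ l : ℕ)))) * u δ := by
  simp [tr]

lemma continuous_tr (γ : Bx c) (u : Bx c → ℂ) : Continuous fun a => tr a γ u := by
  simp only [tr_apply]
  fun_prop

/-- The coefficient of a product of translates. -/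
lemma tr_eq_zero_of_forall (a : Fin n → ℂ) (u : Bx c → ℂ) (h : ∀ γ, tr a γ u = 0) : u = 0 := by
  -- downward induction on the degree
  classical
  have key : ∀ N : ℕ, ∀ γ : Bx c, (∑ l, c l) - dg γ = N → u γ = 0 := by
    intro N
    induction N using Nat.strong_induction_on with
    | _ N ih =>
      intro γ hγ
      have h1 := h γ
      rw [tr_apply, Finset.sum_eq_single γ] at h1
      · simpa using h1
      · intro δ _ hδ
        by_cases hle : ∀ l, (γ l : ℕ) ≤ δ l
        · have hlt : dg γ < dg δ := by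
            unfold dg
            apply Finset.sum_lt_sum (fun l _ => hle l)
            by_contra hcon
            push Not at hcon
            apply hδ
            funext l
            apply Fin.ext
            exact le_antisymm (hcon l (Finset.mem_univ _)) (hle l)
          have hle2 : dg δ ≤ ∑ l, c l := by
            unfold dg
            exact Finset.sum_le_sum fun l _ => Nat.lt_succ_iff.1 (δ l).2
          rw [ih ((∑ l, c l) - dg δ) (by omega) δ rfl, mul_zero]
        · push Not at hle
          obtain ⟨l, hl⟩ := hle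
          rw [Finset.prod_eq_zero (Finset.mem_univ l), zero_mul]
          rw [Nat.choose_eq_zero_of_lt hl]
          simp
      · intro h2
        exact absurd (Finset.mem_univ _) h2
  funext γ
  exact key _ γ rfl

/-- The exponent `δ + e_l`. -/
def bump (δ : Bx c) (l : Fin n) (h : (δ l : ℕ) + 1 < c l + 1) : Bx c :=
  Function.update δ l ⟨(δ l : ℕ) + 1, h⟩

lemma bump_same (δ : Bx c) (l : Fin n) (h : (δ l : ℕ) + 1 < c l + 1) :
    (bump δ l h l : ℕ) = δ l + 1 := by
  simp [bump]

lemma bump_ne (δ : Bx c) {l l' : Fin n} (h : (δ l : ℕ) + 1 < c l + 1) (hl : l' ≠ l) :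
    bump δ l h l' = δ l' := by
  simp [bump, hl]

lemma hasDerivAt_tr (a : Fin n → ℂ) (l : Fin n) (δ : Bx c) (u : Bx c → ℂ) :
    HasDerivAt (fun t : ℂ => tr (Function.update a l (a l + t)) δ u)
      (if h : (δ l : ℕ) + 1 < c l + 1 then ((δ l : ℕ) + 1 : ℂ) * tr a (bump δ l h) u else 0) 0 := by
  classical
  -- the constant factors
  set Q : Bx c → ℂ := fun ε => ∏ l' ∈ Finset.univ.erase l,
    (((ε l' : ℕ).choose (δ l') : ℂ) * a l' ^ ((ε l' : ℕ) - (δ l' : ℕ))) with hQ
  have h1 : ∀ t : ℂ, tr (Function.update a l (a l + t)) δ u =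
      ∑ ε : Bx c, (((ε l : ℕ).choose (δ l) : ℂ) * Q ε * u ε) *
        (a l + t) ^ ((ε l : ℕ) - (δ l : ℕ)) := by
    intro t
    rw [tr_apply]
    refine Finset.sum_congr rfl fun ε _ => ?_
    rw [← Finset.mul_prod_erase Finset.univ _ (Finset.mem_univ l)]
    have h2 : ∏ x ∈ Finset.univ.erase l, (((ε x : ℕ).choose (δ x) : ℂ) *
        Function.update a l (a l + t) x ^ ((ε x : ℕ) - (δ x : ℕ))) = Q ε := by
      rw [hQ]
      refine Finset.prod_congr rfl fun x hx => ?_
      rw [Function.update_of_ne (Finset.ne_of_mem_erase hx)]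
    rw [h2]
    simp only [Function.update_self]
    ring
  have h3 : HasDerivAt (fun t : ℂ => ∑ ε : Bx c, (((ε l : ℕ).choose (δ l) : ℂ) * Q ε * u ε) *
        (a l + t) ^ ((ε l : ℕ) - (δ l : ℕ)))
      (∑ ε : Bx c, (((ε l : ℕ).choose (δ l) : ℂ) * Q ε * u ε) *
        (((ε l : ℕ) - (δ l : ℕ) : ℕ) * a l ^ ((ε l : ℕ) - (δ l : ℕ) - 1))) 0 := by
    apply HasDerivAt.fun_sum
    intro ε _
    apply HasDerivAt.const_mul
    have h4 : HasDerivAt (fun t : ℂ => a l + t) 1 0 := (hasDerivAt_id 0).const_add (a l)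
    have h5 := h4.fun_pow ((ε l : ℕ) - (δ l : ℕ))
    simpa using h5
  have h6 : (∑ ε : Bx c, (((ε l : ℕ).choose (δ l) : ℂ) * Q ε * u ε) *
        (((ε l : ℕ) - (δ l : ℕ) : ℕ) * a l ^ ((ε l : ℕ) - (δ l : ℕ) - 1))) =
      (if h : (δ l : ℕ) + 1 < c l + 1 then ((δ l : ℕ) + 1 : ℂ) * tr a (bump δ l h) u else 0) := by
    split_ifs with h
    · rw [tr_apply, Finset.mul_sum]
      refine Finset.sum_congr rfl fun ε _ => ?_
      rw [← Finset.mul_prod_erase Finset.univ (fun l_1 => (((ε l_1 : ℕ).choose (bump δ l h l_1) : ℂ) *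
        a l_1 ^ ((ε l_1 : ℕ) - (bump δ l h l_1 : ℕ)))) (Finset.mem_univ l)]
      have h2 : ∏ x ∈ Finset.univ.erase l, (((ε x : ℕ).choose (bump δ l h x) : ℂ) *
          a x ^ ((ε x : ℕ) - (bump δ l h x : ℕ))) = Q ε := by
        rw [hQ]
        refine Finset.prod_congr rfl fun x hx => ?_
        rw [bump_ne δ h (Finset.ne_of_mem_erase hx)]
      rw [h2, bump_same]
      have h7 := Nat.choose_succ_right_eq (ε l : ℕ) (δ l : ℕ)
      have h8 : (((ε l : ℕ).choose ((δ l : ℕ) + 1) : ℂ)) * ((δ l : ℕ) + 1 : ℂ) =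
          ((ε l : ℕ).choose (δ l : ℕ) : ℂ) * (((ε l : ℕ) - (δ l : ℕ) : ℕ) : ℂ) := by
        exact_mod_cast h7
      have h9 : (ε l : ℕ) - (δ l : ℕ) - 1 = (ε l : ℕ) - ((δ l : ℕ) + 1) := by omega
      rw [h9]
      linear_combination (-(Q ε * u ε * a l ^ ((ε l : ℕ) - ((δ l : ℕ) + 1)))) * h8
    · apply Finset.sum_eq_zero
      intro ε _
      have h2 : (ε l : ℕ) - (δ l : ℕ) = 0 := by
        have := (ε l).2
        omega
      rw [h2]
      simp
  rw [← h6]
  refine h3.congr_of_eventuallyEq ?_
  exact Filter.Eventually.of_forall fun t => h1 t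

/-- The number of exponents in the box. -/
def sz (c : Fin n → ℕ) : ℕ := ∏ l, (c l + 1)

lemma sz_pos (c : Fin n → ℕ) : 0 < sz c := Finset.prod_pos fun _ _ => Nat.succ_pos _

lemma card_Bx : Fintype.card (Bx c) = sz c := by
  simp [sz]

/-- An additive injective weight refining the total degree. -/
def wt (γ : Bx c) : ℕ := sz c * dg γ + (finPiFinEquiv γ : ℕ)

lemma th_lt (γ : Bx c) : (finPiFinEquiv γ : ℕ) < sz c := (finPiFinEquiv γ).2

lemma wt_injective : Function.Injective (wt : Bx c → ℕ) := by
  intro γ δ h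
  unfold wt at h
  have h1 := th_lt γ
  have h2 := th_lt δ
  have h3 : (sz c * dg γ + (finPiFinEquiv γ : ℕ)) % sz c =
    (sz c * dg δ + (finPiFinEquiv δ : ℕ)) % sz c := by rw [h]
  rw [Nat.mul_add_mod, Nat.mul_add_mod, Nat.mod_eq_of_lt h1, Nat.mod_eq_of_lt h2] at h3
  exact finPiFinEquiv.injective (Fin.ext h3)

lemma wt_lt_iff (γ : Bx c) (i : ℕ) : wt γ < sz c * i ↔ dg γ < i := by
  unfold wt
  have h1 := th_lt γ
  constructor
  · intro h
    by_contra hcon
    push Not at hcon
    have := Nat.mul_le_mul_left (sz c) hcon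
    omega
  · intro h
    have := Nat.mul_le_mul_left (sz c) (Nat.succ_le_of_lt h)
    rw [Nat.mul_succ] at this
    omega

/-- The weight of the `l`-th unit vector. -/
def wtu (c : Fin n → ℕ) (l : Fin n) : ℕ :=
  sz c + ∏ j : Fin (l : ℕ), (c (Fin.castLE l.is_lt.le j) + 1)

lemma dg_bump (δ : Bx c) (l : Fin n) (h : (δ l : ℕ) + 1 < c l + 1) :
    dg (bump δ l h) = dg δ + 1 := by
  classical
  unfold dg
  rw [← Finset.add_sum_erase Finset.univ (fun x => (bump δ l h x : ℕ)) (Finset.mem_univ l),
    ← Finset.add_sum_erase Finset.univ (fun x => (δ x : ℕ)) (Finset.mem_univ l), bump_same]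
  have h1 : ∑ x ∈ Finset.univ.erase l, (bump δ l h x : ℕ) = ∑ x ∈ Finset.univ.erase l, (δ x : ℕ) :=
    Finset.sum_congr rfl fun x hx => by rw [bump_ne δ h (Finset.ne_of_mem_erase hx)]
  rw [h1]
  ring

lemma wt_bump (δ : Bx c) (l : Fin n) (h : (δ l : ℕ) + 1 < c l + 1) :
    wt (bump δ l h) = wt δ + wtu c l := by
  classical
  unfold wt wtu
  rw [dg_bump, finPiFinEquiv_apply, finPiFinEquiv_apply,
    ← Finset.add_sum_erase Finset.univ (fun i => (bump δ l h i : ℕ) *
      ∏ j, (c (Fin.castLE i.is_lt.le j) + 1)) (Finset.mem_univ l),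
    ← Finset.add_sum_erase Finset.univ (fun i => (δ i : ℕ) *
      ∏ j, (c (Fin.castLE i.is_lt.le j) + 1)) (Finset.mem_univ l), bump_same]
  have h1 : ∑ i ∈ Finset.univ.erase l, (bump δ l h i : ℕ) *
      ∏ j, (c (Fin.castLE i.is_lt.le j) + 1) = ∑ i ∈ Finset.univ.erase l, (δ i : ℕ) *
      ∏ j, (c (Fin.castLE i.is_lt.le j) + 1) :=
    Finset.sum_congr rfl fun x hx => by rw [bump_ne δ h (Finset.ne_of_mem_erase hx)]
  rw [h1]
  ring

/-- The kernel of all the functionals of weight `< N`. -/
def KN (a : Fin n → ℂ) (N : ℕ) : Submodule ℂ (Bx c → ℂ) where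
  carrier := {v | ∀ δ : Bx c, wt δ < N → tr a δ v = 0}
  add_mem' := fun hv hw δ hδ => by rw [map_add, hv δ hδ, hw δ hδ, add_zero]
  zero_mem' := fun δ _ => map_zero _
  smul_mem' := fun r v hv δ hδ => by rw [map_smul, hv δ hδ, smul_zero]

lemma mem_KN {a : Fin n → ℂ} {N : ℕ} {v : Bx c → ℂ} :
    v ∈ KN a N ↔ ∀ δ : Bx c, wt δ < N → tr a δ v = 0 := Iff.rfl

/-- The map given by the functionals of weight `< N`. -/
noncomputable def AN (a : Fin n → ℂ) (N : ℕ) : (Bx c → ℂ) →ₗ[ℂ] (Bx c → ℂ) :=
  LinearMap.pi fun δ => if wt δ < N then tr a δ else 0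

lemma AN_apply (a : Fin n → ℂ) (N : ℕ) (v : Bx c → ℂ) (δ : Bx c) :
    AN a N v δ = if wt δ < N then tr a δ v else 0 := by
  unfold AN
  rw [LinearMap.pi_apply]
  split_ifs <;> rfl

lemma ker_AN (a : Fin n → ℂ) (N : ℕ) : LinearMap.ker (AN (c := c) a N) = KN a N := by
  ext v
  rw [LinearMap.mem_ker, mem_KN]
  constructor
  · intro h δ hδ
    have h1 := congrFun h δ
    rw [AN_apply, if_pos hδ] at h1
    exact h1
  · intro h
    funext δ
    rw [AN_apply]
    split_ifs with hδ
    · exact h δ hδ
    · rfl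

open Classical in
/-- The set of initial exponents of the translate of `U`. -/
noncomputable def Lam (U : Submodule ℂ (Bx c → ℂ)) (a : Fin n → ℂ) : Finset (Bx c) :=
  {γ | ∃ v ∈ U, (∀ δ : Bx c, wt δ < wt γ → tr a δ v = 0) ∧ tr a γ v ≠ 0}

lemma mem_Lam {U : Submodule ℂ (Bx c → ℂ)} {a : Fin n → ℂ} {γ : Bx c} :
    γ ∈ Lam U a ↔ ∃ v ∈ U, (∀ δ : Bx c, wt δ < wt γ → tr a δ v = 0) ∧ tr a γ v ≠ 0 := by
  simp [Lam]

lemma finrank_inf_ker {V : Type*} [AddCommGroup V] [Module ℂ V] [FiniteDimensional ℂ V]
    (W : Submodule ℂ V) (φ : V →ₗ[ℂ] ℂ) (h : ∃ v ∈ W, φ v ≠ 0) :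
    finrank ℂ (W ⊓ LinearMap.ker φ : Submodule ℂ V) + 1 = finrank ℂ W := by
  have h1 := finrank_eq_map_add W φ
  have h2 : finrank ℂ (W.map φ) = 1 := by
    have h3 : W.map φ = ⊤ := by
      rw [eq_top_iff]
      intro x _
      obtain ⟨v, hv, hφ⟩ := h
      refine ⟨(x / φ v) • v, W.smul_mem _ hv, ?_⟩
      rw [map_smul, smul_eq_mul, div_mul_cancel₀ _ hφ]
    rw [h3, finrank_top]
    exact Module.finrank_self ℂ
  omega

lemma card_Lam_lt (U : Submodule ℂ (Bx c → ℂ)) (a : Fin n → ℂ) (N : ℕ) :
    ((Lam U a).filter (fun γ => wt γ < N)).card + finrank ℂ (U ⊓ KN a N : Submodule ℂ _) =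
      finrank ℂ U := by
  classical
  induction N with
  | zero =>
    have h1 : (KN a 0 : Submodule ℂ (Bx c → ℂ)) = ⊤ := by
      rw [eq_top_iff]
      intro v _ δ hδ
      exact absurd hδ (Nat.not_lt_zero _)
    rw [h1, inf_top_eq]
    simp
  | succ N ih =>
    by_cases hN : ∃ γ : Bx c, wt γ = N
    · obtain ⟨γ, hγ⟩ := hN
      have h1 : (KN a (N + 1) : Submodule ℂ (Bx c → ℂ)) = KN a N ⊓ LinearMap.ker (tr a γ) := by
        ext v
        rw [Submodule.mem_inf, LinearMap.mem_ker, mem_KN, mem_KN]
        constructor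
        · intro h
          exact ⟨fun δ hδ => h δ (by omega), h γ (by omega)⟩
        · rintro ⟨h1, h2⟩ δ hδ
          rcases Nat.lt_or_ge (wt δ) N with h3 | h3
          · exact h1 δ h3
          · have h4 : δ = γ := wt_injective (by omega)
            rw [h4]
            exact h2
      rw [h1, ← inf_assoc]
      by_cases hmem : γ ∈ Lam U a
      · have h2 : (Lam U a).filter (fun γ => wt γ < N + 1) =
            insert γ ((Lam U a).filter (fun γ => wt γ < N)) := by
          ext δ
          rw [Finset.mem_filter, Finset.mem_insert, Finset.mem_filter]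
          constructor
          · rintro ⟨h3, h4⟩
            rcases Nat.lt_or_ge (wt δ) N with h5 | h5
            · exact Or.inr ⟨h3, h5⟩
            · exact Or.inl (wt_injective (by omega))
          · rintro (rfl | ⟨h3, h4⟩)
            · exact ⟨hmem, by omega⟩
            · exact ⟨h3, by omega⟩
        rw [h2, Finset.card_insert_of_notMem (by
          rw [Finset.mem_filter]
          rintro ⟨_, h3⟩
          omega)]
        have h3 : finrank ℂ (U ⊓ KN a N ⊓ LinearMap.ker (tr a γ) : Submodule ℂ _) + 1 =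
            finrank ℂ (U ⊓ KN a N : Submodule ℂ (Bx c → ℂ)) := by
          apply finrank_inf_ker
          obtain ⟨v, hv, h4, h5⟩ := mem_Lam.1 hmem
          rw [hγ] at h4
          exact ⟨v, ⟨hv, h4⟩, h5⟩
        omega
      · have h2 : (Lam U a).filter (fun γ => wt γ < N + 1) =
            (Lam U a).filter (fun γ => wt γ < N) := by
          ext δ
          rw [Finset.mem_filter, Finset.mem_filter]
          constructor
          · rintro ⟨h3, h4⟩
            refine ⟨h3, ?_⟩
            rcases Nat.lt_or_ge (wt δ) N with h5 | h5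
            · exact h5
            · have h6 : δ = γ := wt_injective (by omega)
              rw [h6] at h3
              exact absurd h3 hmem
          · rintro ⟨h3, h4⟩
            exact ⟨h3, by omega⟩
        have h3 : U ⊓ KN a N ⊓ LinearMap.ker (tr a γ) = U ⊓ KN a N := by
          apply inf_eq_left.2
          rintro v ⟨hv, h4⟩
          rw [LinearMap.mem_ker]
          by_contra hcon
          apply hmem
          rw [mem_Lam, hγ]
          exact ⟨v, hv, h4, hcon⟩
        rw [h2, h3, ih]
    · push Not at hN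
      have h1 : (KN a (N + 1) : Submodule ℂ (Bx c → ℂ)) = KN a N := by
        ext v
        rw [mem_KN, mem_KN]
        constructor
        · intro h δ hδ
          exact h δ (by omega)
        · intro h δ hδ
          have := hN δ
          exact h δ (by omega)
      have h2 : (Lam U a).filter (fun γ => wt γ < N + 1) =
            (Lam U a).filter (fun γ => wt γ < N) := by
        ext δ
        rw [Finset.mem_filter, Finset.mem_filter]
        have := hN δ
        constructor
        · rintro ⟨h3, h4⟩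
          exact ⟨h3, by omega⟩
        · rintro ⟨h3, h4⟩
          exact ⟨h3, by omega⟩
      rw [h1, h2, ih]

lemma card_Lam (U : Submodule ℂ (Bx c → ℂ)) (a : Fin n → ℂ) :
    (Lam U a).card = finrank ℂ U := by
  classical
  have h1 := card_Lam_lt U a ((Finset.univ.sup (wt : Bx c → ℕ)) + 1)
  have h2 : ∀ γ : Bx c, wt γ < (Finset.univ.sup (wt : Bx c → ℕ)) + 1 := fun γ =>
    Nat.lt_succ_of_le (Finset.le_sup (f := wt) (Finset.mem_univ γ))
  have h3 : (Lam U a).filter (fun γ => wt γ < (Finset.univ.sup (wt : Bx c → ℕ)) + 1) = Lam U a :=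
    Finset.filter_true_of_mem fun γ _ => h2 γ
  have h4 : (KN a ((Finset.univ.sup (wt : Bx c → ℕ)) + 1) : Submodule ℂ (Bx c → ℂ)) = ⊥ := by
    rw [eq_bot_iff]
    intro v hv
    rw [Submodule.mem_bot]
    exact tr_eq_zero_of_forall a v fun γ => hv γ (h2 γ)
  rw [h3, h4, inf_bot_eq, finrank_bot] at h1
  exact h1

/-- If the ranks of the weight truncations on `U` are locally constant at `a`, the set of initial
exponents is a lower set. -/
lemma isLowerSet_Lam (U : Submodule ℂ (Bx c → ℂ)) (a : Fin n → ℂ)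
    (hrank : ∀ γ : Bx c, ∀ᶠ x in 𝓝 a,
      finrank ℂ (U.map (AN x (wt γ + 1))) = finrank ℂ (U.map (AN a (wt γ + 1)))) :
    IsLowerSet (Lam U a : Set (Bx c)) := by
  classical
  -- one step down
  have hstep : ∀ (γ' : Bx c) (l : Fin n) (h : (γ' l : ℕ) + 1 < c l + 1),
      bump γ' l h ∈ Lam U a → γ' ∈ Lam U a := by
    intro γ' l h hmem
    obtain ⟨v, hv, h1, h2⟩ := mem_Lam.1 hmem
    -- the curve of maps
    have hcurve : Continuous (fun t : ℂ => Function.update a l (a l + t)) := by
      apply Continuous.update continuous_const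
      exact continuous_const.add continuous_id
    have h0 : Function.update a l (a l + (0 : ℂ)) = a := by simp
    have htan := tangent U (fun t : ℂ => AN (Function.update a l (a l + t)) (wt γ' + 1))
      (fun u => by
        apply Continuous.continuousAt
        apply continuous_pi
        intro δ
        simp only [AN_apply]
        split_ifs
        · exact (continuous_tr δ u).comp hcurve
        · exact continuous_const)
      (by
        have h3 : Tendsto (fun t : ℂ => Function.update a l (a l + t)) (𝓝 0) (𝓝 a) := by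
          have := hcurve.tendsto 0
          rwa [h0] at this
        filter_upwards [h3.eventually (hrank γ')] with t ht
        rw [h0, ht]) hv
      (by
        rw [h0]
        funext δ
        rw [AN_apply]
        split_ifs with hδ
        · apply h1
          rw [wt_bump]
          have : 0 < wtu c l := by
            unfold wtu
            have := sz_pos c
            omega
          omega
        · rfl)
      (v' := fun δ => if wt δ < wt γ' + 1 then
        (if h : (δ l : ℕ) + 1 < c l + 1 then ((δ l : ℕ) + 1 : ℂ) * tr a (bump δ l h) v else 0)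
        else 0)
      (by
        rw [hasDerivAt_pi]
        intro δ
        simp only [AN_apply]
        split_ifs with hδ hδ2
        · have := hasDerivAt_tr a l δ v
          rw [dif_pos hδ2] at this
          exact this
        · have := hasDerivAt_tr a l δ v
          rw [dif_neg hδ2] at this
          exact this
        · exact hasDerivAt_const _ _)
    rw [h0] at htan
    obtain ⟨w, hw, hweq⟩ := htan
    rw [mem_Lam]
    refine ⟨w, hw, fun δ hδ => ?_, ?_⟩
    · have h3 := congrFun hweq δ
      rw [AN_apply, if_pos (by omega)] at h3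
      rw [h3, if_pos (by omega)]
      split_ifs with h4
      · rw [h1 _ (by rw [wt_bump, wt_bump]; omega), mul_zero]
      · rfl
    · have h3 := congrFun hweq γ'
      rw [AN_apply, if_pos (by omega)] at h3
      rw [h3, if_pos (by omega), dif_pos h]
      apply mul_ne_zero _ h2
      exact_mod_cast Nat.succ_ne_zero (γ' l : ℕ)
  -- general case by induction on the total degree of the difference
  intro γ γ' hle hmem
  have key : ∀ N : ℕ, ∀ δ : Bx c, δ ≤ γ → dg γ - dg δ = N → δ ∈ Lam U a := by
    intro N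
    induction N with
    | zero =>
      intro δ hδ hN
      have : δ = γ := by
        by_contra hne
        have hlt : dg δ < dg γ := by
          unfold dg
          apply Finset.sum_lt_sum (fun l _ => hδ l)
          by_contra hcon
          push Not at hcon
          apply hne
          funext l
          exact le_antisymm (hδ l) (Fin.le_def.2 (hcon l (Finset.mem_univ _)))
        omega
      rw [this]
      exact hmem
    | succ N ih =>
      intro δ hδ hN
      have hex : ∃ l, (δ l : ℕ) < γ l := by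
        by_contra hcon
        push Not at hcon
        have : dg γ ≤ dg δ := Finset.sum_le_sum fun l _ => hcon l
        omega
      obtain ⟨l, hl⟩ := hex
      have hb : (δ l : ℕ) + 1 < c l + 1 := lt_of_le_of_lt hl (γ l).2
      apply hstep δ l hb
      apply ih
      · intro l'
        by_cases hl' : l' = l
        · subst hl'
          rw [Fin.le_def, bump_same]
          exact hl
        · rw [bump_ne δ hb hl']
          exact hδ l'
      · rw [dg_bump]
        omega
  exact key _ γ' hle rfl

/-- The subspace of the vectors all whose translated coefficients of degree `< i` vanish. -/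
def Wi (a : Fin n → ℂ) (i : ℕ) : Submodule ℂ (Bx c → ℂ) where
  carrier := {v | ∀ δ : Bx c, dg δ < i → tr a δ v = 0}
  add_mem' := fun hv hw δ hδ => by rw [map_add, hv δ hδ, hw δ hδ, add_zero]
  zero_mem' := fun δ _ => map_zero _
  smul_mem' := fun r v hv δ hδ => by rw [map_smul, hv δ hδ, smul_zero]

lemma mem_Wi {a : Fin n → ℂ} {i : ℕ} {v : Bx c → ℂ} :
    v ∈ Wi a i ↔ ∀ δ : Bx c, dg δ < i → tr a δ v = 0 := Iff.rfl

lemma Wi_eq_KN (a : Fin n → ℂ) (i : ℕ) : (Wi a i : Submodule ℂ (Bx c → ℂ)) = KN a (sz c * i) := by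
  ext v
  rw [mem_Wi, mem_KN]
  constructor
  · intro h δ hδ
    exact h δ ((wt_lt_iff δ i).1 hδ)
  · intro h δ hδ
    exact h δ ((wt_lt_iff δ i).2 hδ)

/-- The number of exponents of degree `< i` in the box. -/
def hP (c : Fin n → ℕ) (i : ℕ) : ℕ := ((Finset.univ : Finset (Bx c)).filter (fun γ => dg γ < i)).card

/-- **Generic translates**: for finitely many subspaces `U`, there is `a` such that for all `i`
the proportion of `U` cut by the translated coefficients of degree `< i` is at least the
proportion of the exponents of degree `< i`. -/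
theorem exists_generic {I : Type*} [Fintype I] (U : I → Submodule ℂ (Bx c → ℂ)) :
    ∃ a : Fin n → ℂ, ∀ (j : I) (i : ℕ), finrank ℂ (U j) * hP c i +
      sz c * finrank ℂ (U j ⊓ Wi a i : Submodule ℂ (Bx c → ℂ)) ≤ sz c * finrank ℂ (U j) := by
  classical
  obtain ⟨a, ha⟩ := exists_locally_constant (X := Fin n → ℂ) (I := I × Bx c)
    (fun x a => finrank ℂ ((U x.1).map (AN a (wt x.2 + 1)))) (finrank ℂ (Bx c → ℂ))
    (fun x a => Submodule.finrank_le _)
    (fun x a => rank_lsc (U x.1) (fun a => AN a (wt x.2 + 1)) a (fun u => by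
      apply Continuous.continuousAt
      apply continuous_pi
      intro δ
      simp only [AN_apply]
      split_ifs
      · exact continuous_tr δ u
      · exact continuous_const))
  refine ⟨a, fun j i => ?_⟩
  have hlow := isLowerSet_Lam (U j) a (fun γ => ha (j, γ))
  have h1 := card_Lam_lt (U j) a (sz c * i)
  rw [← Wi_eq_KN] at h1
  have h2 : (Lam (U j) a).filter (fun γ => wt γ < sz c * i) =
      Lam (U j) a ∩ (Finset.univ : Finset (Bx c)).filter (fun γ => dg γ < i) := by
    ext γ
    simp only [Finset.mem_filter, Finset.mem_inter, Finset.mem_univ, true_and, wt_lt_iff]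
  have h3 := harris (Lam (U j) a) ((Finset.univ : Finset (Bx c)).filter (fun γ => dg γ < i)) hlow
    (by
      intro γ δ hle hγ
      simp only [Finset.coe_filter, Finset.mem_univ, true_and, Set.mem_setOf_eq] at hγ ⊢
      exact lt_of_le_of_lt (Finset.sum_le_sum fun l _ => hle l) hγ)
  rw [card_Lam, card_Bx, ← h2] at h3
  have h4 : finrank ℂ (U j) * hP c i ≤
      ((Lam (U j) a).filter (fun γ => wt γ < sz c * i)).card * sz c := h3
  calc finrank ℂ (U j) * hP c i + sz c * finrank ℂ (U j ⊓ Wi a i : Submodule ℂ (Bx c → ℂ))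
      ≤ ((Lam (U j) a).filter (fun γ => wt γ < sz c * i)).card * sz c +
        sz c * finrank ℂ (U j ⊓ Wi a i : Submodule ℂ (Bx c → ℂ)) := Nat.add_le_add_right h4 _
    _ = sz c * (((Lam (U j) a).filter (fun γ => wt γ < sz c * i)).card +
        finrank ℂ (U j ⊓ Wi a i : Submodule ℂ (Bx c → ℂ))) := by ring
    _ = sz c * finrank ℂ (U j) := by rw [h1]

end Translate

end Pool.Agent.H49.PW
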