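import Pool.Agent.H49.Pencil.Model

/-!
# The induction on the number of points
-/

namespace Pool.Agent.H49.PW

open Module Polynomial

variable {n : ℕ} {c : Fin n → ℕ}

/-- The sum of the degrees of the exponents of the box. -/
def sg (c : Fin n → ℕ) : ℕ := ∑ γ : Bx c, dg γ

lemma dg_le (γ : Bx c) : dg γ ≤ ∑ l, c l :=
  Finset.sum_le_sum fun l _ => Nat.lt_succ_iff.1 (γ l).2

/-- The opposite exponent. -/
def opp (γ : Bx c) : Bx c := fun l => Fin.rev (γ l)

lemma opp_opp (γ : Bx c) : opp (opp γ) = γ := by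
  funext l
  simp [opp]

lemma dg_opp (γ : Bx c) : dg γ + dg (opp γ) = ∑ l, c l := by
  unfold dg
  rw [← Finset.sum_add_distrib]
  refine Finset.sum_congr rfl fun l _ => ?_
  have h1 := (γ l).2
  simp only [opp, Fin.val_rev]
  omega

lemma two_sg : 2 * sg c = sz c * ∑ l, c l := by
  have h1 : ∑ γ : Bx c, dg (opp γ) = sg c := by
    unfold sg
    refine Fintype.sum_equiv ⟨opp, opp, opp_opp, opp_opp⟩ _ _ fun γ => rfl
  have h2 : ∑ γ : Bx c, (dg γ + dg (opp γ)) = sz c * ∑ l, c l := by
    simp only [dg_opp]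
    rw [Finset.sum_const, Finset.card_univ, card_Bx, smul_eq_mul]
  rw [Finset.sum_add_distrib, h1] at h2
  change sg c + sg c = _ at h2
  omega

lemma len_add_sg {m : ℕ} (hm : ∑ l, c l ≤ m) : len c m + sg c = sz c * m := by
  unfold len sg
  rw [← Finset.sum_add_distrib]
  rw [Finset.sum_congr rfl (fun γ _ => Nat.sub_add_cancel ((dg_le γ).trans hm)), Finset.sum_const,
    Finset.card_univ, card_Bx, smul_eq_mul]

lemma len_mono {m m' : ℕ} (h : m ≤ m') : len c m ≤ len c m' :=
  Finset.sum_le_sum fun γ _ => Nat.sub_le_sub_right h _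

lemma len_le_sg {m : ℕ} (h : m ≤ ∑ l, c l) : len c m ≤ sg c := by
  have h1 := len_add_sg (c := c) (le_refl (∑ l, c l))
  have h2 := two_sg (c := c)
  have h3 := len_mono (c := c) h
  omega

lemma exists_notin (L : List (Pt n)) : ∃ s : ℂ, ∀ x ∈ L, x.s ≠ s := by
  classical
  obtain ⟨s, hs⟩ := Infinite.exists_notMem_finset ((L.map (·.s)).toFinset)
  refine ⟨s, fun x hx h => hs ?_⟩
  rw [List.mem_toFinset, List.mem_map]
  exact ⟨x, hx, h⟩

lemma w_conv (L : List (Pt n)) (D : ℕ) :
    (w c L (D + 1) : ℤ) - w c L D ≤ w c L (D + 2) - w c L (D + 1) := by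
  obtain ⟨s, hs⟩ := exists_notin L
  have h1 := w_succ (c := c) hs D
  have h2 := w_succ (c := c) hs (D + 1)
  have h3 : finrank ℂ (Us c L s (D + 1)) ≤ finrank ℂ (Us c L s (D + 2)) :=
    Submodule.finrank_mono (Submodule.map_mono (V_succ L (D + 1)))
  have h4 : D + 1 + 1 = D + 2 := rfl
  rw [h4] at h2
  omega

lemma w_nil_of_le {D : ℕ} (hD : ∑ l, c l ≤ D) : (w c [] D : ℤ) = sz c * D - sg c := by
  have h1 := finrank_V_nil (c := c) D
  have h2 := len_add_sg (c := c) hD
  unfold len at h2
  unfold w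
  rw [h1]
  have h3 : ((∑ γ : Bx c, (D - dg γ) : ℕ) : ℤ) + sg c = sz c * D := by exact_mod_cast h2
  linarith

lemma prof_nil : Prof (sz c : ℤ) (sz c * sg c) (sg c) (fun D => (w c [] D : ℤ)) := by
  have hR : (1 : ℤ) ≤ sz c := by exact_mod_cast sz_pos c
  have hs : (0 : ℤ) ≤ sg c := by positivity
  refine ⟨by simp [w_zero], fun D => by positivity, fun D => w_conv [] D,
    ⟨∑ l, c l, fun D hD => w_nil_of_le hD⟩, fun f hf0 hfR => ?_⟩
  rcases eq_or_lt_of_le hfR with h | h
  · refine ⟨∑ l, c l, ?_⟩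
    rw [w_nil_of_le le_rfl, h]
    apply le_of_eq
    ring
  · refine ⟨0, ?_⟩
    simp only [w_zero]
    have h1 : f * (sg c : ℤ) ≤ sz c * sg c * (f * (sz c - f)) := by
      have h2 : 0 ≤ f * (sg c : ℤ) := mul_nonneg hf0 hs
      have h3 : (1 : ℤ) ≤ sz c * (sz c - f) := by nlinarith
      calc f * (sg c : ℤ) = f * (sg c : ℤ) * 1 := by ring
        _ ≤ f * (sg c : ℤ) * (sz c * (sz c - f)) := mul_le_mul_of_nonneg_left h3 h2
        _ = _ := by ring
    simpa using h1

lemma w_cons_high {L : List (Pt n)} {s : ℂ} (hs : ∀ x ∈ L, x.s ≠ s) (a : Fin n → ℂ) {m : ℕ}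
    (hm : ∑ l, c l ≤ m) (D : ℕ) :
    w c (⟨s, a, m + 1⟩ :: L) (D + 1) = w c (⟨s, a, m⟩ :: L) D := by
  rw [w_cons_succ hs]
  have h1 : (V c (⟨s, a, m + 1⟩ :: L) (D + 1)).map (ev c s) = ⊥ := by
    rw [eq_bot_iff]
    refine (map_ev_le L s a (m + 1) (D + 1)).trans ?_
    rintro v ⟨_, hv⟩
    rw [Submodule.mem_bot]
    exact tr_eq_zero_of_forall a v fun γ => hv γ (by have := dg_le γ; omega)
  rw [h1, finrank_bot, zero_add]

lemma w_cons_high_add {L : List (Pt n)} {s : ℂ} (hs : ∀ x ∈ L, x.s ≠ s) (a : Fin n → ℂ) (D : ℕ)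
    (e : ℕ) :
    w c (⟨s, a, (∑ l, c l) + e⟩ :: L) (D + e) = w c (⟨s, a, ∑ l, c l⟩ :: L) D := by
  induction e with
  | zero => simp
  | succ e ih =>
    rw [← add_assoc, ← add_assoc, w_cons_high hs a (by omega), ih]

lemma w_cons_high_zero {L : List (Pt n)} {s : ℂ} (hs : ∀ x ∈ L, x.s ≠ s) (a : Fin n → ℂ) (D : ℕ)
    (e : ℕ) (hD : D ≤ e) : w c (⟨s, a, (∑ l, c l) + e⟩ :: L) D = 0 := by
  induction e generalizing D with
  | zero =>
    obtain rfl : D = 0 := by omega
    exact w_zero _
  | succ e ih =>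
    rcases Nat.eq_zero_or_pos D with rfl | h
    · exact w_zero _
    · obtain ⟨D, rfl⟩ : ∃ D', D = D' + 1 := ⟨D - 1, by omega⟩
      rw [← add_assoc, w_cons_high hs a (by omega)]
      exact ih D (by omega)

/-- **The existence of good configurations.** -/
theorem exists_config (c : Fin n → ℕ) (ms : List ℕ) : ∃ L : List (Pt n), L.map (·.m) = ms ∧
    (L.map (·.s)).Nodup ∧
    Prof (sz c : ℤ) (sz c * sg c) ((sg c : ℤ) + (ms.map (len c)).sum)
      (fun D => (w c L D : ℤ)) := by
  have hR : (1 : ℤ) ≤ sz c := by exact_mod_cast sz_pos c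
  induction ms with
  | nil =>
    refine ⟨[], rfl, by simp, ?_⟩
    simpa using prof_nil (c := c)
  | cons m ms ih =>
    obtain ⟨L, hL1, hL2, hL3⟩ := ih
    obtain ⟨s, hs⟩ := exists_notin L
    obtain ⟨a, ha⟩ := exists_generic_point (c := c) L s
    refine ⟨⟨s, a, m⟩ :: L, by simp [hL1], ?_, ?_⟩
    · rw [List.map_cons, List.nodup_cons]
      refine ⟨?_, hL2⟩
      rw [List.mem_map]
      rintro ⟨x, hx, hxs⟩
      exact hs x hx hxs
    · -- the step for a small multiplicity
      have hsmall : ∀ m₀ : ℕ, m₀ ≤ ∑ l, c l →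
          Prof (sz c : ℤ) (sz c * sg c) ((sg c : ℤ) + (ms.map (len c)).sum + len c m₀)
            (fun D => (w c (⟨s, a, m₀⟩ :: L) D : ℤ)) := by
        intro m₀ hm₀
        have hineq := slope_ineq hs a ha m₀
        have hstep : ∀ (f : ℤ) (D : ℕ), 0 ≤ f → m₀ ≤ D →
            (∀ t, t < m₀ → f ≤ (w c L (D - t) : ℤ) - w c L (D - 1 - t)) →
            (sz c : ℤ) * w c (⟨s, a, m₀⟩ :: L) D + f * len c m₀ ≤ sz c * w c L D := by
          intro f D hf hD h
          obtain ⟨f, rfl⟩ := Int.eq_ofNat_of_zero_le hf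
          have h1 := hineq D f hD (fun t ht => by
            have h2 := h t ht
            have h3 := w_succ (c := c) hs (D - 1 - t)
            rw [show D - 1 - t + 1 = D - t by omega] at h3
            omega)
          exact_mod_cast h1
        obtain ⟨E, hE⟩ := hL3.ev
        refine hL3.step (m := m₀) (by linarith) (by simp [w_zero]) (fun D => by positivity)
          (fun D => w_conv _ D) ⟨E + m₀, fun D hD => ?_⟩ (fun D => ?_) hstep (fun f hf0 hf => ?_)
        · -- large degrees
          have h1 := hstep (sz c) D (by positivity) (by omega) (fun t ht => by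
            rw [hE (D - t) (by omega), hE (D - 1 - t) (by omega)]
            have h2 : ((D - t : ℕ) : ℤ) = ((D - 1 - t : ℕ) : ℤ) + 1 := by
              have : D - t = (D - 1 - t) + 1 := by omega
              rw [this]
              push_cast
              ring
            rw [h2]
            apply le_of_eq
            ring)
          have h2 := w_le_add_len (c := c) L ⟨s, a, m₀⟩ D
          have h2' : (w c L D : ℤ) ≤ w c (⟨s, a, m₀⟩ :: L) D + len c m₀ := by exact_mod_cast h2
          have h3 : (w c (⟨s, a, m₀⟩ :: L) D : ℤ) + len c m₀ ≤ w c L D := by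
            have h4 : (sz c : ℤ) * (w c (⟨s, a, m₀⟩ :: L) D + len c m₀) ≤ sz c * w c L D := by
              linarith
            exact le_of_mul_le_mul_left h4 (by linarith)
          have h5 := hE D (by omega)
          linarith
        · exact_mod_cast Submodule.finrank_mono (V_cons_le (c := c) ⟨s, a, m₀⟩ L D)
        · have h1 : (len c m₀ : ℤ) ≤ sg c := by exact_mod_cast len_le_sg hm₀
          have h2 : 2 * (sg c : ℤ) = sz c * (∑ l, c l : ℕ) := by exact_mod_cast two_sg (c := c)
          have h3 : (m₀ : ℤ) ≤ (∑ l, c l : ℕ) := by exact_mod_cast hm₀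
          have h4 : f * (len c m₀ : ℤ) ≤ (sz c - 1) * sg c := by
            calc f * (len c m₀ : ℤ) ≤ f * sg c := mul_le_mul_of_nonneg_left h1 hf0
              _ ≤ (sz c - 1) * sg c := mul_le_mul_of_nonneg_right hf (by positivity)
          have h5 : (sz c : ℤ) * (m₀ - 1) ≤ sz c * ((∑ l, c l : ℕ) - 1) :=
            mul_le_mul_of_nonneg_left (by linarith) (by linarith)
          have h6 : (sz c : ℤ) * ((∑ l, c l : ℕ) - 1) = 2 * sg c - sz c := by
            rw [h2]
            ring
          nlinarith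
      rcases Nat.le_total m (∑ l, c l) with hm | hm
      · have h1 := hsmall m hm
        rw [List.map_cons, List.sum_cons]
        have h2 : ((sg c : ℤ) + (ms.map (len c)).sum + len c m) =
            (sg c : ℤ) + ((len c m + (ms.map (len c)).sum : ℕ) : ℤ) := by
          push_cast
          ring
        rw [← h2]
        exact h1
      · obtain ⟨e, rfl⟩ := Nat.exists_eq_add_of_le hm
        have h1 := (hsmall _ le_rfl).shift (w' := fun D =>
          (w c (⟨s, a, (∑ l, c l) + e⟩ :: L) D : ℤ)) (e := e)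
          (fun D => by
            rw [w_cons_high_add hs])
          (fun D hD => by
            rw [w_cons_high_zero hs a D e hD]
            rfl)
        have h3 : (len c ((∑ l, c l) + e) : ℤ) = len c (∑ l, c l) + sz c * e := by
          have h4 := len_add_sg (c := c) (show ∑ l, c l ≤ (∑ l, c l) + e by omega)
          have h5 := len_add_sg (c := c) (le_refl (∑ l, c l))
          have h4' : (len c ((∑ l, c l) + e) : ℤ) + sg c = sz c * ((∑ l, c l : ℕ) + e) := by
            exact_mod_cast h4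
          have h5' : (len c (∑ l, c l) : ℤ) + sg c = sz c * (∑ l, c l : ℕ) := by
            exact_mod_cast h5
          linarith
        rw [List.map_cons, List.sum_cons]
        have h2 : ((sg c : ℤ) + (ms.map (len c)).sum + len c (∑ l, c l) + sz c * e) =
            (sg c : ℤ) + ((len c ((∑ l, c l) + e) + (ms.map (len c)).sum : ℕ) : ℤ) := by
          push_cast at h3 ⊢
          linarith
        rw [← h2]
        exact h1

/-- The value of the dimension outside the window. -/
theorem exists_config_dim (c : Fin n → ℕ) (ms : List ℕ) (d : ℕ)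
    (h : (2 * (∑ γ : Bx c, (d + 1 - dg γ)) + sz c ^ 2 * (sz c - 1) * (∑ l, c l) ≤
        2 * (ms.map (len c)).sum) ∨
      (2 * (ms.map (len c)).sum + sz c ^ 2 * (sz c - 1) * (∑ l, c l) ≤
        2 * (∑ γ : Bx c, (d + 1 - dg γ)))) :
    ∃ L : List (Pt n), L.map (·.m) = ms ∧ (L.map (·.s)).Nodup ∧
      w c L (d + 1) = (∑ γ : Bx c, (d + 1 - dg γ)) - (ms.map (len c)).sum := by
  have hR : (1 : ℤ) ≤ sz c := by exact_mod_cast sz_pos c
  obtain ⟨L, hL1, hL2, hL3⟩ := exists_config c ms
  refine ⟨L, hL1, hL2, ?_⟩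
  have h2sg : 2 * (sg c : ℤ) = sz c * (∑ l, c l : ℕ) := by exact_mod_cast two_sg (c := c)
  set N := ∑ γ : Bx c, (d + 1 - dg γ) with hN
  set Λ := (ms.map (len c)).sum with hΛ
  -- `N ≥ R (d + 1) - σ`
  have hNge : (sz c : ℤ) * (d + 1) - sg c ≤ N := by
    have h1 : sz c * (d + 1) ≤ N + sg c := by
      rw [hN]
      unfold sg
      rw [← Finset.sum_add_distrib]
      calc sz c * (d + 1) = ∑ _γ : Bx c, (d + 1) := by
            rw [Finset.sum_const, Finset.card_univ, card_Bx, smul_eq_mul]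
        _ ≤ ∑ γ : Bx c, (d + 1 - dg γ + dg γ) := Finset.sum_le_sum fun γ _ => by omega
    have h1' : (sz c : ℤ) * (d + 1) ≤ N + sg c := by exact_mod_cast h1
    linarith
  have hsub : ((sz c - 1 : ℕ) : ℤ) = sz c - 1 := by
    have := sz_pos c
    push_cast [this]
    ring
  rcases h with h | h
  · -- negative side
    have h' : 2 * (N : ℤ) + sz c ^ 2 * (sz c - 1) * (∑ l, c l : ℕ) ≤ 2 * Λ := by
      rw [← hsub]
      exact_mod_cast h
    have h1 : (sz c : ℤ) * ((d + 1 : ℕ) : ℤ) + sz c * sg c * (sz c - 1) ≤ sg c + Λ := by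
      push_cast
      have h2 : (sz c : ℤ) ^ 2 * (sz c - 1) * (∑ l, c l : ℕ) = 2 * (sz c * sg c * (sz c - 1)) := by
        have : (sz c : ℤ) ^ 2 * (sz c - 1) * (∑ l, c l : ℕ) =
          sz c * (sz c - 1) * (sz c * (∑ l, c l : ℕ)) := by ring
        rw [this, ← h2sg]
        ring
      rw [h2] at h'
      linarith
    have h2 := hL3.eq_zero_of_le hR h1
    have h3 : w c L (d + 1) = 0 := by exact_mod_cast h2
    have h4 : N ≤ Λ := by
      have : 2 * N ≤ 2 * Λ := le_trans (Nat.le_add_right _ _) h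
      omega
    rw [h3]
    omega
  · have h' : 2 * (Λ : ℤ) + sz c ^ 2 * (sz c - 1) * (∑ l, c l : ℕ) ≤ 2 * N := by
      rw [← hsub]
      exact_mod_cast h
    have h2 : (sz c : ℤ) ^ 2 * (sz c - 1) * (∑ l, c l : ℕ) = 2 * (sz c * sg c * (sz c - 1)) := by
      have : (sz c : ℤ) ^ 2 * (sz c - 1) * (∑ l, c l : ℕ) =
        sz c * (sz c - 1) * (sz c * (∑ l, c l : ℕ)) := by ring
      rw [this, ← h2sg]
      ring
    -- `C ≤ d + 1`
    have hCd : ∑ l, c l ≤ d + 1 := by
      by_contra hcon
      push Not at hcon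
      have hC : 1 ≤ ∑ l, c l := by omega
      have hN2 : N ≤ sz c * (d + 1) := by
        rw [hN]
        calc ∑ γ : Bx c, (d + 1 - dg γ) ≤ ∑ _γ : Bx c, (d + 1) :=
              Finset.sum_le_sum fun γ _ => Nat.sub_le _ _
          _ = sz c * (d + 1) := by
            rw [Finset.sum_const, Finset.card_univ, card_Bx, smul_eq_mul]
      have hsz2 : 2 ≤ sz c := by
        obtain ⟨l, -, hl⟩ : ∃ l ∈ Finset.univ, c l ≠ 0 := by
          by_contra hcon2
          push Not at hcon2
          have : ∑ l, c l = 0 := Finset.sum_eq_zero hcon2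
          omega
        unfold sz
        calc 2 ≤ c l + 1 := by omega
          _ ≤ ∏ l, (c l + 1) := Finset.single_le_prod' (f := fun l => c l + 1)
            (fun i _ => by simp) (Finset.mem_univ l)
      have h5 : 2 * N < sz c ^ 2 * (sz c - 1) * (∑ l, c l) := by
        calc 2 * N ≤ 2 * (sz c * (d + 1)) := by omega
          _ < 2 * (sz c * (∑ l, c l)) := by
            have := Nat.mul_lt_mul_of_pos_left hcon (by omega : 0 < sz c)
            omega
          _ ≤ sz c * (sz c * (∑ l, c l)) := Nat.mul_le_mul_right _ hsz2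
          _ = sz c ^ 2 * 1 * (∑ l, c l) := by ring
          _ ≤ sz c ^ 2 * (sz c - 1) * (∑ l, c l) := by
            apply Nat.mul_le_mul_right
            apply Nat.mul_le_mul_left
            omega
      omega
    have hNeq : (N : ℤ) = sz c * ((d + 1 : ℕ) : ℤ) - sg c := by
      have h3 := w_nil_of_le (c := c) hCd
      have h4 := finrank_V_nil (c := c) (d + 1)
      rw [← hN] at h4
      unfold w at h3
      rw [h4] at h3
      exact h3
    have h1 : (sg c : ℤ) + Λ + sz c * sg c * (sz c - 1) ≤ (sz c : ℤ) * ((d + 1 : ℕ) : ℤ) := by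
      rw [h2] at h'
      linarith
    have h3 := hL3.eq_of_ge hR h1
    have h4 : (w c L (d + 1) : ℤ) = N - Λ := by linarith
    omega

end Pool.Agent.H49.PW
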