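import Pool.Agent.H49.Pencil.Main
import Pool.Agent.H49.Pencil.Induct

/-!
# The link between forms and the lattice model
-/

namespace Pool.Agent.H49.PW

open MvPolynomial Finset Pool.Agent.H18.Fat Pool.Agent.H49.Pencil

variable {n : ℕ} {c : Fin n → ℕ}

/-- The exponent vector with given entries. -/
noncomputable def emb (a b : ℕ) (γ : Bx c) : Fin (n + 2) →₀ ℕ :=
  Finsupp.equivFunOnFinite.symm (Fin.cons a (Fin.cons b fun l => (γ l : ℕ)))

lemma emb_zero (a b : ℕ) (γ : Bx c) : emb a b γ 0 = a := rfl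

lemma emb_one (a b : ℕ) (γ : Bx c) : emb a b γ 1 = b := rfl

lemma emb_succ (a b : ℕ) (γ : Bx c) (l : Fin n) : emb a b γ l.succ.succ = γ l := rfl

lemma degree_emb (a b : ℕ) (γ : Bx c) : (emb a b γ).degree = a + (b + dg γ) := by
  rw [degree_eq]
  rfl

lemma eq_emb {α : Fin (n + 2) →₀ ℕ} (h : ∀ l : Fin n, α l.succ.succ ≤ c l) :
    α = emb (α 0) (α 1) (fun l => (⟨α l.succ.succ, Nat.lt_succ_of_le (h l)⟩ : Fin (c l + 1))) := by
  ext i
  refine Fin.cases rfl (fun i => Fin.cases rfl (fun l => rfl) i) i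

/-- Taylor coefficients of a monomial in one variable. -/
lemma coeff_taylor_monomial (s : ℂ) (k i : ℕ) (x : ℂ) :
    (Polynomial.taylor s (Polynomial.monomial k x)).coeff i = (k.choose i : ℂ) * x * s ^ (k - i) := by
  rw [Polynomial.taylor_coeff, Polynomial.hasseDeriv_monomial, Polynomial.eval_monomial]

/-- The Taylor coefficients of a form in terms of the lattice model. -/
lemma coeff_shift_eq {d : ℕ} (f : mons (n + 2) d → ℂ)
    (hf : ∀ α, f α ≠ 0 → ∀ l : Fin n, α.1 l.succ.succ ≤ c l) (s : ℂ) (a : Fin n → ℂ)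
    (i : ℕ) (γ : Bx c) :
    coeff (emb 0 i γ) (shift (Fin.cons 1 (Fin.cons s a)) (toPoly (n + 2) d f)) =
      (Polynomial.taylor s (trX a γ (fun δ : Bx c => Fd f fun l => (δ l : ℕ)))).coeff i := by
  classical
  rw [coeff_shift_toPoly, trX_apply, map_sum, Polynomial.finsetSum_coeff]
  have h1 : ∀ δ : Bx c, (Polynomial.taylor s (Polynomial.C (coef a γ δ) *
      Fd f fun l => (δ l : ℕ))).coeff i = ∑ α : mons (n + 2) d,
        if (fun l => α.1 l.succ.succ) = (fun l => (δ l : ℕ)) then
          coef a γ δ * (((α.1 1).choose i : ℂ) * f α * s ^ (α.1 1 - i)) else 0 := by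
    intro δ
    rw [← Polynomial.smul_eq_C_mul, map_smul, Polynomial.coeff_smul, smul_eq_mul, Fd, map_sum,
      Polynomial.finsetSum_coeff, mul_sum]
    refine sum_congr rfl fun α _ => ?_
    split_ifs with h
    · rw [coeff_taylor_monomial]
    · rw [map_zero, Polynomial.coeff_zero, mul_zero]
  rw [sum_congr rfl fun δ _ => h1 δ, sum_comm]
  refine sum_congr rfl fun α _ => ?_
  by_cases h0 : f α = 0
  · rw [h0, zero_mul]
    symm
    apply sum_eq_zero
    intro δ _
    split_ifs <;> simp
  · have hα := hf α h0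
    set δ₀ : Bx c := fun l => ⟨α.1 l.succ.succ, Nat.lt_succ_of_le (hα l)⟩ with hδ₀
    rw [sum_eq_single δ₀]
    · rw [if_pos rfl]
      have h2 : tc (Fin.cons 1 (Fin.cons s a)) α.1 (emb 0 i γ) =
          ((α.1 1).choose i : ℂ) * s ^ (α.1 1 - i) * coef a γ δ₀ := by
        unfold tc coef
        rw [Fin.prod_univ_succ, Fin.prod_univ_succ]
        have e1 : (Fin.cons 1 (Fin.cons s a) : Fin (n + 2) → ℂ) (Fin.succ 0) = s := rfl
        have e2 : ∀ l : Fin n, (Fin.cons 1 (Fin.cons s a) : Fin (n + 2) → ℂ) l.succ.succ = a l :=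
          fun l => rfl
        rw [Fin.cons_zero, emb_zero, Nat.choose_zero_right, e1, one_pow, Nat.cast_one, one_mul,
          one_mul]
        rfl
      rw [h2]
      ring
    · intro δ _ hne
      rw [if_neg]
      intro h
      apply hne
      funext l
      apply Fin.ext
      exact (congrFun h l).symm
    · intro h
      exact absurd (mem_univ _) h

/-- Support of the forms with large multiplicities at coordinate points. -/
lemma support_of_vanishes {k d : ℕ} {m : Fin k → ℕ} {J : Fin n ↪ Fin k}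
    (hc : ∀ l, m (J l) + c l = d) {q : Fin k → Fin (n + 2) → ℂ}
    (hq : ∀ l, q (J l) = Pi.single l.succ.succ 1) {f : mons (n + 2) d → ℂ}
    (hf : toPoly (n + 2) d f ∈ fatForms (n + 1) d q m) (α : mons (n + 2) d) (hα : f α ≠ 0)
    (l : Fin n) : α.1 l.succ.succ ≤ c l := by
  have h1 := hf.2 (J l)
  rw [hq l] at h1
  have h2 := (vanishes_coord_iff f l.succ.succ).1 h1 α hα
  have h3 := hc l
  omega

/-- **Upper bound**: the dimension at a special configuration. -/
theorem finrank_special_le {k d : ℕ} (m : Fin k → ℕ) (J : Fin n ↪ Fin k)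
    (hc : ∀ l, m (J l) + c l = d) (T : List (Fin k)) (hT : ∀ i, i ∈ T ↔ ∀ l, J l ≠ i)
    (pt : Fin k → Pt n) (hpt : ∀ i ∈ T, (pt i).m = m i) :
    ∃ p₀ : Fin k → Fin (n + 2) → ℂ, Module.finrank ℂ (fatForms (n + 1) d p₀ m) ≤
      w c (T.map pt) (d + 1) := by
  classical
  let p₀ : Fin k → Fin (n + 2) → ℂ := fun i =>
    if h : ∃ l, J l = i then Pi.single h.choose.succ.succ 1
      else Fin.cons 1 (Fin.cons (pt i).s (pt i).a)
  have hJ : ∀ l, p₀ (J l) = Pi.single l.succ.succ 1 := by
    intro l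
    have h : ∃ l', J l' = J l := ⟨l, rfl⟩
    simp only [p₀]
    rw [dif_pos h, J.injective h.choose_spec]
  have hnJ : ∀ i, (∀ l, J l ≠ i) → p₀ i = Fin.cons 1 (Fin.cons (pt i).s (pt i).a) := by
    intro i hi
    have h : ¬ ∃ l, J l = i := by
      push Not
      exact hi
    simp only [p₀]
    rw [dif_neg h]
  refine ⟨p₀, ?_⟩
  -- the coefficient vectors
  have hfin : ∀ F : fatForms (n + 1) d p₀ m,
      toPoly (n + 2) d (fun α => coeff α.1 F.1) = F.1 := fun F => exists_toPoly F.2.1
  let Ψ : fatForms (n + 1) d p₀ m →ₗ[ℂ] (Bx c → Polynomial ℂ) :=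
    { toFun := fun F δ => Fd (fun α : mons (n + 2) d => coeff α.1 F.1) fun l => (δ l : ℕ)
      map_add' := by
        intro F G
        funext δ
        apply Polynomial.ext
        intro i
        rw [Pi.add_apply, Polynomial.coeff_add, coeff_Fd, coeff_Fd, coeff_Fd, ← sum_add_distrib]
        refine sum_congr rfl fun α _ => ?_
        split_ifs
        · exact coeff_add _ _ _
        · rw [add_zero]
      map_smul' := by
        intro r F
        funext δ
        apply Polynomial.ext
        intro i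
        rw [Pi.smul_apply, Polynomial.coeff_smul, coeff_Fd, coeff_Fd, RingHom.id_apply, smul_sum]
        refine sum_congr rfl fun α _ => ?_
        split_ifs
        · exact coeff_smul _ _ _
        · rw [smul_zero] }
  have hΨ : ∀ F δ, Ψ F δ = Fd (fun α : mons (n + 2) d => coeff α.1 F.1) fun l => (δ l : ℕ) :=
    fun F δ => rfl
  have hmem : ∀ F, Ψ F ∈ V c (T.map pt) (d + 1) := by
    intro F
    refine ⟨fun γ => ?_, fun x hx γ => ?_⟩
    · rw [hΨ, Polynomial.degree_lt_iff_coeff_zero]
      intro i hi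
      apply coeff_Fd_eq_zero
      change d < i + dg γ
      omega
    · rw [List.mem_map] at hx
      obtain ⟨i, hi, rfl⟩ := hx
      rw [Polynomial.X_sub_C_pow_dvd_iff, Polynomial.X_pow_dvd_iff]
      intro j hj
      rw [← Polynomial.taylor_apply]
      have h1 := coeff_shift_eq (c := c) (fun α : mons (n + 2) d => coeff α.1 F.1)
        (fun α hα l => support_of_vanishes hc hJ (by rw [hfin F]; exact F.2) α hα l)
        (pt i).s (pt i).a j γ
      rw [hfin F] at h1
      have h2 := F.2.2 i (emb 0 j γ) (by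
        rw [degree_emb, ← hpt i hi]
        omega)
      rw [hnJ i ((hT i).1 hi), h1] at h2
      exact h2
  have hinj : Function.Injective (LinearMap.codRestrict (V c (T.map pt) (d + 1)) Ψ hmem) := by
    rw [← LinearMap.ker_eq_bot, LinearMap.ker_codRestrict, LinearMap.ker_eq_bot']
    intro F hF
    apply Subtype.ext
    rw [← hfin F]
    have h1 : (fun α : mons (n + 2) d => coeff α.1 F.1) = 0 := by
      funext α
      by_contra h0
      have hα := support_of_vanishes (c := c) hc hJ (f := fun α => coeff α.1 F.1)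
        (by rw [hfin F]; exact F.2) α h0
      have h2 := coeff_Fd_self (fun α : mons (n + 2) d => coeff α.1 F.1) α
      have h3 := congrFun hF (fun l => (⟨α.1 l.succ.succ, Nat.lt_succ_of_le (hα l)⟩ :
        Fin (c l + 1)))
      rw [hΨ] at h3
      change Fd (fun α : mons (n + 2) d => coeff α.1 F.1) (fun l => α.1 l.succ.succ) = 0 at h3
      rw [h3, Polynomial.coeff_zero] at h2
      exact h0 h2.symm
    rw [h1, map_zero]
    rfl
  exact LinearMap.finrank_le_finrank_of_injective hinj

/-- **Lower bound**: counting conditions. -/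
theorem count_le_finrank {k d : ℕ} (m : Fin k → ℕ) (J : Fin n ↪ Fin k)
    (hc : ∀ l, m (J l) + c l = d) {q : Fin k → Fin (n + 2) → ℂ}
    (hq : ∀ l, q (J l) = Pi.single l.succ.succ 1) (hq0 : ∀ i, (∀ l, J l ≠ i) → q i 0 ≠ 0) :
    ∑ γ : Bx c, (d + 1 - dg γ) ≤ Module.finrank ℂ (fatForms (n + 1) d q m) +
      ∑ i : {i : Fin k // ∀ l, J l ≠ i}, len c (m i.1) := by
  classical
  -- the monomials
  let I := (γ : Bx c) × Fin (d + 1 - dg γ)
  let mon : I → mons (n + 2) d := fun x => ⟨emb (d - dg x.1 - x.2) x.2 x.1, by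
    rw [mem_mons, degree_emb]
    have := x.2.2
    omega⟩
  have hmon : Function.Injective mon := by
    rintro ⟨γ, i⟩ ⟨δ, j⟩ h
    have h1 := congrArg Subtype.val h
    have h2 : γ = δ := by
      funext l
      apply Fin.ext
      have := DFunLike.congr_fun h1 l.succ.succ
      exact this
    subst h2
    have h3 : (i : ℕ) = j := DFunLike.congr_fun h1 1
    rw [Fin.ext h3]
  obtain ⟨E, hE, hE'⟩ : ∃ E : (I → ℂ) →ₗ[ℂ] (mons (n + 2) d → ℂ), (∀ g x, E g (mon x) = g x) ∧
      ∀ g α, (¬ ∃ x, mon x = α) → E g α = 0 := by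
    refine ⟨Function.ExtendByZero.linearMap ℂ mon, fun g x => ?_, fun g α h => ?_⟩
    · exact hmon.extend_apply g (0 : mons (n + 2) d → ℂ) x
    · exact Function.extend_apply' g (0 : mons (n + 2) d → ℂ) α h
  have hEsupp : ∀ g α, E g α ≠ 0 → ∀ l : Fin n, α.1 l.succ.succ ≤ c l := by
    intro g α hα l
    have h1 : ∃ x, mon x = α := by
      by_contra hcon
      exact hα (hE' g α hcon)
    obtain ⟨x, rfl⟩ := h1
    exact Nat.lt_succ_iff.1 (x.1 l).2
  -- the conditions
  let K := (i : {i : Fin k // ∀ l, J l ≠ i}) × ((γ : Bx c) × Fin (m i.1 - dg γ))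
  obtain ⟨Φ, hΦ⟩ : ∃ Φ : (I → ℂ) →ₗ[ℂ] (K → ℂ), ∀ g y,
      Φ g y = ∑ α : mons (n + 2) d, E g α * tc (q y.1.1) α.1 (emb 0 y.2.2 y.2.1) := by
    refine ⟨(Matrix.mulVecLin (Matrix.of fun (y : K) (α : mons (n + 2) d) =>
      tc (q y.1.1) α.1 (emb 0 y.2.2 y.2.1))).comp E, fun g y => ?_⟩
    rw [LinearMap.comp_apply, Matrix.mulVecLin_apply, Matrix.mulVec, dotProduct]
    exact sum_congr rfl fun α _ => mul_comm _ _
  have hker : ∀ g ∈ LinearMap.ker Φ, toPoly (n + 2) d (E g) ∈ fatForms (n + 1) d q m := by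
    intro g hg
    rw [LinearMap.mem_ker] at hg
    refine ⟨toPoly_isHomogeneous _, fun i => ?_⟩
    by_cases hi : ∃ l, J l = i
    · obtain ⟨l, rfl⟩ := hi
      rw [hq l, vanishes_coord_iff]
      intro α hα
      have h1 := hEsupp g α hα l
      have h2 := hc l
      omega
    · push Not at hi
      apply vanishes_of_affine (hq0 i hi)
      intro β hβ0 hβ
      rw [coeff_shift_toPoly]
      by_cases hbox : ∀ l : Fin n, β l.succ.succ ≤ c l
      · have h1 := eq_emb hbox
        rw [hβ0] at h1
        set γ : Bx c := fun l => ⟨β l.succ.succ, Nat.lt_succ_of_le (hbox l)⟩ with hγ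
        have h2 : β.degree = 0 + (β 1 + dg γ) := by
          conv_lhs => rw [h1]
          exact degree_emb _ _ _
        have h3 := congrFun hg ⟨⟨i, hi⟩, γ, ⟨β 1, by
          change β 1 < m i - dg γ
          omega⟩⟩
        rw [hΦ] at h3
        rw [h1]
        exact h3
      · push Not at hbox
        obtain ⟨l, hl⟩ := hbox
        apply sum_eq_zero
        intro α _
        by_cases h0 : E g α = 0
        · rw [h0, zero_mul]
        · have h1 := hEsupp g α h0 l
          have h2 : tc (q i) α.1 β = 0 := by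
            unfold tc
            apply prod_eq_zero (mem_univ l.succ.succ)
            rw [Nat.choose_eq_zero_of_lt (by omega)]
            simp
          rw [h2, mul_zero]
  have hle : (LinearMap.ker Φ).map ((toPoly (n + 2) d).comp E) ≤ fatForms (n + 1) d q m := by
    rintro _ ⟨g, hg, rfl⟩
    exact hker g hg
  have hinj : Function.Injective ((toPoly (n + 2) d).comp E) := by
    intro g h hgh
    have h2 : E g = E h := toPoly_injective (n + 2) d hgh
    funext x
    rw [← hE g x, ← hE h x, h2]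
  have h1 : Module.finrank ℂ (LinearMap.ker Φ) ≤ Module.finrank ℂ (fatForms (n + 1) d q m) := by
    rw [(Submodule.equivMapOfInjective _ hinj (LinearMap.ker Φ)).finrank_eq]
    exact Submodule.finrank_mono hle
  have h2 := LinearMap.finrank_range_add_finrank_ker Φ
  have h3 : Module.finrank ℂ (LinearMap.range Φ) ≤
      ∑ i : {i : Fin k // ∀ l, J l ≠ i}, len c (m i.1) := by
    refine (Submodule.finrank_le _).trans (le_of_eq ?_)
    rw [Module.finrank_fintype_fun_eq_card, Fintype.card_sigma]
    refine sum_congr rfl fun i _ => ?_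
    rw [Fintype.card_sigma]
    unfold len
    exact sum_congr rfl fun γ _ => Fintype.card_fin _
  have h4 : Module.finrank ℂ (I → ℂ) = ∑ γ : Bx c, (d + 1 - dg γ) := by
    rw [Module.finrank_fintype_fun_eq_card, Fintype.card_sigma]
    exact sum_congr rfl fun γ _ => Fintype.card_fin _
  rw [h4] at h2
  omega

end Pool.Agent.H49.PW
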