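import Pool.Agent.H18.FatPerfect
import Pool.Agent.H18.FatToric
import Pool.Agent.H49.Pencil.Comb
import Pool.Agent.H49.Pencil.Curves

/-! # The lower bound -/

namespace Pool.Agent.H49.Pencil

open MvPolynomial Finset Pool.Agent.H18.Fat

variable {n : ℕ}

/-- homogenisation in the variables `X 0`, `X 1` -/
noncomputable def homo (n D : ℕ) (P : Polynomial ℂ) : MvPolynomial (Fin (n + 2)) ℂ :=
  ∑ i ∈ range (D + 1), C (P.coeff i) * X 1 ^ i * X 0 ^ (D - i)

theorem homo_zero (D : ℕ) : homo n D 0 = 0 := by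
  unfold homo
  exact sum_eq_zero fun i _ => by simp

theorem homo_isHomogeneous (D : ℕ) (P : Polynomial ℂ) : (homo n D P).IsHomogeneous D := by
  apply IsHomogeneous.sum
  intro i hi
  rw [mem_range] at hi
  have h1 := ((isHomogeneous_C (Fin (n + 2)) (P.coeff i)).mul
    (isHomogeneous_X_pow (R := ℂ) (1 : Fin (n + 2)) i)).mul
    (isHomogeneous_X_pow (R := ℂ) (0 : Fin (n + 2)) (D - i))
  rwa [show 0 + i + (D - i) = D by omega] at h1

theorem eval_homo (D : ℕ) (P : Polynomial ℂ) (hP : P ∈ Polynomial.degreeLT ℂ (D + 1))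
    (q : Fin (n + 2) → ℂ) (hq : q 0 ≠ 0) :
    eval q (homo n D P) = q 0 ^ D * P.eval (q 1 / q 0) := by
  have hdeg : P.natDegree < D + 1 := by
    by_cases h : P = 0
    · rw [h, Polynomial.natDegree_zero]
      omega
    · rwa [Polynomial.mem_degreeLT, Polynomial.degree_eq_natDegree h, Nat.cast_lt] at hP
  rw [Polynomial.eval_eq_sum_range' hdeg, homo, map_sum, mul_sum]
  refine sum_congr rfl fun i hi => ?_
  rw [mem_range] at hi
  simp only [map_mul, map_pow, eval_C, eval_X]
  have h1 : q 0 ^ D = q 0 ^ i * q 0 ^ (D - i) := by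
    rw [← pow_add]
    congr 1
    omega
  rw [h1, div_pow]
  field_simp

theorem degreeOf_homo (D : ℕ) (P : Polynomial ℂ) (l : Fin n) :
    degreeOf l.succ.succ (homo n D P) = 0 := by
  classical
  rw [← Nat.le_zero]
  refine (degreeOf_sum_le _ _ _).trans (Finset.sup_le fun i _ => ?_)
  refine (degreeOf_mul_le _ _ _).trans ?_
  have h1 := degreeOf_mul_le l.succ.succ (C (P.coeff i) : MvPolynomial (Fin (n + 2)) ℂ) (X 1 ^ i)
  have h2 := degreeOf_pow_le l.succ.succ (X 1 : MvPolynomial (Fin (n + 2)) ℂ) i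
  have h3 := degreeOf_pow_le l.succ.succ (X 0 : MvPolynomial (Fin (n + 2)) ℂ) (D - i)
  rw [degreeOf_X, if_neg (by
    rw [Fin.ext_iff]
    simp)] at h2 h3
  rw [degreeOf_C] at h1
  omega

/-- the form `P x_l + Q` -/
noncomputable def form (l : Fin n) (D : ℕ) (P Q : Polynomial ℂ) : MvPolynomial (Fin (n + 2)) ℂ :=
  homo n (D - 1) P * X l.succ.succ + homo n D Q

theorem eq_zero_of_mem_degreeLT_zero {P : Polynomial ℂ} (h : P ∈ Polynomial.degreeLT ℂ 0) :
    P = 0 := by
  by_contra h0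
  rw [Polynomial.mem_degreeLT, Polynomial.degree_eq_natDegree h0, Nat.cast_lt] at h
  omega

theorem form_isHomogeneous (l : Fin n) (D : ℕ) (P Q : Polynomial ℂ)
    (hP : P ∈ Polynomial.degreeLT ℂ D) : (form l D P Q).IsHomogeneous D := by
  unfold form
  refine IsHomogeneous.add ?_ (homo_isHomogeneous D Q)
  rcases Nat.eq_zero_or_pos D with h | h
  · subst h
    rw [eq_zero_of_mem_degreeLT_zero hP, homo_zero, zero_mul]
    exact isHomogeneous_zero _ _ _
  · have h1 := (homo_isHomogeneous (n := n) (D - 1) P).mul (isHomogeneous_X ℂ l.succ.succ)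
    rwa [show D - 1 + 1 = D by omega] at h1

theorem eval_form (l : Fin n) (D : ℕ) (P Q : Polynomial ℂ)
    (hP : P ∈ Polynomial.degreeLT ℂ D) (hQ : Q ∈ Polynomial.degreeLT ℂ (D + 1))
    (q : Fin (n + 2) → ℂ) (hq : q 0 ≠ 0) :
    eval q (form l D P Q) =
      q 0 ^ D * (P.eval (q 1 / q 0) * (q l.succ.succ / q 0) + Q.eval (q 1 / q 0)) := by
  unfold form
  rw [map_add, map_mul, eval_X, eval_homo D Q hQ q hq]
  rcases Nat.eq_zero_or_pos D with h | h
  · subst h
    rw [eq_zero_of_mem_degreeLT_zero hP, homo_zero]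
    simp
  · rw [eval_homo (D - 1) P (by rwa [show D - 1 + 1 = D by omega]) q hq]
    obtain ⟨D', rfl⟩ : ∃ D', D = D' + 1 := ⟨D - 1, by omega⟩
    rw [Nat.add_sub_cancel, pow_succ]
    field_simp

theorem degreeOf_form (l l' : Fin n) (D : ℕ) (P Q : Polynomial ℂ) :
    degreeOf l'.succ.succ (form l D P Q) ≤ if l' = l then 1 else 0 := by
  classical
  unfold form
  refine (degreeOf_add_le _ _ _).trans (max_le ?_ ?_)
  · refine (degreeOf_mul_le _ _ _).trans ?_
    rw [degreeOf_homo, zero_add, degreeOf_X]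
    by_cases h : l' = l
    · rw [if_pos h, h, if_pos rfl]
    · rw [if_neg h, if_neg]
      intro h1
      exact h (Fin.succ_injective _ (Fin.succ_injective _ h1))
  · rw [degreeOf_homo]
    exact Nat.zero_le _

/-- the ideal of a point -/
noncomputable def ptIdeal (q : Fin (n + 2) → ℂ) : Ideal (MvPolynomial (Fin (n + 2)) ℂ) :=
  Ideal.span (Set.range fun j => (X j - C (q j) : MvPolynomial (Fin (n + 2)) ℂ))

theorem mem_ptIdeal {q : Fin (n + 2) → ℂ} {F : MvPolynomial (Fin (n + 2)) ℂ}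
    (h : eval q F = 0) : F ∈ ptIdeal q := by
  have h1 : VanishesToOrder F q 1 := by
    intro β hβ
    have hβ0 : β = 0 := by
      rw [Nat.lt_one_iff] at hβ
      exact (Finsupp.degree_eq_zero_iff β).1 hβ
    subst hβ0
    have h2 : coeff 0 (shift q F) = constantCoeff (shift q F) := rfl
    rw [h2, ← eval_zero]
    have h3 : eval (fun _ => (0 : ℂ)) (shift q F) = eval q F := by
      have h4 : ((eval (fun _ => (0:ℂ))).comp (shift (n := n + 2) q |> fun _ =>
        ((aeval (fun j => X j + C (q j)) : MvPolynomial (Fin (n + 2)) ℂ →ₐ[ℂ]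
          MvPolynomial (Fin (n + 2)) ℂ) : MvPolynomial (Fin (n + 2)) ℂ →+*
          MvPolynomial (Fin (n + 2)) ℂ))) = eval q := by
        apply ringHom_ext
        · intro r
          simp
        · intro i
          simp
      exact DFunLike.congr_fun h4 F
    exact h3.trans h
  rw [vanishesToOrder_iff_mem_ideal_pow, pow_one] at h1
  exact h1

theorem alg1 (a b a' b' r : ℂ) (h : a - r * a' ≠ 0) :
    a' * ((r * b' - b) / (a - r * a')) + b' = (a * b' - a' * b) / (a - r * a') := by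
  rw [eq_div_iff h, add_mul, mul_assoc, div_mul_cancel₀ _ h]
  ring

theorem alg2 (a b a' b' r : ℂ) (h : a - r * a' ≠ 0) :
    a * ((r * b' - b) / (a - r * a')) + b = r * (a' * ((r * b' - b) / (a - r * a')) + b') := by
  rw [alg1 a b a' b' r h, ← mul_div_assoc r, eq_div_iff h, add_mul, mul_assoc,
    div_mul_cancel₀ _ h]
  ring

/-- Order of vanishing at a coordinate point in terms of the degree. -/
theorem vanishes_coord_of_degreeOf {d m : ℕ} {F : MvPolynomial (Fin (n + 2)) ℂ}
    (hF : F.IsHomogeneous d) (i : Fin (n + 2)) (h : degreeOf i F + m ≤ d) :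
    VanishesToOrder F (Pi.single i 1) m := by
  rw [← exists_toPoly hF, vanishes_coord_iff]
  intro α hα
  have h1 := monomial_le_degreeOf i (mem_support_iff.2 hα)
  omega

section

variable {ι : Type*} [Fintype ι] (c : Fin n → ℕ) (q : ι → Fin (n + 2) → ℂ) (M : ι → ℕ)
  (e f : Fin n → ℕ) (P Q P' Q' : Fin n → Polynomial ℂ)

/-- the fixed part -/
noncomputable def Lam : MvPolynomial (Fin (n + 2)) ℂ :=
  ∏ j, (C (q j 0) * X 1 - C (q j 1) * X 0) ^ (M j - ∑ l, c l)

/-- the products of curves -/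
noncomputable def Psi (β : Fin n → ℕ) : MvPolynomial (Fin (n + 2)) ℂ :=
  ∏ l, (form l (e l) (P l) (Q l) ^ (β l) * form l (f l) (P' l) (Q' l) ^ (c l - β l))

theorem Lam_isHomogeneous : (Lam c q M).IsHomogeneous (∑ j, (M j - ∑ l, c l)) := by
  have h : ∀ j, ((C (q j 0) * X 1 - C (q j 1) * X 0 : MvPolynomial (Fin (n + 2)) ℂ) ^
      (M j - ∑ l, c l)).IsHomogeneous (1 * (M j - ∑ l, c l)) := fun j =>
    ((isHomogeneous_C_mul_X _ _).sub (isHomogeneous_C_mul_X _ _)).pow _
  have h1 := IsHomogeneous.prod univ _ _ fun j _ => h j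
  unfold Lam
  simpa using h1

theorem Psi_isHomogeneous (hP : ∀ l, P l ∈ Polynomial.degreeLT ℂ (e l))
    (hP' : ∀ l, P' l ∈ Polynomial.degreeLT ℂ (f l)) (β : Fin n → ℕ) :
    (Psi c e f P Q P' Q' β).IsHomogeneous (∑ l, (β l * e l + (c l - β l) * f l)) := by
  apply IsHomogeneous.prod
  intro l _
  have h1 := ((form_isHomogeneous l (e l) (P l) (Q l) (hP l)).pow (β l)).mul
    ((form_isHomogeneous l (f l) (P' l) (Q' l) (hP' l)).pow (c l - β l))
  rwa [mul_comm (e l), mul_comm (f l)] at h1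

theorem degreeOf_Lam (l : Fin n) : degreeOf l.succ.succ (Lam c q M) = 0 := by
  classical
  rw [← Nat.le_zero]
  refine (degreeOf_prod_le _ _ _).trans (le_of_eq (sum_eq_zero fun j _ => ?_))
  rw [← Nat.le_zero]
  refine (degreeOf_pow_le _ _ _).trans ?_
  have h1 : ∀ (a : ℂ) (i : Fin (n + 2)), i = 0 ∨ i = 1 →
      degreeOf l.succ.succ (C a * X i : MvPolynomial (Fin (n + 2)) ℂ) = 0 := by
    intro a i hi
    rw [← Nat.le_zero]
    refine (degreeOf_mul_le _ _ _).trans ?_
    rw [degreeOf_C, degreeOf_X, if_neg]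
    rintro h
    rcases hi with rfl | rfl
    · exact Fin.succ_ne_zero _ h
    · rw [Fin.ext_iff] at h
      simp at h
  have h2 : degreeOf l.succ.succ (C (q j 0) * X 1 - C (q j 1) * X 0 :
      MvPolynomial (Fin (n + 2)) ℂ) ≤ 0 := by
    refine (degreeOf_sub_le _ _ _).trans ?_
    rw [h1 _ _ (Or.inr rfl), h1 _ _ (Or.inl rfl), max_self]
  rw [Nat.le_zero.1 h2, mul_zero]

theorem degreeOf_Psi (β : Fin n → ℕ) (hβ : ∀ l, β l ≤ c l) (l : Fin n) :
    degreeOf l.succ.succ (Psi c e f P Q P' Q' β) ≤ c l := by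
  classical
  refine (degreeOf_prod_le _ _ _).trans ?_
  rw [← add_sum_erase _ _ (mem_univ l)]
  have h1 : ∀ l', degreeOf l.succ.succ (form l' (e l') (P l') (Q l') ^ (β l') *
      form l' (f l') (P' l') (Q' l') ^ (c l' - β l')) ≤ if l = l' then c l' else 0 := by
    intro l'
    refine (degreeOf_mul_le _ _ _).trans ?_
    have e1 := (degreeOf_pow_le l.succ.succ (form l' (e l') (P l') (Q l')) (β l')).trans
      (Nat.mul_le_mul_left _ (degreeOf_form l' l (e l') (P l') (Q l')))
    have e2 := (degreeOf_pow_le l.succ.succ (form l' (f l') (P' l') (Q' l')) (c l' - β l')).trans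
      (Nat.mul_le_mul_left _ (degreeOf_form l' l (f l') (P' l') (Q' l')))
    have := hβ l'
    split_ifs at e1 e2 ⊢ with h
    · omega
    · omega
  have h2 : ∑ l' ∈ univ.erase l, degreeOf l.succ.succ (form l' (e l') (P l') (Q l') ^ (β l') *
      form l' (f l') (P' l') (Q' l') ^ (c l' - β l')) = 0 := by
    refine sum_eq_zero fun l' hl' => ?_
    have h3 := h1 l'
    rw [if_neg (ne_of_mem_erase hl').symm] at h3
    exact Nat.le_zero.1 h3
  rw [h2, add_zero]
  have h3 := h1 l
  rwa [if_pos rfl] at h3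

theorem Lam_mul_Psi_mem (hM : ∀ j, ∑ l, c l ≤ M j) (hq : ∀ j, q j 0 ≠ 0)
    (hg : ∀ l, Good (fun j => q j 1 / q j 0) (fun j => q j l.succ.succ / q j 0) (e l) (P l) (Q l))
    (hg' : ∀ l, Good (fun j => q j 1 / q j 0) (fun j => q j l.succ.succ / q j 0)
      (f l) (P' l) (Q' l)) (β : Fin n → ℕ) (hβ : ∀ l, β l ≤ c l) (j : ι) :
    Psi c e f P Q P' Q' β * Lam c q M ∈ ptIdeal (q j) ^ (M j) := by
  classical
  have h1 : Psi c e f P Q P' Q' β ∈ ptIdeal (q j) ^ (∑ l, c l) := by
    rw [← prod_pow_eq_pow_sum]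
    apply Ideal.prod_mem_prod
    intro l _
    have h2 : form l (e l) (P l) (Q l) ∈ ptIdeal (q j) := by
      apply mem_ptIdeal
      rw [eval_form l (e l) (P l) (Q l) (hg l).1 (hg l).2.1 (q j) (hq j), (hg l).2.2 j, mul_zero]
    have h3 : form l (f l) (P' l) (Q' l) ∈ ptIdeal (q j) := by
      apply mem_ptIdeal
      rw [eval_form l (f l) (P' l) (Q' l) (hg' l).1 (hg' l).2.1 (q j) (hq j), (hg' l).2.2 j,
        mul_zero]
    have h4 := Ideal.mul_mem_mul (Ideal.pow_mem_pow h2 (β l)) (Ideal.pow_mem_pow h3 (c l - β l))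
    rwa [← pow_add, Nat.add_sub_cancel' (hβ l)] at h4
  have h2 : Lam c q M ∈ ptIdeal (q j) ^ (M j - ∑ l, c l) := by
    unfold Lam
    rw [← mul_prod_erase univ _ (mem_univ j)]
    apply Ideal.mul_mem_right
    apply Ideal.pow_mem_pow
    apply mem_ptIdeal
    simp only [map_sub, map_mul, eval_C, eval_X]
    ring
  have h3 := Ideal.mul_mem_mul h1 h2
  rwa [← pow_add, Nat.add_sub_cancel' (hM j)] at h3

/-- Independence of the products of curves over the polynomials in `s`. -/
theorem indep (hP : ∀ l, P l ∈ Polynomial.degreeLT ℂ (e l))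
    (hQ : ∀ l, Q l ∈ Polynomial.degreeLT ℂ (e l + 1))
    (hP' : ∀ l, P' l ∈ Polynomial.degreeLT ℂ (f l))
    (hQ' : ∀ l, Q' l ∈ Polynomial.degreeLT ℂ (f l + 1))
    (hdet : ∀ l, P l * Q' l - P' l * Q l ≠ 0)
    (G : ((l : Fin n) → Fin (c l + 1)) → Polynomial ℂ)
    (h : ∀ q : Fin (n + 2) → ℂ, q 0 = 1 → ∑ β : (l : Fin n) → Fin (c l + 1),
      (G β).eval (q 1) * eval q (Psi c e f P Q P' Q' fun l => (β l : ℕ)) = 0) :
    ∀ β, G β = 0 := by
  classical
  intro β₀
  apply Polynomial.eq_zero_of_infinite_isRoot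
  -- the good parameters
  have hfin : ({σ : ℂ | ∃ l, (P l * Q' l - P' l * Q l).eval σ = 0} : Set ℂ).Finite := by
    have : ({σ : ℂ | ∃ l, (P l * Q' l - P' l * Q l).eval σ = 0} : Set ℂ) =
        ⋃ l, {σ : ℂ | (P l * Q' l - P' l * Q l).IsRoot σ} := by
      ext σ
      simp [Polynomial.IsRoot]
    rw [this]
    exact Set.finite_iUnion fun l => Polynomial.finite_setOfPred_isRoot (hdet l)
  refine hfin.infinite_compl.mono fun σ hσ => ?_
  have hσ' : ∀ l, (P l).eval σ * (Q' l).eval σ - (P' l).eval σ * (Q l).eval σ ≠ 0 := by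
    intro l hl
    apply hσ
    refine ⟨l, ?_⟩
    simpa using hl
  -- the polynomial in `ρ`
  let R : MvPolynomial (Fin n) ℂ := ∑ β : (l : Fin n) → Fin (c l + 1),
    monomial (Finsupp.equivFunOnFinite.symm fun l => (β l : ℕ)) ((G β).eval σ)
  have hR : R = 0 := by
    apply MvPolynomial.funext_set (fun l => {ρ : ℂ | (P l).eval σ - ρ * (P' l).eval σ ≠ 0})
    · intro l
      by_cases h0 : (P' l).eval σ = 0
      · have h1 : (P l).eval σ ≠ 0 := by
          intro h1
          apply hσ' l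
          rw [h0, h1]
          ring
        have : {ρ : ℂ | (P l).eval σ - ρ * (P' l).eval σ ≠ 0} = Set.univ := by
          ext ρ
          simp [h0, h1]
        rw [this]
        exact Set.infinite_univ
      · have : {ρ : ℂ | (P l).eval σ - ρ * (P' l).eval σ ≠ 0} =
            {(P l).eval σ / (P' l).eval σ}ᶜ := by
          ext ρ
          rw [Set.mem_compl_iff, Set.mem_singleton_iff, Set.mem_ofPred_eq, ne_eq, not_iff_not,
            eq_div_iff h0, sub_eq_zero]
          exact eq_comm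
        rw [this]
        exact (Set.finite_singleton _).infinite_compl
    · intro ρ hρ
      rw [map_zero]
      have hρ' : ∀ l, (P l).eval σ - ρ l * (P' l).eval σ ≠ 0 := fun l => hρ l (Set.mem_univ l)
      -- the point
      let x : Fin n → ℂ := fun l =>
        (ρ l * (Q' l).eval σ - (Q l).eval σ) / ((P l).eval σ - ρ l * (P' l).eval σ)
      let q₀ : Fin (n + 2) → ℂ := Fin.cons 1 (Fin.cons σ x)
      have hq0 : q₀ 0 = 1 := rfl
      have hq1 : q₀ 1 = σ := rfl
      have hql : ∀ l : Fin n, q₀ l.succ.succ = x l := fun l => rfl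
      let v : Fin n → ℂ := fun l => (P' l).eval σ * x l + (Q' l).eval σ
      have hv : ∀ l, v l ≠ 0 := by
        intro l
        have h1 : v l = ((P l).eval σ * (Q' l).eval σ - (P' l).eval σ * (Q l).eval σ) /
            ((P l).eval σ - ρ l * (P' l).eval σ) := alg1 _ _ _ _ _ (hρ' l)
        rw [h1]
        exact div_ne_zero (hσ' l) (hρ' l)
      have hu : ∀ l, (P l).eval σ * x l + (Q l).eval σ = ρ l * v l := fun l =>
        alg2 _ _ _ _ _ (hρ' l)
      have h1 := h q₀ hq0
      have h2 : ∀ β : (l : Fin n) → Fin (c l + 1),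
          eval q₀ (Psi c e f P Q P' Q' fun l => (β l : ℕ)) =
            (∏ l, ρ l ^ (β l : ℕ)) * ∏ l, v l ^ (c l) := by
        intro β
        unfold Psi
        rw [map_prod, ← prod_mul_distrib]
        refine prod_congr rfl fun l _ => ?_
        rw [map_mul, map_pow, map_pow,
          eval_form l (e l) (P l) (Q l) (hP l) (hQ l) q₀ (by rw [hq0]; exact one_ne_zero),
          eval_form l (f l) (P' l) (Q' l) (hP' l) (hQ' l) q₀ (by rw [hq0]; exact one_ne_zero),
          hq0, hq1, hql, one_pow, one_pow, one_mul, one_mul, div_one, div_one, hu l]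
        have h3 : (P' l).eval σ * x l + (Q' l).eval σ = v l := rfl
        rw [h3, mul_pow, mul_assoc, ← pow_add, Nat.add_sub_cancel' (Nat.lt_succ_iff.1 (β l).2)]
      have h3 : (∑ β : (l : Fin n) → Fin (c l + 1), (G β).eval σ * ∏ l, ρ l ^ (β l : ℕ)) *
          ∏ l, v l ^ (c l) = 0 := by
        rw [sum_mul, ← h1]
        refine sum_congr rfl fun β _ => ?_
        rw [h2, hq1]
        ring
      have h4 := (mul_eq_zero.1 h3).resolve_right
        (prod_ne_zero_iff.2 fun l _ => pow_ne_zero _ (hv l))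
      rw [map_sum, ← h4]
      refine sum_congr rfl fun β _ => ?_
      rw [eval_monomial, Finsupp.prod_fintype _ _ (by simp)]
      rfl
  have h1 : coeff (Finsupp.equivFunOnFinite.symm fun l => (β₀ l : ℕ)) R = (G β₀).eval σ := by
    rw [coeff_sum, sum_eq_single β₀]
    · rw [coeff_monomial, if_pos rfl]
    · intro β _ hne
      rw [coeff_monomial, if_neg]
      intro heq
      apply hne
      funext l
      have := DFunLike.congr_fun heq l
      exact Fin.ext this
    · intro h2
      exact absurd (mem_univ _) h2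
  rw [hR, coeff_zero] at h1
  exact h1.symm

theorem Lam_ne_zero (hq : ∀ j, q j 0 ≠ 0) : Lam c q M ≠ 0 := by
  intro h
  have h1 := congrArg (eval (Fin.cons 0 fun _ => 1 : Fin (n + 2) → ℂ)) h
  unfold Lam at h1
  rw [map_prod, map_zero, prod_eq_zero_iff] at h1
  obtain ⟨j, _, hj⟩ := h1
  rw [map_pow] at hj
  have h3 : eval (Fin.cons 0 fun _ => 1 : Fin (n + 2) → ℂ) (C (q j 0) * X 1 - C (q j 1) * X 0) =
      q j 0 := by
    have e1 : (Fin.cons 0 fun _ => 1 : Fin (n + 2) → ℂ) 1 = 1 := rfl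
    have e0 : (Fin.cons 0 fun _ => 1 : Fin (n + 2) → ℂ) 0 = 0 := rfl
    simp only [map_sub, map_mul, eval_C, eval_X, e1, e0]
    ring
  rw [h3] at hj
  exact pow_ne_zero _ (hq j) hj

/-- the number of coefficients for the index `β` -/
def Nn (d T : ℕ) (e f : Fin n → ℕ) (β : (l : Fin n) → Fin (c l + 1)) : ℕ :=
  d + 1 - T - ∑ l, ((β l : ℕ) * e l + (c l - β l) * f l)

/-- The lower bound for the dimension, given the curves. -/
theorem finrank_ge {d : ℕ} (hM : ∀ j, ∑ l, c l ≤ M j) (hq : ∀ j, q j 0 ≠ 0)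
    (hg : ∀ l, Good (fun j => q j 1 / q j 0) (fun j => q j l.succ.succ / q j 0) (e l) (P l) (Q l))
    (hg' : ∀ l, Good (fun j => q j 1 / q j 0) (fun j => q j l.succ.succ / q j 0)
      (f l) (P' l) (Q' l))
    (hdet : ∀ l, P l * Q' l - P' l * Q l ≠ 0)
    {κ : Type*} (p : κ → Fin (n + 2) → ℂ) (m : κ → ℕ)
    (hp : ∀ i, (∃ l : Fin n, p i = Pi.single l.succ.succ 1 ∧ m i + c l ≤ d) ∨
      ∃ j, p i = q j ∧ m i ≤ M j) :
    hsum c (d + 1 - ∑ j, (M j - ∑ l, c l)) e f ≤
      Module.finrank ℂ (fatForms (n + 1) d p m) := by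
  classical
  set T := ∑ j, (M j - ∑ l, c l) with hT
  let B := (l : Fin n) → Fin (c l + 1)
  let N : B → ℕ := Nn c d T e f
  let E₀ : ((β : B) × Fin (N β)) → MvPolynomial (Fin (n + 2)) ℂ := fun x =>
    X 1 ^ (x.2 : ℕ) * X 0 ^ (N x.1 - 1 - x.2) * Psi c e f P Q P' Q' fun l => (x.1 l : ℕ)
  let E : ((β : B) × Fin (N β)) → MvPolynomial (Fin (n + 2)) ℂ := fun x => E₀ x * Lam c q M
  have hβ : ∀ (β : B) (l : Fin n), (β l : ℕ) ≤ c l := fun β l => Nat.lt_succ_iff.1 (β l).2
  have hEmem : ∀ x, E x ∈ fatForms (n + 1) d p m := by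
    rintro ⟨β, i⟩
    have hhom : (E ⟨β, i⟩).IsHomogeneous d := by
      have h1 := (((isHomogeneous_X_pow (R := ℂ) (1 : Fin (n + 2)) (i : ℕ)).mul
        (isHomogeneous_X_pow (R := ℂ) (0 : Fin (n + 2)) (N β - 1 - i))).mul
        (Psi_isHomogeneous c e f P Q P' Q' (fun l => (hg l).1) (fun l => (hg' l).1)
          fun l => (β l : ℕ))).mul (Lam_isHomogeneous c q M)
      have h2 : (i : ℕ) < N β := i.2
      have h3 : N β = d + 1 - T - ∑ l, ((β l : ℕ) * e l + (c l - β l) * f l) := rfl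
      have h4 : (i : ℕ) + (N β - 1 - i) + ∑ l, ((β l : ℕ) * e l + (c l - β l) * f l) + T = d := by
        omega
      rw [← hT, h4] at h1
      exact h1
    refine ⟨hhom, fun a => ?_⟩
    rcases hp a with ⟨l, hl, hml⟩ | ⟨j, hj, hmj⟩
    · rw [hl]
      apply vanishes_coord_of_degreeOf hhom
      have h1 : degreeOf l.succ.succ (E ⟨β, i⟩) ≤ c l := by
        refine (degreeOf_mul_le _ _ _).trans ?_
        rw [degreeOf_Lam, add_zero]
        refine (degreeOf_mul_le _ _ _).trans ?_
        have h2 := degreeOf_Psi c e f P Q P' Q' (fun l => (β l : ℕ)) (hβ β) l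
        have h3 := degreeOf_mul_le l.succ.succ (X 1 ^ (i : ℕ) : MvPolynomial (Fin (n + 2)) ℂ)
          (X 0 ^ (N β - 1 - i))
        have h4 := degreeOf_pow_le l.succ.succ (X 1 : MvPolynomial (Fin (n + 2)) ℂ) i
        have h5 := degreeOf_pow_le l.succ.succ (X 0 : MvPolynomial (Fin (n + 2)) ℂ) (N β - 1 - i)
        rw [degreeOf_X, if_neg (by
          rw [Fin.ext_iff]
          simp)] at h4 h5
        have h6 : degreeOf l.succ.succ (X 1 ^ (i : ℕ) * X 0 ^ (N β - 1 - i) :
            MvPolynomial (Fin (n + 2)) ℂ) = 0 := by omega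
        change degreeOf l.succ.succ (X 1 ^ (i : ℕ) * X 0 ^ (N β - 1 - i) :
            MvPolynomial (Fin (n + 2)) ℂ) + degreeOf l.succ.succ
              (Psi c e f P Q P' Q' fun l => (β l : ℕ)) ≤ c l
        rw [h6, zero_add]
        exact h2
      omega
    · rw [hj, vanishesToOrder_iff_mem_ideal_pow]
      have h1 := Lam_mul_Psi_mem c q M e f P Q P' Q' hM hq hg hg' (fun l => (β l : ℕ)) (hβ β) j
      have h2 : E ⟨β, i⟩ = X 1 ^ (i : ℕ) * X 0 ^ (N β - 1 - i) *
          ((Psi c e f P Q P' Q' fun l => (β l : ℕ)) * Lam c q M) := mul_assoc _ _ _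
      rw [h2]
      exact Ideal.mul_mem_left _ _ (Ideal.pow_le_pow_right hmj h1)
  let Φ : (((β : B) × Fin (N β)) → ℂ) →ₗ[ℂ] fatForms (n + 1) d p m :=
    { toFun := fun g => ∑ x, g x • (⟨E x, hEmem x⟩ : fatForms (n + 1) d p m)
      map_add' := fun g g' => by
        rw [← sum_add_distrib]
        exact sum_congr rfl fun x _ => add_smul _ _ _
      map_smul' := fun a g => by
        rw [RingHom.id_apply, smul_sum]
        exact sum_congr rfl fun x _ => by rw [smul_smul]; rfl }
  have hinj : Function.Injective Φ := by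
    rw [injective_iff_map_eq_zero]
    intro g hg0
    have h1 : ∑ x, g x • E x = 0 := by
      have := congrArg Subtype.val hg0
      change ((∑ x, g x • (⟨E x, hEmem x⟩ : fatForms (n + 1) d p m) :
        fatForms (n + 1) d p m) : MvPolynomial (Fin (n + 2)) ℂ) = 0 at this
      rw [AddSubmonoidClass.coe_finsetSum] at this
      exact this
    have h2 : (∑ x, g x • E₀ x) * Lam c q M = 0 := by
      rw [← h1, sum_mul]
      exact sum_congr rfl fun x _ => smul_mul_assoc _ _ _
    have h3 : ∑ x, g x • E₀ x = 0 :=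
      (mul_eq_zero.1 h2).resolve_right (Lam_ne_zero c q M hq)
    let G : B → Polynomial ℂ := fun β => ∑ i : Fin (N β), Polynomial.C (g ⟨β, i⟩) *
      Polynomial.X ^ (i : ℕ)
    have hG := indep c e f P Q P' Q' (fun l => (hg l).1) (fun l => (hg l).2.1)
      (fun l => (hg' l).1) (fun l => (hg' l).2.1) hdet G (by
        intro q₀ hq₀
        have h4 := congrArg (eval q₀) h3
        rw [map_sum, map_zero, Fintype.sum_sigma] at h4
        rw [← h4]
        refine sum_congr rfl fun β _ => ?_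
        simp only [G, Polynomial.eval_finsetSum, sum_mul]
        refine sum_congr rfl fun i _ => ?_
        simp only [E₀, smul_eval, map_mul, map_pow, eval_X, hq₀, one_pow, mul_one,
          Polynomial.eval_mul, Polynomial.eval_C, Polynomial.eval_pow, Polynomial.eval_X]
        ring)
    funext x
    obtain ⟨β, i⟩ := x
    have h5 := congrArg (fun R => Polynomial.coeff R (i : ℕ)) (hG β)
    simp only [G, Polynomial.finsetSum_coeff, Polynomial.coeff_C_mul, Polynomial.coeff_X_pow,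
      Polynomial.coeff_zero] at h5
    rw [sum_eq_single i] at h5
    · simpa using h5
    · intro i' _ hne
      rw [if_neg, mul_zero]
      intro h6
      exact hne (Fin.ext h6.symm)
    · intro h6
      exact absurd (mem_univ _) h6
  have h := LinearMap.finrank_le_finrank_of_injective hinj
  rw [Module.finrank_fintype_fun_eq_card, Fintype.card_sigma] at h
  refine le_trans (le_of_eq ?_) h
  unfold hsum
  exact sum_congr rfl fun β _ => (Fintype.card_fin _).symm

/-- The lower bound for arbitrary points. -/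
theorem finrank_ge' {d : ℕ} (hM : ∀ j, ∑ l, c l ≤ M j) (hq : ∀ j, q j 0 ≠ 0)
    {κ : Type*} (p : κ → Fin (n + 2) → ℂ) (m : κ → ℕ)
    (hp : ∀ i, (∃ l : Fin n, p i = Pi.single l.succ.succ 1 ∧ m i + c l ≤ d) ∨
      ∃ j, p i = q j ∧ m i ≤ M j) :
    hsum c (d + 1 - ∑ j, (M j - ∑ l, c l)) (fun _ => (Fintype.card ι + 1) / 2)
      (fun _ => (Fintype.card ι + 2) / 2) ≤ Module.finrank ℂ (fatForms (n + 1) d p m) := by
  classical
  choose e f P Q P' Q' he hef hg hg' hdet using fun l : Fin n =>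
    exists_curves (fun j => q j 1 / q j 0) (fun j => q j l.succ.succ / q j 0)
  refine le_trans ?_ (finrank_ge c q M e f P Q P' Q' hM hq hg hg' hdet p m hp)
  refine hsum_convex c _ e f _ _ he (by omega) fun l => ?_
  rw [hef l]
  omega

end

end Pool.Agent.H49.Pencil
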