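import Pool.Agent.H49.Pencil.Special
import Pool.Agent.H49.Pencil.Lower

/-! # Exact dimension when `r - 1` points have large multiplicity -/

namespace Pool.Agent.H49.Pencil

open MvPolynomial Finset Pool.Agent.H18.Fat

variable {n : ℕ}

theorem hsum_symm (c : Fin n → ℕ) (D e f : ℕ) :
    hsum c D (fun _ => e) (fun _ => f) = hsum c D (fun _ => f) (fun _ => e) := by
  unfold hsum
  rw [← (Equiv.piCongrRight fun l : Fin n => (Fin.revPerm : Equiv.Perm (Fin (c l + 1)))).sum_comp]
  refine sum_congr rfl fun β _ => ?_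
  congr 1
  refine sum_congr rfl fun l _ => ?_
  rw [Equiv.piCongrRight_apply]
  simp only [Pi.map_apply, Fin.revPerm_apply, Fin.val_rev]
  have := (β l).2
  rw [show c l + 1 - ((β l : ℕ) + 1) = c l - β l by omega,
    show c l - (c l - (β l : ℕ)) = β l by omega, add_comm]

theorem forall_general {r k : ℕ} {κ : Type*} [Fintype κ]
    {P : κ → (Fin k → Fin (r + 1) → ℂ) → Prop} (h : ∀ i, ForGeneralPoints r k (P i)) :
    ForGeneralPoints r k fun p => ∀ i, P i p := by
  classical
  choose G hG hG' using h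
  refine ⟨∏ i, G i, prod_ne_zero_iff.2 fun i _ => hG i, fun p hp i => hG' i p ?_⟩
  rw [map_prod] at hp
  exact prod_ne_zero_iff.1 hp i (mem_univ i)

/-- The matrix with columns `v`, `e_1` and the points of `J`. -/
def colMat {R : Type*} [Zero R] [One R] {k : ℕ} (J : Fin n → Fin k) (v : Fin (n + 2) → R)
    (p : Fin k → Fin (n + 2) → R) : Matrix (Fin (n + 2)) (Fin (n + 2)) R :=
  Matrix.of fun i j => (Fin.cons (v i) (Fin.cons ((Pi.single 1 1 : Fin (n + 2) → R) i)
    fun l => p (J l) i) : Fin (n + 2) → R) j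

theorem general_col {k : ℕ} (J : Fin n ↪ Fin k) (v : (Fin k → Fin (n + 2) → ℂ) → Fin (n + 2) → ℂ)
    (V : Fin (n + 2) → MvPolynomial (Fin k × Fin (n + 2)) ℂ)
    (hV : ∀ p i, eval (fun x => p x.1 x.2) (V i) = v p i)
    (p₀ : Fin k → Fin (n + 2) → ℂ) (h0 : ∀ l, p₀ (J l) = Pi.single l.succ.succ 1)
    (h1 : v p₀ = Pi.single 0 1) :
    ForGeneralPoints (n + 1) k fun p => (colMat J (v p) p).det ≠ 0 := by
  classical
  let G : MvPolynomial (Fin k × Fin (n + 2)) ℂ := (colMat J V fun i j => X (i, j)).det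
  have hG : ∀ p : Fin k → Fin (n + 2) → ℂ, eval (fun x => p x.1 x.2) G =
      (colMat J (v p) p).det := by
    intro p
    rw [RingHom.map_det, RingHom.mapMatrix_apply]
    congr 1
    ext i j
    rw [Matrix.map_apply, colMat, colMat, Matrix.of_apply, Matrix.of_apply]
    refine Fin.cases ?_ (fun j => Fin.cases ?_ (fun l => ?_) j) j
    · rw [Fin.cons_zero, Fin.cons_zero]
      exact hV p i
    · rw [Fin.cons_succ, Fin.cons_succ, Fin.cons_zero, Fin.cons_zero, Pi.single_apply,
        Pi.single_apply]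
      split_ifs
      · exact map_one _
      · exact map_zero _
    · rw [Fin.cons_succ, Fin.cons_succ, Fin.cons_succ, Fin.cons_succ, eval_X]
  refine ⟨G, ?_, fun p hp => by rwa [hG] at hp⟩
  intro hzero
  have h2 := hG p₀
  rw [hzero, map_zero] at h2
  have h3 : colMat J (v p₀) p₀ = 1 := by
    ext i j
    rw [colMat, Matrix.of_apply, Matrix.one_apply, h1]
    refine Fin.cases ?_ (fun j => Fin.cases ?_ (fun l => ?_) j) j
    · rw [Fin.cons_zero, Pi.single_apply]
    · rw [Fin.cons_succ, Fin.cons_zero, Pi.single_apply]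
      rfl
    · rw [Fin.cons_succ, Fin.cons_succ, h0, Pi.single_apply]
  rw [h3, Matrix.det_one] at h2
  exact zero_ne_one h2

theorem first_coord_ne_zero {k : ℕ} (J : Fin n → Fin k) (p : Fin k → Fin (n + 2) → ℂ)
    (w q : Fin (n + 2) → ℂ) (hq : (colMat J (Pi.single 0 1) p).mulVec q = w)
    (hdet : (colMat J w p).det ≠ 0) : q 0 ≠ 0 := by
  intro h0
  apply hdet
  rw [← Matrix.exists_mulVec_eq_zero_iff]
  refine ⟨Pi.single 0 1 - q, ?_, ?_⟩
  · intro h
    have := congrFun h 0
    rw [Pi.sub_apply, h0, Pi.single_eq_same] at this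
    simp at this
  · funext x
    have h1 := congrFun hq x
    rw [Matrix.mulVec, dotProduct, Fin.sum_univ_succ, h0, mul_zero, zero_add] at h1
    rw [Matrix.mulVec, dotProduct, Fin.sum_univ_succ, Pi.sub_apply, h0, Pi.single_eq_same,
      sub_zero, mul_one, Pi.zero_apply]
    have h2 : ∀ j : Fin (n + 1), colMat J w p x j.succ *
        ((Pi.single 0 1 - q : Fin (n + 2) → ℂ) j.succ) =
        -(colMat J (Pi.single 0 1) p x j.succ * q j.succ) := by
      intro j
      rw [Pi.sub_apply, Pi.single_eq_of_ne (Fin.succ_ne_zero j)]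
      have h3 : colMat J w p x j.succ = colMat J (Pi.single 0 1) p x j.succ := by
        rw [colMat, colMat, Matrix.of_apply, Matrix.of_apply, Fin.cons_succ, Fin.cons_succ]
      rw [h3]
      ring
    rw [sum_congr rfl fun j _ => h2 j, sum_neg_distrib, h1]
    have h4 : colMat J w p x 0 = w x := by
      rw [colMat, Matrix.of_apply, Fin.cons_zero]
    rw [h4]
    ring

/-- Changing coordinates: general points can be moved so that those in `J` are coordinate
points. -/
theorem general_coords {k : ℕ} (J : Fin n ↪ Fin k) :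
    ForGeneralPoints (n + 1) k fun p => ∃ q : Fin k → Fin (n + 2) → ℂ,
      (∀ l, q (J l) = Pi.single l.succ.succ 1) ∧ (∀ i, (∀ l, J l ≠ i) → q i 0 ≠ 0) ∧
      ∀ (d : ℕ) (m : Fin k → ℕ), Module.finrank ℂ (fatForms (n + 1) d p m) =
        Module.finrank ℂ (fatForms (n + 1) d q m) := by
  classical
  have hA : ForGeneralPoints (n + 1) k fun p => (colMat J (Pi.single 0 1) p).det ≠ 0 := by
    refine general_col J (fun _ => Pi.single 0 1) (Pi.single 0 1) ?_
      (fun i => if h : ∃ l, J l = i then Pi.single h.choose.succ.succ 1 else 0) ?_ rfl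
    · intro p i
      rw [Pi.single_apply, Pi.single_apply]
      split_ifs
      · exact map_one _
      · exact map_zero _
    · intro l
      have h : ∃ l', J l' = J l := ⟨l, rfl⟩
      rw [dif_pos h]
      have := J.injective h.choose_spec
      rw [this]
  have hB : ∀ i : Fin k, ForGeneralPoints (n + 1) k fun p =>
      (∀ l, J l ≠ i) → (colMat J (p i) p).det ≠ 0 := by
    intro i
    by_cases hi : ∀ l, J l ≠ i
    · refine ForGeneralPoints.mono (general_col J (fun p => p i) (fun j => X (i, j)) ?_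
        (fun i' => if h : ∃ l, J l = i' then Pi.single h.choose.succ.succ 1
          else Pi.single 0 1) ?_ ?_) fun p hp _ => hp
      · intro p j
        rw [eval_X]
      · intro l
        have h : ∃ l', J l' = J l := ⟨l, rfl⟩
        rw [dif_pos h]
        have := J.injective h.choose_spec
        rw [this]
      · have h : ¬ ∃ l', J l' = i := by
          push Not
          exact hi
        rw [dif_neg h]
    · exact ForGeneralPoints.mono (ForGeneralPoints.coord_ne_zero (n + 1) k)
        fun p _ h => absurd h hi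
  refine ForGeneralPoints.mono (hA.and (forall_general hB)) ?_
  rintro p ⟨hdet, hp⟩
  set A := colMat J (Pi.single 0 1) p with hAdef
  have hunit : IsUnit A := by
    rw [Matrix.isUnit_iff_isUnit_det]
    exact isUnit_iff_ne_zero.2 hdet
  obtain ⟨B, hAB⟩ := isUnit_iff_exists_inv.1 hunit
  have hBA : B * A = 1 := mul_eq_one_comm.1 hAB
  have hAq : ∀ i, A.mulVec (B.mulVec (p i)) = p i := by
    intro i
    rw [Matrix.mulVec_mulVec, hAB, Matrix.one_mulVec]
  refine ⟨fun i => B.mulVec (p i), ?_, ?_, ?_⟩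
  · intro l
    have h1 : p (J l) = A.mulVec (Pi.single l.succ.succ 1) := by
      rw [Matrix.mulVec_single_one]
      rfl
    simp only
    rw [h1, Matrix.mulVec_mulVec, hBA, Matrix.one_mulVec]
  · intro i hi
    exact first_coord_ne_zero J p (p i) _ (hAq i) (hp i hi)
  · intro d m
    have h1 := finrank_linSubst (d := d) (fun i => B.mulVec (p i)) m hAB
    have h2 : (fun i => A.mulVec (B.mulVec (p i))) = p := funext hAq
    rw [h2] at h1
    exact h1

/-- **Main theorem.** -/
theorem main (k d : ℕ) (m : Fin k → ℕ) (J : Fin n ↪ Fin k) (c : Fin n → ℕ)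
    (hc : ∀ l, m (J l) + c l = d)
    (hS : ∀ i, (∀ l, J l ≠ i) → m i = 1 ∨ ∑ l, c l ≤ m i) (a b T : ℕ)
    (ha : a = (univ.filter fun i => (∀ l, J l ≠ i) ∧ ∑ l, c l ≤ m i).card)
    (hb : b = (univ.filter fun i => (∀ l, J l ≠ i) ∧ m i < ∑ l, c l).card)
    (hT : T = ∑ i ∈ univ.filter (fun i => (∀ l, J l ≠ i) ∧ ∑ l, c l ≤ m i), (m i - ∑ l, c l)) :
    ForGeneralPoints (n + 1) k fun p =>
      Module.finrank ℂ (fatForms (n + 1) d p m) =
        hsum c (d + 1 - T) (fun _ => (a + 1) / 2) (fun _ => (a + 2) / 2) - b := by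
  classical
  set Cc := ∑ l, c l with hCc
  let ι := {i : Fin k // (∀ l, J l ≠ i) ∧ Cc ≤ m i}
  let σ := {i : Fin k // (∀ l, J l ≠ i) ∧ m i < Cc}
  let κ := {i : Fin k // ¬ ((∀ l, J l ≠ i) ∧ m i < Cc)}
  have hι : Fintype.card ι = a := by
    rw [ha, Fintype.card_subtype]
  have hσ : Fintype.card σ = b := by
    rw [hb, Fintype.card_subtype]
  have hTι : ∑ i : ι, (m i.1 - Cc) = T := by
    rw [hT, sum_subtype (p := fun i => (∀ l, J l ≠ i) ∧ Cc ≤ m i)
      (univ.filter (fun i => (∀ l, J l ≠ i) ∧ Cc ≤ m i)) (by simp) (fun i => m i - Cc)]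
  have hκ : ∀ i : κ, (∃ l, J l = i.1) ∨ ∃ j : ι, j.1 = i.1 := by
    intro i
    by_cases h : ∃ l, J l = i.1
    · exact Or.inl h
    · push Not at h
      have h1 := i.2
      rw [not_and, not_lt] at h1
      exact Or.inr ⟨⟨i.1, h, h1 h⟩, rfl⟩
  have hσ1 : ∀ i : σ, m i.1 = 1 := by
    intro i
    rcases hS i.1 i.2.1 with h | h
    · exact h
    · have := i.2.2
      omega
  -- splitting off the simple points
  have hsplit : ∀ (p : Fin k → Fin (n + 2) → ℂ), fatForms (n + 1) d p m =
      fatForms (n + 1) d (Sum.elim (fun i : κ => p i.1) fun i : σ => p i.1)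
        (Sum.elim (fun i : κ => m i.1) fun i : σ => 1) := by
    intro p
    ext F
    constructor
    · rintro ⟨h1, h2⟩
      refine ⟨h1, ?_⟩
      rintro (i | i)
      · exact h2 i.1
      · have h3 := h2 i.1
        rw [hσ1 i] at h3
        exact h3
    · rintro ⟨h1, h2⟩
      refine ⟨h1, fun i => ?_⟩
      by_cases hi : (∀ l, J l ≠ i) ∧ m i < Cc
      · have h3 := h2 (Sum.inr ⟨i, hi⟩)
        have h4 : m i = 1 := hσ1 ⟨i, hi⟩
        rw [h4]
        exact h3
      · exact h2 (Sum.inl ⟨i, hi⟩)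
  -- lower bound
  have hlower : ForGeneralPoints (n + 1) k fun p =>
      hsum c (d + 1 - T) (fun _ => (a + 1) / 2) (fun _ => (a + 2) / 2) ≤
        Module.finrank ℂ (fatForms (n + 1) d p m) + b := by
    refine ForGeneralPoints.mono (general_coords J) ?_
    rintro p ⟨q, hq1, hq2, hq3⟩
    rw [hq3 d m, hsplit q]
    have h1 := finrank_ge' c (fun j : ι => q j.1) (fun j : ι => m j.1) (d := d)
      (fun j => j.2.2) (fun j => hq2 j.1 j.2.1) (fun i : κ => q i.1) (fun i : κ => m i.1) (by
        intro i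
        rcases hκ i with ⟨l, hl⟩ | ⟨j, hj⟩
        · left
          refine ⟨l, ?_, ?_⟩
          · rw [← hl]
            exact hq1 l
          · rw [← hl, hc l]
        · right
          exact ⟨j, by rw [hj], by rw [hj]⟩)
    rw [hTι, hι] at h1
    have h2 := finrank_add_length_ge (r := n + 1) (d := d) (by omega) (fun i : κ => q i.1)
      (fun i : κ => m i.1) (fun i : σ => q i.1) (fun i => hq2 i.1 i.2.1) (fun _ : σ => 1)
    have h3 : ∑ _j : σ, (1 + (n + 1) - 1).choose (n + 1) = b := by
      rw [show 1 + (n + 1) - 1 = n + 1 by omega, Nat.choose_self, sum_const, card_univ, hσ,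
        smul_eq_mul, mul_one]
    rw [h3] at h2
    exact h1.trans h2
  -- upper bound
  have hupper : ∃ p₀ : Fin k → Fin (n + 2) → ℂ,
      Module.finrank ℂ (fatForms (n + 1) d p₀ m) ≤
        hsum c (d + 1 - T) (fun _ => (a + 1) / 2) (fun _ => (a + 2) / 2) - b := by
    let p₁ : κ → Fin (n + 2) → ℂ := fun i =>
      if h : ∃ l, J l = i.1 then Pi.single h.choose.succ.succ 1
      else spec n ((a + 2) / 2) (i.1 : ℕ)
    have hp1 : ∀ (l : Fin n) (h : ¬ ((∀ l', J l' ≠ J l) ∧ m (J l) < Cc)),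
        p₁ ⟨J l, h⟩ = Pi.single l.succ.succ 1 := by
      intro l h
      have h' : ∃ l', J l' = J l := ⟨l, rfl⟩
      simp only [p₁]
      rw [dif_pos h', J.injective h'.choose_spec]
    have hp2 : ∀ (j : ι) (h : ¬ ((∀ l', J l' ≠ j.1) ∧ m j.1 < Cc)),
        p₁ ⟨j.1, h⟩ = spec n ((a + 2) / 2) (j.1 : ℕ) := by
      intro j h
      have h' : ¬ ∃ l', J l' = j.1 := by
        push Not
        exact j.2.1
      simp only [p₁]
      rw [dif_neg h']
    have h1 := special_finrank_le (d := d) c ((a + 2) / 2) ((a + 1) / 2) (by omega)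
      (ι := ι) (by rw [hι]; omega) (fun j => ((j.1 : ℕ) : ℂ)) (by
        intro i j hij
        have : ((i.1 : ℕ) : ℂ) = ((j.1 : ℕ) : ℂ) := hij
        exact Subtype.ext (Fin.ext (by exact_mod_cast this))) (fun j => m j.1) (fun j => j.2.2)
      p₁ (fun i => m i.1) (fun l => ⟨⟨J l, fun h => h.1 l rfl⟩, hp1 l _, (hc l).ge⟩)
      (fun j => ⟨⟨j.1, fun h => absurd h.2 (not_lt.2 j.2.2)⟩, hp2 j _, le_rfl⟩)
    rw [hTι, hsum_symm] at h1
    obtain ⟨x, _, hx⟩ := exists_simple_points (d := d) p₁ (fun i : κ => m i.1) b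
    let e' : σ ≃ Fin b := Fintype.equivFinOfCardEq hσ
    refine ⟨fun i => if hi : (∀ l, J l ≠ i) ∧ m i < Cc then x (e' ⟨i, hi⟩) else p₁ ⟨i, hi⟩, ?_⟩
    rw [hsplit]
    have heq : fatForms (n + 1) d (Sum.elim (fun i : κ =>
        (fun i => if hi : (∀ l, J l ≠ i) ∧ m i < Cc then x (e' ⟨i, hi⟩) else p₁ ⟨i, hi⟩) i.1)
        fun i : σ => (fun i => if hi : (∀ l, J l ≠ i) ∧ m i < Cc then x (e' ⟨i, hi⟩)
          else p₁ ⟨i, hi⟩) i.1) (Sum.elim (fun i : κ => m i.1) fun i : σ => 1) =
        fatForms (n + 1) d (Sum.elim p₁ x) (Sum.elim (fun i : κ => m i.1) fun _ => 1) := by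
      ext F
      constructor
      · rintro ⟨h2, h3⟩
        refine ⟨h2, ?_⟩
        rintro (i | j)
        · have h4 := h3 (Sum.inl i)
          simp only [Sum.elim_inl] at h4
          rw [dif_neg i.2] at h4
          exact h4
        · have h4 := h3 (Sum.inr (e'.symm j))
          simp only [Sum.elim_inr] at h4
          rw [dif_pos (e'.symm j).2] at h4
          have h5 : e' ⟨(e'.symm j).1, (e'.symm j).2⟩ = j := by simp
          rw [h5] at h4
          exact h4
      · rintro ⟨h2, h3⟩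
        refine ⟨h2, ?_⟩
        rintro (i | i)
        · simp only [Sum.elim_inl]
          rw [dif_neg i.2]
          exact h3 (Sum.inl i)
        · simp only [Sum.elim_inr]
          rw [dif_pos i.2]
          exact h3 (Sum.inr (e' i))
    rw [heq, hx]
    exact Nat.sub_le_sub_right h1 b
  obtain ⟨p₀, hp₀⟩ := hupper
  refine ((general_finrank_le d p₀ m).and hlower).mono ?_
  rintro p ⟨h1, h2⟩
  have h3 := h1.trans hp₀
  omega

end Pool.Agent.H49.Pencil
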