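import Pool.Agent.H49.Pencil.Num
import Pool.Agent.H49.Pencil.Generic

/-!
# The lattice model

A system is a list of points `(s, a, m)`; `V c L D` is the space of the polynomials
`∑ γ, F γ (X) y^γ` with `deg (F γ) + |γ| < D` vanishing to order `m` at `(s, a)` for every point
of the list.
-/

namespace Pool.Agent.H49.PW

open Module Polynomial

/-- A point with a multiplicity. -/
structure Pt (n : ℕ) where
  /-- the coordinate on the line -/
  s : ℂ
  /-- the other coordinates -/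
  a : Fin n → ℂ
  /-- the multiplicity -/
  m : ℕ

variable {n : ℕ} {c : Fin n → ℕ}

/-- The coefficient of the translation. -/
noncomputable def coef (a : Fin n → ℂ) (γ δ : Bx c) : ℂ :=
  ∏ l, (((δ l : ℕ).choose (γ l) : ℂ) * a l ^ ((δ l : ℕ) - (γ l : ℕ)))

/-- The coefficient of `y^γ` of a translate, with polynomial coefficients. -/
noncomputable def trX (a : Fin n → ℂ) (γ : Bx c) : (Bx c → ℂ[X]) →ₗ[ℂ] ℂ[X] :=
  ∑ δ : Bx c, coef a γ δ • LinearMap.proj δ

lemma trX_apply (a : Fin n → ℂ) (γ : Bx c) (F : Bx c → ℂ[X]) :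
    trX a γ F = ∑ δ : Bx c, C (coef a γ δ) * F δ := by
  simp [trX, Polynomial.smul_eq_C_mul]

lemma eval_trX (a : Fin n → ℂ) (γ : Bx c) (F : Bx c → ℂ[X]) (s : ℂ) :
    (trX a γ F).eval s = tr a γ (fun δ => (F δ).eval s) := by
  rw [trX_apply, tr_apply, eval_finsetSum]
  refine Finset.sum_congr rfl fun δ _ => ?_
  rw [eval_mul, eval_C]
  rfl

lemma trX_mul (a : Fin n → ℂ) (γ : Bx c) (F : Bx c → ℂ[X]) (p : ℂ[X]) :
    trX a γ (fun δ => p * F δ) = p * trX a γ F := by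
  rw [trX_apply, trX_apply, Finset.mul_sum]
  refine Finset.sum_congr rfl fun δ _ => ?_
  ring

/-- The linear system. -/
noncomputable def V (c : Fin n → ℕ) (L : List (Pt n)) (D : ℕ) : Submodule ℂ (Bx c → ℂ[X]) where
  carrier := {F | (∀ γ, (F γ).degree < ((D - dg γ : ℕ) : WithBot ℕ)) ∧
    ∀ x ∈ L, ∀ γ, (X - C x.s) ^ (x.m - dg γ) ∣ trX x.a γ F}
  add_mem' := by
    rintro F G ⟨hF1, hF2⟩ ⟨hG1, hG2⟩
    refine ⟨fun γ => ?_, fun x hx γ => ?_⟩
    · exact lt_of_le_of_lt (degree_add_le _ _) (max_lt (hF1 γ) (hG1 γ))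
    · rw [map_add]
      exact dvd_add (hF2 x hx γ) (hG2 x hx γ)
  zero_mem' := by
    refine ⟨fun γ => ?_, fun x hx γ => ?_⟩
    · simp
    · rw [map_zero]
      exact dvd_zero _
  smul_mem' := by
    rintro r F ⟨hF1, hF2⟩
    refine ⟨fun γ => ?_, fun x hx γ => ?_⟩
    · exact lt_of_le_of_lt (degree_smul_le _ _) (hF1 γ)
    · rw [map_smul, Polynomial.smul_eq_C_mul]
      exact Dvd.dvd.mul_left (hF2 x hx γ) _

lemma mem_V {L : List (Pt n)} {D : ℕ} {F : Bx c → ℂ[X]} :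
    F ∈ V c L D ↔ (∀ γ, (F γ).degree < ((D - dg γ : ℕ) : WithBot ℕ)) ∧
      ∀ x ∈ L, ∀ γ, (X - C x.s) ^ (x.m - dg γ) ∣ trX x.a γ F := Iff.rfl

/-- The system without points. -/
noncomputable def VnilEquiv (c : Fin n → ℕ) (D : ℕ) :
    V c [] D ≃ₗ[ℂ] ((γ : Bx c) → degreeLT ℂ (D - dg γ)) where
  toFun F := fun γ => ⟨F.1 γ, mem_degreeLT.2 (F.2.1 γ)⟩
  invFun G := ⟨fun γ => (G γ).1, fun γ => mem_degreeLT.1 (G γ).2, by simp⟩
  map_add' _ _ := rfl
  map_smul' _ _ := rfl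
  left_inv _ := rfl
  right_inv _ := rfl

instance (m : ℕ) : Module.Finite ℂ (degreeLT ℂ m) :=
  Module.Finite.equiv (degreeLTEquiv ℂ m).symm

lemma finrank_degreeLT (m : ℕ) : finrank ℂ (degreeLT ℂ m) = m := by
  rw [(degreeLTEquiv ℂ m).finrank_eq]
  simp

instance (D : ℕ) : Module.Finite ℂ (V c [] D) :=
  Module.Finite.equiv (VnilEquiv c D).symm

lemma finrank_V_nil (D : ℕ) : finrank ℂ (V c [] D) = ∑ γ : Bx c, (D - dg γ) := by
  rw [(VnilEquiv c D).finrank_eq, Module.finrank_pi_fintype]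
  exact Finset.sum_congr rfl fun γ _ => finrank_degreeLT _

lemma V_le_nil (L : List (Pt n)) (D : ℕ) : V c L D ≤ V c [] D := by
  intro F hF
  exact ⟨hF.1, by simp⟩

instance (L : List (Pt n)) (D : ℕ) : Module.Finite ℂ (V c L D) :=
  Submodule.finiteDimensional_of_le (V_le_nil L D)

lemma V_succ (L : List (Pt n)) (D : ℕ) : V c L D ≤ V c L (D + 1) := by
  intro F hF
  refine ⟨fun γ => ?_, hF.2⟩
  refine lt_of_lt_of_le (hF.1 γ) ?_
  exact_mod_cast (by omega : D - dg γ ≤ D + 1 - dg γ)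

lemma V_cons_le (x : Pt n) (L : List (Pt n)) (D : ℕ) : V c (x :: L) D ≤ V c L D := by
  intro F hF
  exact ⟨hF.1, fun y hy => hF.2 y (List.mem_cons_of_mem _ hy)⟩

lemma V_zero (L : List (Pt n)) : V c L 0 = ⊥ := by
  rw [eq_bot_iff]
  intro F hF
  rw [Submodule.mem_bot]
  funext γ
  have h1 := hF.1 γ
  simp only [Nat.zero_sub, Nat.cast_zero] at h1
  exact degree_eq_bot.1 (Nat.WithBot.lt_zero_iff.1 h1)

/-- Evaluation at `s`. -/
noncomputable def ev (c : Fin n → ℕ) (s : ℂ) : (Bx c → ℂ[X]) →ₗ[ℂ] (Bx c → ℂ) :=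
  LinearMap.pi fun γ => (Polynomial.leval s).comp (LinearMap.proj γ)

lemma ev_apply (s : ℂ) (F : Bx c → ℂ[X]) (γ : Bx c) : ev c s F γ = (F γ).eval s := rfl

/-- Multiplication by `X - s`. -/
noncomputable def mulS (c : Fin n → ℕ) (s : ℂ) : (Bx c → ℂ[X]) →ₗ[ℂ] (Bx c → ℂ[X]) :=
  LinearMap.pi fun γ => (LinearMap.mulLeft ℂ (X - C s)).comp (LinearMap.proj γ)

lemma mulS_apply (s : ℂ) (F : Bx c → ℂ[X]) : mulS c s F = fun γ => (X - C s) * F γ := rfl

lemma mulS_injective (s : ℂ) : Function.Injective (mulS c s) := by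
  intro F G h
  funext γ
  have h1 := congrFun h γ
  rw [mulS_apply, mulS_apply] at h1
  exact mul_left_cancel₀ (X_sub_C_ne_zero s) h1

lemma degree_mul_lt_iff (s : ℂ) (p : ℂ[X]) (D k : ℕ) :
    ((X - C s) * p).degree < ((D + 1 - k : ℕ) : WithBot ℕ) ↔
      p.degree < ((D - k : ℕ) : WithBot ℕ) := by
  by_cases hp : p = 0
  · simp [hp]
  rw [degree_mul, degree_X_sub_C, degree_eq_natDegree hp]
  have h1 : (1 : WithBot ℕ) + (p.natDegree : WithBot ℕ) = ((1 + p.natDegree : ℕ) : WithBot ℕ) := by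
    push_cast
    rfl
  rw [h1, Nat.cast_lt, Nat.cast_lt]
  omega

/-- The part of a system vanishing on the hyperplane `X = s`, `s` not the coordinate of a
point. -/
lemma V_inf_ker_ev {L : List (Pt n)} {s : ℂ} (hs : ∀ x ∈ L, x.s ≠ s) (D : ℕ) :
    V c L (D + 1) ⊓ LinearMap.ker (ev c s) = (V c L D).map (mulS c s) := by
  ext F
  rw [Submodule.mem_inf, LinearMap.mem_ker, Submodule.mem_map]
  constructor
  · rintro ⟨h1, h2⟩
    have h3 : ∀ γ, ∃ p, F γ = (X - C s) * p := fun γ => by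
      have h4 := congrFun h2 γ
      rw [ev_apply] at h4
      exact dvd_iff_isRoot.2 h4
    choose G hG using h3
    have hFG : F = fun γ => (X - C s) * G γ := funext hG
    refine ⟨G, ⟨fun γ => ?_, fun x hx γ => ?_⟩, ?_⟩
    · have h4 := h1.1 γ
      rw [hG γ, degree_mul_lt_iff] at h4
      exact h4
    · have h4 := h1.2 x hx γ
      rw [hFG, trX_mul] at h4
      have h5 : IsCoprime ((X - C x.s) ^ (x.m - dg γ)) (X - C s) := by
        apply IsCoprime.pow_left
        exact isCoprime_X_sub_C_of_isUnit_sub (IsUnit.mk0 _ (sub_ne_zero.2 (hs x hx)))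
      exact h5.dvd_of_dvd_mul_left h4
    · rw [mulS_apply]
      exact hFG.symm
  · rintro ⟨G, hG, rfl⟩
    refine ⟨⟨fun γ => ?_, fun x hx γ => ?_⟩, ?_⟩
    · rw [mulS_apply]
      exact (degree_mul_lt_iff s _ D _).2 (hG.1 γ)
    · rw [mulS_apply, trX_mul]
      exact Dvd.dvd.mul_left (hG.2 x hx γ) _
    · funext γ
      rw [ev_apply, mulS_apply]
      simp

/-- The part of a system with a point on the hyperplane `X = s` vanishing on this hyperplane. -/
lemma V_cons_inf_ker_ev {L : List (Pt n)} {s : ℂ} (hs : ∀ x ∈ L, x.s ≠ s) (a : Fin n → ℂ)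
    (m D : ℕ) :
    V c (⟨s, a, m + 1⟩ :: L) (D + 1) ⊓ LinearMap.ker (ev c s) =
      (V c (⟨s, a, m⟩ :: L) D).map (mulS c s) := by
  ext F
  rw [Submodule.mem_inf, LinearMap.mem_ker, Submodule.mem_map]
  constructor
  · rintro ⟨h1, h2⟩
    have h3 : F ∈ V c L (D + 1) ⊓ LinearMap.ker (ev c s) := ⟨V_cons_le _ _ _ h1, h2⟩
    rw [V_inf_ker_ev hs, Submodule.mem_map] at h3
    obtain ⟨G, hG, rfl⟩ := h3
    refine ⟨G, ⟨hG.1, fun x hx γ => ?_⟩, rfl⟩
    rw [List.mem_cons] at hx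
    rcases hx with rfl | hx
    · have h4 := h1.2 ⟨s, a, m + 1⟩ (List.mem_cons_self ..) γ
      simp only at h4 ⊢
      rw [mulS_apply, trX_mul] at h4
      rcases Nat.lt_or_ge m (dg γ) with h5 | h5
      · rw [Nat.sub_eq_zero_of_le h5.le, pow_zero]
        exact one_dvd _
      · rw [Nat.succ_sub h5, pow_succ'] at h4
        exact (mul_dvd_mul_iff_left (X_sub_C_ne_zero s)).1 h4
    · exact hG.2 x hx γ
  · rintro ⟨G, hG, rfl⟩
    have h3 : mulS c s G ∈ V c L (D + 1) ⊓ LinearMap.ker (ev c s) := by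
      rw [V_inf_ker_ev hs]
      exact Submodule.mem_map_of_mem (V_cons_le _ _ _ hG)
    refine ⟨⟨h3.1.1, fun x hx γ => ?_⟩, h3.2⟩
    rw [List.mem_cons] at hx
    rcases hx with rfl | hx
    · have h4 := hG.2 ⟨s, a, m⟩ (List.mem_cons_self ..) γ
      simp only at h4 ⊢
      rw [mulS_apply, trX_mul]
      rcases Nat.lt_or_ge m (dg γ) with h5 | h5
      · rw [Nat.sub_eq_zero_of_le (by omega : m + 1 ≤ dg γ), pow_zero]
        exact one_dvd _
      · rw [Nat.succ_sub h5, pow_succ']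
        exact mul_dvd_mul_left _ h4
    · exact h3.1.2 x hx γ

/-- The dimension of a system. -/
noncomputable def w (c : Fin n → ℕ) (L : List (Pt n)) (D : ℕ) : ℕ := finrank ℂ (V c L D)

/-- The values at `s` of a system. -/
noncomputable def Us (c : Fin n → ℕ) (L : List (Pt n)) (s : ℂ) (D : ℕ) :
    Submodule ℂ (Bx c → ℂ) := (V c L D).map (ev c s)

lemma finrank_map_add_inf_ker {V' W : Type*} [AddCommGroup V'] [Module ℂ V'] [AddCommGroup W]
    [Module ℂ W] (U : Submodule ℂ V') [Module.Finite ℂ U] (A : V' →ₗ[ℂ] W) :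
    finrank ℂ (U.map A) + finrank ℂ (U ⊓ LinearMap.ker A : Submodule ℂ V') = finrank ℂ U := by
  have h1 := LinearMap.finrank_range_add_finrank_ker (A.domRestrict U)
  rw [LinearMap.range_domRestrict] at h1
  rw [← h1]
  congr 1
  rw [LinearMap.ker_domRestrict]
  have h2 := Submodule.finrank_map_subtype_eq U ((LinearMap.ker A).comap U.subtype)
  rw [Submodule.map_comap_subtype] at h2
  rw [h2]

lemma finrank_map_mulS (s : ℂ) (W : Submodule ℂ (Bx c → ℂ[X])) :
    finrank ℂ (W.map (mulS c s)) = finrank ℂ W :=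
  (Submodule.equivMapOfInjective (mulS c s) (mulS_injective s) W).finrank_eq.symm

lemma w_succ {L : List (Pt n)} {s : ℂ} (hs : ∀ x ∈ L, x.s ≠ s) (D : ℕ) :
    w c L (D + 1) = finrank ℂ (Us c L s (D + 1)) + w c L D := by
  have h1 := finrank_map_add_inf_ker (V c L (D + 1)) (ev c s)
  rw [V_inf_ker_ev hs, finrank_map_mulS] at h1
  exact h1.symm

lemma w_cons_succ {L : List (Pt n)} {s : ℂ} (hs : ∀ x ∈ L, x.s ≠ s) (a : Fin n → ℂ) (m D : ℕ) :
    w c (⟨s, a, m + 1⟩ :: L) (D + 1) =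
      finrank ℂ ((V c (⟨s, a, m + 1⟩ :: L) (D + 1)).map (ev c s)) +
        w c (⟨s, a, m⟩ :: L) D := by
  have h1 := finrank_map_add_inf_ker (V c (⟨s, a, m + 1⟩ :: L) (D + 1)) (ev c s)
  rw [V_cons_inf_ker_ev hs, finrank_map_mulS] at h1
  exact h1.symm

lemma map_ev_le (L : List (Pt n)) (s : ℂ) (a : Fin n → ℂ) (m D : ℕ) :
    (V c (⟨s, a, m⟩ :: L) D).map (ev c s) ≤ Us c L s D ⊓ Wi a m := by
  rintro _ ⟨F, hF, rfl⟩
  refine ⟨Submodule.mem_map_of_mem (V_cons_le _ _ _ hF), ?_⟩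
  rw [SetLike.mem_coe, mem_Wi]
  intro δ hδ
  have h1 := hF.2 ⟨s, a, m⟩ (List.mem_cons_self ..) δ
  simp only at h1
  have h2 : (trX a δ F).eval s = 0 := by
    obtain ⟨q, hq⟩ := h1
    rw [hq, eval_mul, eval_pow, eval_sub, eval_X, eval_C, sub_self, zero_pow (by omega), zero_mul]
  rw [eval_trX] at h2
  exact h2

lemma w_cons_zero (L : List (Pt n)) (s : ℂ) (a : Fin n → ℂ) (D : ℕ) :
    w c (⟨s, a, 0⟩ :: L) D = w c L D := by
  have h1 : V c (⟨s, a, 0⟩ :: L) D = V c L D := by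
    apply le_antisymm (V_cons_le _ _ _)
    intro F hF
    refine ⟨hF.1, fun x hx γ => ?_⟩
    rw [List.mem_cons] at hx
    rcases hx with rfl | hx
    · simp
    · exact hF.2 x hx γ
  unfold w
  rw [h1]

lemma w_zero (L : List (Pt n)) : w c L 0 = 0 := by
  unfold w
  rw [V_zero]
  simp

/-- The number of conditions imposed by a point of multiplicity `m`. -/
def len (c : Fin n → ℕ) (m : ℕ) : ℕ := ∑ γ : Bx c, (m - dg γ)

lemma len_zero : len c 0 = 0 := by simp [len]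

lemma len_succ (m : ℕ) : len c (m + 1) = len c m + hP c (m + 1) := by
  unfold len hP
  rw [Finset.card_filter, ← Finset.sum_add_distrib]
  refine Finset.sum_congr rfl fun γ _ => ?_
  split_ifs <;> omega

/-- The slope inequality for generic points. -/
lemma slope_ineq {L : List (Pt n)} {s : ℂ} (hs : ∀ x ∈ L, x.s ≠ s) (a : Fin n → ℂ)
    (ha : ∀ D i, finrank ℂ (Us c L s D) * hP c i +
      sz c * finrank ℂ (Us c L s D ⊓ Wi a i : Submodule ℂ (Bx c → ℂ)) ≤
        sz c * finrank ℂ (Us c L s D)) :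
    ∀ (m D : ℕ) (f : ℕ), m ≤ D → (∀ t, t < m → f ≤ finrank ℂ (Us c L s (D - t))) →
      sz c * w c (⟨s, a, m⟩ :: L) D + f * len c m ≤ sz c * w c L D := by
  intro m
  induction m with
  | zero =>
    intro D f _ _
    rw [w_cons_zero, len_zero]
    simp
  | succ m ih =>
    intro D f hmD hf
    obtain ⟨D, rfl⟩ : ∃ D', D = D' + 1 := ⟨D - 1, by omega⟩
    have h1 := ih D f (by omega) (fun t ht => by
      have := hf (t + 1) (by omega)
      rwa [Nat.add_sub_add_right] at this)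
    have h2 := hf 0 (by omega)
    rw [Nat.sub_zero] at h2
    have h3 := w_cons_succ (c := c) hs a m D
    have h4 := Submodule.finrank_mono (map_ev_le (c := c) L s a (m + 1) (D + 1))
    have h5 := ha (D + 1) (m + 1)
    have h6 := w_succ (c := c) hs D
    rw [h3, h6, len_succ]
    have h7 : sz c * finrank ℂ ((V c (⟨s, a, m + 1⟩ :: L) (D + 1)).map (ev c s)) ≤
      sz c * finrank ℂ (Us c L s (D + 1) ⊓ Wi a (m + 1) : Submodule ℂ (Bx c → ℂ)) :=
      Nat.mul_le_mul_left _ h4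
    have h8 : f * hP c (m + 1) ≤ finrank ℂ (Us c L s (D + 1)) * hP c (m + 1) :=
      Nat.mul_le_mul_right _ h2
    nlinarith

/-- The number of conditions of a point. -/
lemma w_le_add_len (L : List (Pt n)) (x : Pt n) (D : ℕ) :
    w c L D ≤ w c (x :: L) D + len c x.m := by
  classical
  -- the conditions
  let Φ : (Bx c → ℂ[X]) →ₗ[ℂ] ((γ : Bx c) → Fin (x.m - dg γ) → ℂ) :=
    LinearMap.pi fun γ => LinearMap.pi fun i =>
      (Polynomial.lcoeff ℂ (i : ℕ)).comp ((Polynomial.taylor x.s).comp (trX x.a γ))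
  have hΦ : ∀ F γ i, Φ F γ i = (Polynomial.taylor x.s (trX x.a γ F)).coeff (i : ℕ) :=
    fun F γ i => rfl
  have h1 := finrank_map_add_inf_ker (V c L D) Φ
  have h2 : V c L D ⊓ LinearMap.ker Φ ≤ V c (x :: L) D := by
    rintro F ⟨h3, h4⟩
    rw [SetLike.mem_coe, LinearMap.mem_ker] at h4
    refine ⟨h3.1, fun y hy γ => ?_⟩
    rw [List.mem_cons] at hy
    rcases hy with rfl | hy
    · rw [X_sub_C_pow_dvd_iff, X_pow_dvd_iff]
      intro i hi
      have h5 := congrFun (congrFun h4 γ) ⟨i, hi⟩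
      rw [hΦ, taylor_apply] at h5
      exact h5
    · exact h3.2 y hy γ
  have h3 := Submodule.finrank_mono h2
  have h4 : finrank ℂ ((V c L D).map Φ) ≤ len c x.m := by
    refine (Submodule.finrank_le _).trans ?_
    rw [Module.finrank_pi_fintype]
    simp [len]
  unfold w
  omega

/-- A generic last point. -/
lemma exists_generic_point (L : List (Pt n)) (s : ℂ) :
    ∃ a : Fin n → ℂ, ∀ D i, finrank ℂ (Us c L s D) * hP c i +
      sz c * finrank ℂ (Us c L s D ⊓ Wi a i : Submodule ℂ (Bx c → ℂ)) ≤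
        sz c * finrank ℂ (Us c L s D) := by
  classical
  -- the spaces `Us` form an increasing sequence, hence take finitely many values
  have hmono : Monotone (Us c L s) := by
    apply monotone_nat_of_le_succ
    intro D
    exact Submodule.map_mono (V_succ L D)
  obtain ⟨E, hE⟩ := monotone_stabilizes_iff_noetherian.2
    (inferInstance : IsNoetherian ℂ (Bx c → ℂ)) ⟨Us c L s, hmono⟩
  obtain ⟨a, ha⟩ := exists_generic (c := c) (fun j : Fin (E + 1) => Us c L s (j : ℕ))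
  refine ⟨a, fun D i => ?_⟩
  rcases Nat.lt_or_ge D (E + 1) with h | h
  · exact ha ⟨D, h⟩ i
  · have h1 : Us c L s E = Us c L s D := hE D (by omega)
    rw [← h1]
    exact ha ⟨E, by omega⟩ i

end Pool.Agent.H49.PW
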