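import Mathlib

/-!
# The numeric potential

A profile is a convex function `w : ℕ → ℤ` with `w 0 = 0`, slopes in `[0, R]`, eventually
equal to `R D - S`.
-/

namespace Pool.Agent.H49.PW

/-- A convex profile with final slope `R` and defect `S`, together with the potential
inequalities with constant `K`. -/
structure Prof (R K S : ℤ) (w : ℕ → ℤ) : Prop where
  zero : w 0 = 0
  nonneg : ∀ D, 0 ≤ w D
  conv : ∀ D, w (D + 1) - w D ≤ w (D + 2) - w (D + 1)
  ev : ∃ E, ∀ D, E ≤ D → w D = R * D - S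
  inv : ∀ f : ℤ, 0 ≤ f → f ≤ R → ∃ E : ℕ, f * S ≤ R * (f * E - w E) + K * (f * (R - f))

lemma slope_mono {w : ℕ → ℤ} (conv : ∀ D, w (D + 1) - w D ≤ w (D + 2) - w (D + 1))
    {D E : ℕ} (h : D ≤ E) : w (D + 1) - w D ≤ w (E + 1) - w E := by
  induction E, h using Nat.le_induction with
  | base => exact le_rfl
  | succ E _ ih => exact ih.trans (conv E)

lemma slope_le_right {w : ℕ → ℤ} {f : ℤ} {D E : ℕ} (h : D ≤ E)
    (hs : ∀ F, D ≤ F → F < E → w (F + 1) - w F ≤ f) : w E - w D ≤ f * (E - D) := by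
  induction E, h using Nat.le_induction with
  | base => simp
  | succ E hE ih =>
    have h1 := ih (fun F h1 h2 => hs F h1 (by omega))
    have h2 := hs E hE (by omega)
    push_cast
    linarith

lemma slope_ge_right {w : ℕ → ℤ} {f : ℤ} {D E : ℕ} (h : D ≤ E)
    (hs : ∀ F, D ≤ F → F < E → f ≤ w (F + 1) - w F) : f * (E - D) ≤ w E - w D := by
  induction E, h using Nat.le_induction with
  | base => simp
  | succ E hE ih =>
    have h1 := ih (fun F h1 h2 => hs F h1 (by omega))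
    have h2 := hs E hE (by omega)
    push_cast
    linarith

lemma Prof.slope_ev {R K S : ℤ} {w : ℕ → ℤ} (h : Prof R K S w) :
    ∃ E, ∀ D, E ≤ D → w (D + 1) - w D = R := by
  obtain ⟨E, hE⟩ := h.ev
  refine ⟨E, fun D hD => ?_⟩
  rw [hE D hD, hE (D + 1) (by omega)]
  push_cast
  ring

lemma Prof.slope_le {R K S : ℤ} {w : ℕ → ℤ} (h : Prof R K S w) (D : ℕ) :
    w (D + 1) - w D ≤ R := by
  obtain ⟨E, hE⟩ := h.slope_ev
  calc w (D + 1) - w D ≤ w (max D E + 1) - w (max D E) := slope_mono h.conv (le_max_left _ _)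
    _ = R := hE _ (le_max_right _ _)

/-- The break point of slope `f`: the first `D` with slope `≥ f`. It maximises `f D - w D`. -/
lemma exists_break {R K S : ℤ} {w : ℕ → ℤ} (h : Prof R K S w) {f : ℤ} (hf : f ≤ R) :
    ∃ D : ℕ, f ≤ w (D + 1) - w D ∧ (∀ E, E < D → w (E + 1) - w E < f) ∧
      ∀ E : ℕ, f * E - w E ≤ f * D - w D := by
  classical
  obtain ⟨E₀, hE₀⟩ := h.slope_ev
  have hex : ∃ D : ℕ, f ≤ w (D + 1) - w D := ⟨E₀, by rw [hE₀ E₀ le_rfl]; exact hf⟩
  refine ⟨Nat.find hex, Nat.find_spec hex, fun E hE => not_le.1 (Nat.find_min hex hE),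
    fun E => ?_⟩
  rcases le_total E (Nat.find hex) with hE | hE
  · have h1 := slope_le_right (w := w) (f := f) hE
      (fun F _ hF => (not_le.1 (Nat.find_min hex hF)).le)
    linarith
  · have h1 := slope_ge_right (w := w) (f := f) hE
      (fun F hF _ => (Nat.find_spec hex).trans (slope_mono h.conv hF))
    linarith

/-- Adding a point of small multiplicity `m`. -/
lemma Prof.step {R K S ℓ : ℤ} {w w' : ℕ → ℤ} {m : ℕ} (h : Prof R K S w)
    (hR : 0 ≤ R)
    (zero' : w' 0 = 0) (nonneg' : ∀ D, 0 ≤ w' D)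
    (conv' : ∀ D, w' (D + 1) - w' D ≤ w' (D + 2) - w' (D + 1))
    (ev' : ∃ E, ∀ D, E ≤ D → w' D = R * D - (S + ℓ))
    (hle : ∀ D, w' D ≤ w D)
    (hstep : ∀ (f : ℤ) (D : ℕ), 0 ≤ f → m ≤ D → (∀ t, t < m → f ≤ w (D - t) - w (D - 1 - t)) →
      R * w' D + f * ℓ ≤ R * w D)
    (hKR : ∀ f : ℤ, 0 ≤ f → f ≤ R - 1 → R * (m - 1) + 2 * (f * ℓ) ≤ 2 * K) :
    Prof R K (S + ℓ) w' := by
  refine ⟨zero', nonneg', conv', ev', fun f hf0 hfR => ?_⟩
  rcases eq_or_lt_of_le hf0 with hf0' | hf0'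
  · refine ⟨0, ?_⟩
    rw [← hf0', zero']
    simp
  rcases eq_or_lt_of_le hfR with hfR' | hfR'
  · obtain ⟨E, hE⟩ := ev'
    refine ⟨E, ?_⟩
    rw [hE E le_rfl, hfR']
    apply le_of_eq
    ring
  -- the break points
  obtain ⟨D₀, hD₀, hD₀', hD₀''⟩ := exists_break h hfR
  obtain ⟨D₁, hD₁, hD₁', hD₁''⟩ := exists_break h (f := f + 1) (by linarith)
  have h01 : D₀ ≤ D₁ := by
    by_contra hcon
    push Not at hcon
    have := hD₀' D₁ hcon
    linarith
  have hmid : ∀ E, D₀ ≤ E → E < D₁ → w (E + 1) - w E = f := fun E h1 h2 => by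
    have h3 := hD₁' E h2
    have h4 := hD₀.trans (slope_mono h.conv h1)
    linarith
  have heq : f * D₁ - w D₁ = f * D₀ - w D₀ := by
    have h1 := slope_le_right (w := w) (f := f) h01 (fun E h1 h2 => (hmid E h1 h2).le)
    have h2 := slope_ge_right (w := w) (f := f) h01 (fun E h1 h2 => (hmid E h1 h2).ge)
    linarith
  refine ⟨D₁, ?_⟩
  rcases Nat.lt_or_ge (D₁ - D₀) m with hgap | hgap
  · -- small gap
    obtain ⟨E₁, hE₁⟩ := h.inv (f + 1) (by linarith) (by linarith)
    obtain ⟨E₂, hE₂⟩ := h.inv (f - 1) (by linarith) (by linarith)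
    have h1 := hD₁'' E₁
    have h2 : (f - 1) * E₂ - w E₂ ≤ (f - 1) * D₀ - w D₀ := by
      rcases le_total E₂ D₀ with hE | hE
      · have h1 := slope_le_right (w := w) (f := f - 1) hE
          (fun F _ hF => by have := hD₀' F hF; linarith)
        linarith
      · have h1 := slope_ge_right (w := w) (f := f) hE
          (fun F hF _ => hD₀.trans (slope_mono h.conv hF))
        have h2 : (D₀ : ℤ) ≤ E₂ := by exact_mod_cast hE
        nlinarith
    have h3 := hle D₁
    have h4 : (D₁ : ℤ) - D₀ ≤ m - 1 := by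
      have : (D₁ : ℤ) - D₀ = ((D₁ - D₀ : ℕ) : ℤ) := by push_cast [h01]; ring
      rw [this]
      have : (D₁ - D₀ : ℕ) + 1 ≤ m := hgap
      have : (((D₁ - D₀ : ℕ) : ℤ)) + 1 ≤ m := by exact_mod_cast this
      linarith
    have h5 := hKR f hf0 (by linarith)
    have h6 : R * ((f + 1) * E₁ - w E₁) ≤ R * ((f + 1) * D₁ - w D₁) :=
      mul_le_mul_of_nonneg_left h1 hR
    have h7 : R * ((f - 1) * E₂ - w E₂) ≤ R * ((f - 1) * D₀ - w D₀) :=
      mul_le_mul_of_nonneg_left h2 hR
    have h8 : R * (w' D₁) ≤ R * w D₁ := mul_le_mul_of_nonneg_left h3 hR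
    have h9 : R * ((D₁ : ℤ) - D₀) ≤ R * (m - 1) := mul_le_mul_of_nonneg_left h4 hR
    have h10 : R * (f * D₁ - w D₁) = R * (f * D₀ - w D₀) := by rw [heq]
    nlinarith
  · -- large gap
    obtain ⟨E₁, hE₁⟩ := h.inv f hf0 hfR
    have h1 := hD₀'' E₁
    have h2 := hstep f D₁ hf0 (by omega) (fun t ht => by
      have h3 := hmid (D₁ - 1 - t) (by omega) (by omega)
      have h4 : D₁ - 1 - t + 1 = D₁ - t := by omega
      rw [h4] at h3
      exact h3.ge)
    have h3 : R * (f * E₁ - w E₁) ≤ R * (f * D₀ - w D₀) := mul_le_mul_of_nonneg_left h1 hR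
    have h10 : R * (f * D₁ - w D₁) = R * (f * D₀ - w D₀) := by rw [heq]
    nlinarith

/-- Shifting a profile. -/
lemma Prof.shift {R K S : ℤ} {w w' : ℕ → ℤ} {e : ℕ} (h : Prof R K S w)
    (h1 : ∀ D, w' (D + e) = w D) (h2 : ∀ D, D ≤ e → w' D = 0) : Prof R K (S + R * e) w' := by
  refine ⟨h2 0 (Nat.zero_le _), fun D => ?_, fun D => ?_, ?_, fun f hf0 hfR => ?_⟩
  · rcases le_total D e with hD | hD
    · rw [h2 D hD]
    · obtain ⟨D', rfl⟩ := Nat.exists_eq_add_of_le hD
      rw [add_comm, h1]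
      exact h.nonneg D'
  · rcases le_total e D with hD | hD
    · obtain ⟨D', rfl⟩ := Nat.exists_eq_add_of_le hD
      rw [show e + D' + 1 = D' + 1 + e by ring, show e + D' = D' + e by ring,
        show D' + e + 2 = D' + 2 + e by ring, h1, h1, h1]
      exact h.conv D'
    · rcases Nat.lt_or_ge D e with hD2 | hD2
      · rw [h2 D hD, h2 (D + 1) (by omega)]
        rcases Nat.lt_or_ge (D + 1) e with hD3 | hD3
        · rw [h2 (D + 2) (by omega)]
        · have h3 : D + 2 = 1 + e := by omega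
          rw [h3, h1]
          have := h.nonneg 1
          linarith
      · have h3 : D = e := le_antisymm hD hD2
        subst h3
        have h4 := h.conv 0
        have h5 := h.zero
        rw [show D + 1 = 1 + D by ring, show D + 2 = 2 + D by ring, h1, h1, h2 D le_rfl]
        simp only [zero_add] at h4
        rw [h5] at h4
        linarith
  · obtain ⟨E, hE⟩ := h.ev
    refine ⟨E + e, fun D hD => ?_⟩
    obtain ⟨D', rfl⟩ := Nat.exists_eq_add_of_le (show e ≤ D by omega)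
    rw [show e + D' = D' + e by ring, h1, hE D' (by omega)]
    push_cast
    ring
  · obtain ⟨E, hE⟩ := h.inv f hf0 hfR
    refine ⟨E + e, ?_⟩
    rw [h1]
    push_cast
    nlinarith

/-- The value of a profile outside the window. -/
lemma Prof.eq_of_ge {R K S : ℤ} {w : ℕ → ℤ} (h : Prof R K S w) (hR : 1 ≤ R) {D : ℕ}
    (hD : S + K * (R - 1) ≤ R * D) : w D = R * D - S := by
  obtain ⟨E₁, hE₁, hE₁', hE₁''⟩ := exists_break h (f := R) le_rfl
  -- the slopes from `E₁` on are equal to `R`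
  have hs : ∀ E, E₁ ≤ E → w (E + 1) - w E = R := fun E hE =>
    le_antisymm (h.slope_le E) (hE₁.trans (slope_mono h.conv hE))
  have hform : ∀ E, E₁ ≤ E → w E = R * E - S := by
    obtain ⟨E₂, hE₂⟩ := h.ev
    have hbase : w E₁ = R * E₁ - S := by
      have h1 := slope_le_right (w := w) (f := R) (le_max_left E₁ E₂)
        (fun E h1 _ => (hs E h1).le)
      have h2 := slope_ge_right (w := w) (f := R) (le_max_left E₁ E₂)
        (fun E h1 _ => (hs E h1).ge)
      have h3 := hE₂ (max E₁ E₂) (le_max_right _ _)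
      linarith
    intro E hE
    have h1 := slope_le_right (w := w) (f := R) hE (fun E h1 _ => (hs E h1).le)
    have h2 := slope_ge_right (w := w) (f := R) hE (fun E h1 _ => (hs E h1).ge)
    linarith
  apply hform
  obtain ⟨E, hE⟩ := h.inv (R - 1) (by linarith) (by linarith)
  have h1 : (R - 1) * E - w E ≤ (R - 1) * E₁ - w E₁ := by
    rcases le_total E E₁ with hEE | hEE
    · have h1 := slope_le_right (w := w) (f := R - 1) hEE
        (fun F _ hF => by have := hE₁' F hF; linarith)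
      linarith
    · have h1 := slope_ge_right (w := w) (f := R) hEE
        (fun F hF _ => (hs F hF).ge)
      have h2 : (E₁ : ℤ) ≤ E := by exact_mod_cast hEE
      nlinarith
  have h2 := hform E₁ le_rfl
  have h3 : R * ((R - 1) * E - w E) ≤ R * ((R - 1) * E₁ - w E₁) :=
    mul_le_mul_of_nonneg_left h1 (by linarith)
  have h4 : R * (E₁ : ℤ) ≤ R * D := by
    rw [h2] at h3
    nlinarith
  have h5 : (E₁ : ℤ) ≤ D := le_of_mul_le_mul_left h4 (by linarith)
  exact_mod_cast h5

lemma Prof.eq_zero_of_le {R K S : ℤ} {w : ℕ → ℤ} (h : Prof R K S w) (hR : 1 ≤ R) {D : ℕ}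
    (hD : R * D + K * (R - 1) ≤ S) : w D = 0 := by
  obtain ⟨E₁, hE₁, hE₁', hE₁''⟩ := exists_break h (f := 1) hR
  have hzero : ∀ E, E ≤ E₁ → w E = 0 := by
    intro E hE
    have h1 := slope_le_right (w := w) (f := 0) (Nat.zero_le E)
      (fun F _ h1 => by have := hE₁' F (by omega); linarith)
    have h2 := h.nonneg E
    have h3 := h.zero
    rw [h3] at h1
    simp only [zero_mul, sub_zero] at h1
    linarith
  apply hzero
  obtain ⟨E, hE⟩ := h.inv 1 zero_le_one hR
  have h1 := hE₁'' E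
  have h2 := hzero E₁ le_rfl
  rw [h2] at h1
  have h3 : R * (1 * (E : ℤ) - w E) ≤ R * (1 * (E₁ : ℤ) - 0) :=
    mul_le_mul_of_nonneg_left h1 (by linarith)
  have h4 : R * (D : ℤ) ≤ R * E₁ := by linarith
  have h5 : (D : ℤ) ≤ E₁ := le_of_mul_le_mul_left h4 (by linarith)
  exact_mod_cast h5

end Pool.Agent.H49.PW
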