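import Pool.Agent.H49.Pencil.Comb

/-! # The abstract upper bound -/

namespace Pool.Agent.H49.Pencil

open Finset Polynomial

/-- the box `∏ [0, c_l]` -/
def box {n : ℕ} (c : Fin n → ℕ) : Finset (Fin n → ℕ) :=
  Fintype.piFinset (fun l => range (c l + 1))

theorem mem_box {n : ℕ} {c δ : Fin n → ℕ} : δ ∈ box c ↔ ∀ l, δ l ≤ c l := by
  rw [box, Fintype.mem_piFinset]
  simp only [mem_range, Nat.lt_succ_iff]

/-- The Taylor coefficient of `∑ F_δ(s) x^δ` along the curve `x_l = s^e`. -/
noncomputable def HH {n : ℕ} (c : Fin n → ℕ) (e : ℕ) (F : (Fin n → ℕ) → ℂ[X])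
    (γ : Fin n → ℕ) : ℂ[X] :=
  ∑ δ ∈ box c, C (∏ l, ((δ l).choose (γ l) : ℂ)) * X ^ (e * (∑ l, δ l - ∑ l, γ l)) * F δ

theorem prod_choose_eq_zero {n : ℕ} {δ γ : Fin n → ℕ} (h : ¬ ∀ l, γ l ≤ δ l) :
    ∏ l, ((δ l).choose (γ l) : ℂ) = 0 := by
  push Not at h
  obtain ⟨l, hl⟩ := h
  exact prod_eq_zero (mem_univ l) (by rw [Nat.choose_eq_zero_of_lt hl, Nat.cast_zero])

/-- Degree bound for the leading Taylor coefficients. -/
theorem lead_degree {n : ℕ} (c : Fin n → ℕ) (e d j N : ℕ) (he : 1 ≤ e)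
    (F : (Fin n → ℕ) → ℂ[X])
    (hF : ∀ δ ∈ box c, ∀ k, d < k + ∑ l, δ l → (F δ).coeff k = 0)
    (h0 : ∀ γ ∈ box c, ∑ l, γ l < j → HH c e F γ = 0) (hjC : j ≤ ∑ l, c l)
    (hN : d + (e - 1) * (∑ l, c l - j) < N + e * j) (γ : Fin n → ℕ) (hγ : ∑ l, γ l = j) :
    (HH c e F γ).coeff N = 0 := by
  classical
  set z : (Fin n → ℕ) → ℂ := fun δ =>
    if e * ∑ l, δ l ≤ N + e * j then (F δ).coeff (N + e * j - e * ∑ l, δ l) else 0 with hz
  have hcoef : ∀ γ' : Fin n → ℕ, ∑ l, γ' l ≤ j →
      (HH c e F γ').coeff (N + e * (j - ∑ l, γ' l)) =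
        ∑ δ ∈ box c, (∏ l, ((δ l).choose (γ' l) : ℂ)) * z δ := by
    intro γ' hγ'
    rw [HH, finsetSum_coeff]
    refine sum_congr rfl fun δ _ => ?_
    rw [mul_assoc, coeff_C_mul, coeff_X_pow_mul']
    by_cases hle : ∀ l, γ' l ≤ δ l
    · congr 1
      have h1 : ∑ l, γ' l ≤ ∑ l, δ l := sum_le_sum fun l _ => hle l
      obtain ⟨t, ht⟩ : ∃ t, j = ∑ l, γ' l + t := ⟨j - ∑ l, γ' l, by omega⟩
      obtain ⟨u, hu⟩ : ∃ u, ∑ l, δ l = ∑ l, γ' l + u := ⟨∑ l, δ l - ∑ l, γ' l, by omega⟩
      rw [hz]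
      simp only
      rw [hu, ht, Nat.add_sub_cancel_left, Nat.add_sub_cancel_left, mul_add, mul_add]
      have h2 : (e * u ≤ N + e * t) ↔
          (e * ∑ l, γ' l + e * u ≤ N + (e * ∑ l, γ' l + e * t)) := by omega
      have h3 : N + (e * ∑ l, γ' l + e * t) - (e * ∑ l, γ' l + e * u) = N + e * t - e * u := by
        omega
      rw [h3]
      by_cases h4 : e * u ≤ N + e * t
      · rw [if_pos h4, if_pos (h2.1 h4)]
      · rw [if_neg h4, if_neg fun h5 => h4 (h2.2 h5)]
    · rw [prod_choose_eq_zero hle, zero_mul, zero_mul]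
  have hzero : ∀ δ ∈ box c, z δ = 0 := by
    apply box_eq_zero c j z
    · intro δ hδ hle
      rw [hz]
      simp only
      split_ifs with h1
      · apply hF δ hδ
        have h2 : (e - 1) * ∑ l, δ l ≤ (e - 1) * (∑ l, c l - j) :=
          Nat.mul_le_mul_left _ (by omega)
        have h3 : e * ∑ l, δ l = (e - 1) * ∑ l, δ l + ∑ l, δ l := by
          obtain ⟨e', rfl⟩ : ∃ e', e = e' + 1 := ⟨e - 1, by omega⟩
          rw [Nat.add_sub_cancel]
          ring
        omega
      · rfl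
    · intro γ' hγ'
      change ∑ δ ∈ box c, (∏ l, ((δ l).choose (γ' l) : ℂ)) * z δ = 0
      by_cases hmem : γ' ∈ box c
      · rw [← hcoef γ' hγ'.le, h0 γ' hmem hγ', coeff_zero]
      · refine sum_eq_zero fun δ hδ => ?_
        rw [prod_choose_eq_zero, zero_mul]
        intro hle
        exact hmem (mem_box.2 fun l => (hle l).trans (mem_box.1 hδ l))
  have h1 := hcoef γ hγ.le
  rw [hγ, Nat.sub_self, mul_zero, add_zero] at h1
  rw [h1]
  exact sum_eq_zero fun δ hδ => by rw [hzero δ hδ, mul_zero]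

/-- If all Taylor coefficients vanish then so does the form. -/
theorem eq_zero_of_HH {n : ℕ} (c : Fin n → ℕ) (e : ℕ) (F : (Fin n → ℕ) → ℂ[X])
    (h : ∀ γ ∈ box c, HH c e F γ = 0) : ∀ δ ∈ box c, F δ = 0 := by
  classical
  by_contra hcon
  push Not at hcon
  obtain ⟨δ₁, hδ₁, hz₁⟩ := hcon
  obtain ⟨δ, hδ, hmax⟩ := exists_max_image ((box c).filter fun δ => F δ ≠ 0) (fun δ => ∑ l, δ l)
    ⟨δ₁, mem_filter.2 ⟨hδ₁, hz₁⟩⟩
  rw [mem_filter] at hδ
  obtain ⟨hδ, hz⟩ := hδ
  have h1 := h δ hδ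
  rw [HH, sum_eq_single δ] at h1
  · apply hz
    have : ∏ l, ((δ l).choose (δ l) : ℂ) = 1 :=
      prod_eq_one fun l _ => by rw [Nat.choose_self, Nat.cast_one]
    rw [this, Nat.sub_self, mul_zero, pow_zero, C_1, one_mul, one_mul] at h1
    exact h1
  · intro δ' hδ' hne
    by_cases hall : ∀ l, δ l ≤ δ' l
    · have hlt' : ∑ l, δ l < ∑ l, δ' l := by
        refine lt_of_le_of_ne (sum_le_sum fun l _ => hall l) fun heq => hne ?_
        funext l
        by_contra hl
        have : ∑ l, δ l < ∑ l, δ' l :=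
          sum_lt_sum (fun l _ => hall l) ⟨l, mem_univ l, lt_of_le_of_ne (hall l) fun h => hl h.symm⟩
        omega
      have hz' : F δ' = 0 := by
        by_contra hz'
        have := hmax δ' (mem_filter.2 ⟨hδ', hz'⟩)
        omega
      rw [hz', mul_zero]
    · rw [prod_choose_eq_zero hall, C_0, zero_mul, zero_mul]
  · intro h2
    exact absurd hδ h2

/-- A form in the special system which is killed by the right number of functionals is zero. -/
theorem eq_zero_of_conditions {n : ℕ} (c : Fin n → ℕ) (e f d : ℕ) (he : 1 ≤ e)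
    (F : (Fin n → ℕ) → ℂ[X])
    (hF : ∀ δ ∈ box c, ∀ k, d < k + ∑ l, δ l → (F δ).coeff k = 0)
    {ι : Type*} [Fintype ι] (hef : e + f = Fintype.card ι + 1) (s : ι → ℂ)
    (hs : Function.Injective s) (M : ι → ℕ) (hM : ∀ i, ∑ l, c l ≤ M i)
    (u : ℕ → ℂ) (hu : Function.Injective u) (hus : ∀ k i, u k ≠ s i)
    (hdiv : ∀ γ ∈ box c, ∀ i, (X - C (s i)) ^ (M i - ∑ l, γ l) ∣ HH c e F γ)
    (heval : ∀ γ ∈ box c, ∀ k, k < d + 1 - (∑ i, (M i - ∑ l, c l) +
      (∑ l, γ l * e + ∑ l, (c l - γ l) * f)) → (HH c e F γ).eval (u k) = 0) :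
    ∀ δ ∈ box c, F δ = 0 := by
  classical
  apply eq_zero_of_HH c e
  have key : ∀ j, ∀ γ ∈ box c, ∑ l, γ l = j → HH c e F γ = 0 := by
    intro j
    induction j using Nat.strong_induction_on with
    | _ j ih =>
      intro γ hγ hγj
      by_contra hne
      have hle := mem_box.1 hγ
      have hsum : ∑ l, (c l - γ l) + ∑ l, γ l = ∑ l, c l := by
        rw [← sum_add_distrib]
        exact sum_congr rfl fun l _ => Nat.sub_add_cancel (hle l)
      have hjC : j ≤ ∑ l, c l := by omega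
      set Nγ := d + 1 - (∑ i, (M i - ∑ l, c l) + (∑ l, γ l * e + ∑ l, (c l - γ l) * f)) with hNγ
      -- the product divides
      have hd1 : (∏ i, (X - C (s i)) ^ (M i - j)) ∣ HH c e F γ := by
        apply Finset.prod_dvd_of_coprime
        · intro i _ i' _ hii
          exact ((pairwise_coprime_X_sub_C hs) hii).pow
        · intro i _
          rw [← hγj]
          exact hdiv γ hγ i
      have hd2 : (∏ k ∈ range Nγ, (X - C (u k))) ∣ HH c e F γ := by
        apply Finset.prod_dvd_of_coprime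
        · intro i _ i' _ hii
          exact (pairwise_coprime_X_sub_C hu) hii
        · intro k hk
          rw [dvd_iff_isRoot]
          exact heval γ hγ k (mem_range.1 hk)
      have hcop : IsCoprime (∏ i, (X - C (s i)) ^ (M i - j)) (∏ k ∈ range Nγ, (X - C (u k))) := by
        refine IsCoprime.prod_left fun i _ => IsCoprime.pow_left ?_
        refine IsCoprime.prod_right fun k _ => ?_
        exact isCoprime_X_sub_C_of_isUnit_sub
          (isUnit_iff_ne_zero.2 (sub_ne_zero.2 (hus k i).symm))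
      have hd := hcop.mul_dvd hd1 hd2
      have hmon1 : (∏ i, (X - C (s i)) ^ (M i - j)).Monic :=
        monic_prod_of_monic _ _ fun i _ => (monic_X_sub_C _).pow _
      have hmon2 : (∏ k ∈ range Nγ, (X - C (u k))).Monic :=
        monic_prod_of_monic _ _ fun k _ => monic_X_sub_C _
      have hdeg := natDegree_le_of_dvd hd hne
      rw [hmon1.natDegree_mul hmon2,
        natDegree_prod_of_monic _ _ (fun i _ => (monic_X_sub_C _).pow _),
        natDegree_prod_of_monic _ _ (fun k _ => monic_X_sub_C _)] at hdeg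
      simp only [natDegree_X_sub_C, (monic_X_sub_C _).natDegree_pow, mul_one, sum_const,
        card_range, smul_eq_mul] at hdeg
      -- the degree bound
      have hlead : (HH c e F γ).natDegree + e * j ≤ d + (e - 1) * (∑ l, c l - j) := by
        by_contra hlt
        push Not at hlt
        have h1 := lead_degree c e d j (HH c e F γ).natDegree he F hF
          (fun γ' hγ' hlt' => ih _ hlt' γ' hγ' rfl) hjC hlt γ hγj
        exact hne (leadingCoeff_eq_zero.1 h1)
      -- arithmetic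
      have hMs : ∑ i, (M i - j) = ∑ i, (M i - ∑ l, c l) + Fintype.card ι * (∑ l, c l - j) := by
        rw [← smul_eq_mul, ← Finset.card_univ, ← sum_const, ← sum_add_distrib]
        exact sum_congr rfl fun i _ => by have := hM i; omega
      have h2 : ∑ l, γ l * e = j * e := by rw [← sum_mul, hγj]
      have h3 : ∑ l, (c l - γ l) * f = (∑ l, c l - j) * f := by
        rw [← sum_mul]
        congr 1
        omega
      rw [h2, h3] at hNγ
      generalize ∑ l, c l - j = Y at *
      have h4 : Fintype.card ι * Y + Y = e * Y + Y * f := by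
        have : (Fintype.card ι + 1) * Y = (e + f) * Y := by rw [hef]
        nlinarith
      have h5 : (e - 1) * Y + Y = e * Y := by
        obtain ⟨e', rfl⟩ : ∃ e', e = e' + 1 := ⟨e - 1, by omega⟩
        rw [Nat.add_sub_cancel]
        ring
      have h6 : j * e = e * j := mul_comm _ _
      rw [hMs] at hdeg
      generalize Fintype.card ι * Y = p1 at *
      generalize (e - 1) * Y = p2 at *
      generalize e * Y = p3 at *
      generalize Y * f = p4 at *
      generalize e * j = p5 at *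
      generalize j * e = p6 at *
      omega
  exact fun γ hγ => key _ γ hγ rfl

end Pool.Agent.H49.Pencil
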