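import Pool.Agent.H18.FatToric
import Pool.Agent.H49.Pencil.Upper

/-! # The special configuration -/

namespace Pool.Agent.H49.Pencil

open MvPolynomial Finset Pool.Agent.H18.Fat

variable {n : ℕ}

/-- The substitution `t = 1`, `x_l = y_l + s^e`. -/
noncomputable def theta (n e : ℕ) :
    MvPolynomial (Fin (n + 2)) ℂ →ₐ[ℂ] MvPolynomial (Fin n) (Polynomial ℂ) :=
  aeval (Fin.cons 1 (Fin.cons (C Polynomial.X) fun l => X l + C (Polynomial.X ^ e)))

/-- The special points, on the curve `x_l = s^e`. -/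
def spec (n e : ℕ) (s : ℂ) : Fin (n + 2) → ℂ := Fin.cons 1 (Fin.cons s fun _ => s ^ e)

theorem coeff_prod_X_add_C {R : Type*} [CommRing R] (a : R) (δ : Fin n → ℕ) (γ : Fin n →₀ ℕ) :
    coeff γ (∏ l, (X l + C a : MvPolynomial (Fin n) R) ^ (δ l)) =
      ∏ l, (((δ l).choose (γ l) : R) * a ^ (δ l - γ l)) := by
  classical
  have h1 : ∀ j : Fin n, (X j + C a : MvPolynomial (Fin n) R) ^ (δ j) =
      ∑ b ∈ range (δ j + 1), monomial (Finsupp.single j b)
        (((δ j).choose b : R) * a ^ (δ j - b)) := by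
    intro j
    rw [add_pow]
    refine sum_congr rfl fun b _ => ?_
    rw [X_pow_eq_monomial, ← C_pow, mul_assoc, mul_comm (C (a ^ (δ j - b)))]
    rw [← C_eq_coe_nat, ← C_mul, mul_comm, C_mul_monomial, mul_one]
  simp_rw [h1]
  rw [prod_univ_sum, coeff_sum]
  have h2 : ∀ x ∈ Fintype.piFinset fun j => range (δ j + 1),
      coeff γ (∏ j, monomial (Finsupp.single j (x j))
        (((δ j).choose (x j) : R) * a ^ (δ j - x j)) : MvPolynomial (Fin n) R) =
      if x = ⇑γ then ∏ l, (((δ l).choose (γ l) : R) * a ^ (δ l - γ l)) else 0 := by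
    intro x _
    rw [← monomial_sum_prod, coeff_monomial]
    have h4 : (∑ j, Finsupp.single j (x j)) = Finsupp.equivFunOnFinite.symm x := by
      rw [Finsupp.equivFunOnFinite_symm_eq_sum]
    rw [h4]
    by_cases hx : x = ⇑γ
    · subst hx
      simp
    · rw [if_neg, if_neg hx]
      intro h5
      apply hx
      rw [← h5]
      simp
  rw [sum_congr rfl h2, sum_ite_eq']
  split_ifs with h
  · rfl
  · rw [Fintype.mem_piFinset] at h
    push Not at h
    obtain ⟨j, hj⟩ := h
    rw [mem_range] at hj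
    symm
    apply prod_eq_zero (mem_univ j)
    rw [Nat.choose_eq_zero_of_lt (by omega)]
    simp

theorem theta_monomial (e : ℕ) (α : Fin (n + 2) →₀ ℕ) (a : ℂ) :
    theta n e (monomial α a) = C (Polynomial.monomial (α 1) a) *
      ∏ l : Fin n, (X l + C (Polynomial.X ^ e) : MvPolynomial (Fin n) (Polynomial ℂ)) ^
        (α l.succ.succ) := by
  unfold theta
  rw [aeval_monomial, Finsupp.prod_fintype _ _ (by intro i; simp), Fin.prod_univ_succ,
    Fin.prod_univ_succ]
  simp only [Fin.cons_zero, Fin.cons_succ, one_pow, one_mul, Fin.succ_zero_eq_one]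
  rw [← mul_assoc]
  congr 1
  have h1 : (Fin.cons 1 (Fin.cons (C Polynomial.X) fun l : Fin n => X l + C (Polynomial.X ^ e)) :
      Fin (n + 2) → MvPolynomial (Fin n) (Polynomial ℂ)) 1 = C Polynomial.X := rfl
  rw [h1, ← C_pow, ← Polynomial.C_mul_X_pow_eq_monomial, C_mul]
  rfl

/-- The coefficient polynomials. -/
noncomputable def Fd {d : ℕ} (f : mons (n + 2) d → ℂ) (δ : Fin n → ℕ) : Polynomial ℂ := by
  classical exact ∑ α : mons (n + 2) d,
    if (fun l => α.1 l.succ.succ) = δ then Polynomial.monomial (α.1 1) (f α) else 0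

theorem coeff_Fd {d : ℕ} (f : mons (n + 2) d → ℂ) (δ : Fin n → ℕ) (k : ℕ) :
    (Fd f δ).coeff k = by
      classical exact ∑ α : mons (n + 2) d,
        if (fun l => α.1 l.succ.succ) = δ ∧ α.1 1 = k then f α else 0 := by
  classical
  unfold Fd
  rw [Polynomial.finsetSum_coeff]
  refine sum_congr rfl fun α _ => ?_
  by_cases h1 : (fun l => α.1 l.succ.succ) = δ
  · rw [if_pos h1, Polynomial.coeff_monomial]
    by_cases h2 : α.1 1 = k
    · rw [if_pos h2, if_pos ⟨h1, h2⟩]
    · rw [if_neg h2, if_neg fun h => h2 h.2]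
  · rw [if_neg h1, if_neg fun h => h1 h.1, Polynomial.coeff_zero]

theorem degree_eq (α : Fin (n + 2) →₀ ℕ) :
    α.degree = α 0 + (α 1 + ∑ l : Fin n, α l.succ.succ) := by
  rw [Finsupp.degree_eq_sum, Fin.sum_univ_succ, Fin.sum_univ_succ]
  rfl

theorem coeff_Fd_eq_zero {d : ℕ} (f : mons (n + 2) d → ℂ) (δ : Fin n → ℕ) (k : ℕ)
    (h : d < k + ∑ l, δ l) : (Fd f δ).coeff k = 0 := by
  classical
  rw [coeff_Fd]
  refine sum_eq_zero fun α _ => ?_
  rw [if_neg]
  rintro ⟨rfl, rfl⟩
  change d < α.1 1 + ∑ l : Fin n, α.1 l.succ.succ at h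
  have h1 := mem_mons.1 α.2
  rw [degree_eq] at h1
  omega

theorem coeff_Fd_self {d : ℕ} (f : mons (n + 2) d → ℂ) (α : mons (n + 2) d) :
    (Fd f fun l => α.1 l.succ.succ).coeff (α.1 1) = f α := by
  classical
  rw [coeff_Fd, sum_eq_single α]
  · rw [if_pos ⟨rfl, rfl⟩]
  · intro α' _ hne
    rw [if_neg]
    rintro ⟨h1, h2⟩
    apply hne
    apply Subtype.ext
    have h3 := mem_mons.1 α.2
    have h4 := mem_mons.1 α'.2
    rw [degree_eq] at h3 h4
    have h5 : ∑ l : Fin n, α'.1 l.succ.succ = ∑ l : Fin n, α.1 l.succ.succ :=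
      sum_congr rfl fun l _ => congrFun h1 l
    ext i
    refine Fin.cases ?_ (fun i => Fin.cases ?_ (fun l => ?_) i) i
    · omega
    · exact h2
    · exact congrFun h1 l
  · intro h
    exact absurd (mem_univ _) h

theorem coeff_theta {d : ℕ} (c : Fin n → ℕ) (e : ℕ) (f : mons (n + 2) d → ℂ)
    (hf : ∀ α, f α ≠ 0 → ∀ l : Fin n, α.1 l.succ.succ ≤ c l) (γ : Fin n →₀ ℕ) :
    coeff γ (theta n e (toPoly (n + 2) d f)) = HH c e (Fd f) γ := by
  classical
  rw [toPoly_apply, map_sum, coeff_sum, HH]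
  have h1 : ∀ δ ∈ box c, Polynomial.C (∏ l, ((δ l).choose (γ l) : ℂ)) *
      Polynomial.X ^ (e * (∑ l, δ l - ∑ l, γ l)) * Fd f δ =
      ∑ α : mons (n + 2) d, if (fun l => α.1 l.succ.succ) = δ then
        Polynomial.C (∏ l, ((δ l).choose (γ l) : ℂ)) *
          Polynomial.X ^ (e * (∑ l, δ l - ∑ l, γ l)) * Polynomial.monomial (α.1 1) (f α) else 0 := by
    intro δ _
    rw [Fd, mul_sum]
    refine sum_congr rfl fun α _ => ?_
    split_ifs
    · rfl
    · rw [mul_zero]
  rw [sum_congr rfl h1, sum_comm]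
  refine sum_congr rfl fun α _ => ?_
  rw [sum_ite_eq, theta_monomial, coeff_C_mul, coeff_prod_X_add_C]
  by_cases hα : f α = 0
  · rw [hα, Polynomial.monomial_zero_right]
    simp
  · rw [if_pos (mem_box.2 (hf α hα)), mul_comm]
    congr 1
    by_cases hle : ∀ l, γ l ≤ α.1 l.succ.succ
    · rw [prod_mul_distrib]
      congr 1
      · rw [map_prod]
        exact prod_congr rfl fun l _ => by simp
      · rw [prod_pow_eq_pow_sum, ← pow_mul]
        congr 2
        have h2 : ∑ l : Fin n, (α.1 l.succ.succ - γ l) + ∑ l, γ l =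
            ∑ l : Fin n, α.1 l.succ.succ := by
          rw [← sum_add_distrib]
          exact sum_congr rfl fun l _ => Nat.sub_add_cancel (hle l)
        change ∑ l : Fin n, (α.1 l.succ.succ - γ l) = ∑ l : Fin n, α.1 l.succ.succ - ∑ l, γ l
        omega
    · rw [prod_choose_eq_zero hle]
      push Not at hle
      obtain ⟨l, hl⟩ := hle
      rw [prod_eq_zero (mem_univ l)]
      · simp
      · rw [Nat.choose_eq_zero_of_lt hl]
        simp

/-! ### Divisibility -/

/-- polynomials all of whose coefficients of degree `i` are divisible by `p^(m-i)` -/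
noncomputable def DivIdeal (n : ℕ) (p : Polynomial ℂ) (m : ℕ) :
    Ideal (MvPolynomial (Fin n) (Polynomial ℂ)) where
  carrier := {G | ∀ γ : Fin n →₀ ℕ, p ^ (m - γ.degree) ∣ coeff γ G}
  add_mem' := by
    intro F G hF hG γ
    rw [coeff_add]
    exact dvd_add (hF γ) (hG γ)
  zero_mem' := fun γ => by rw [coeff_zero]; exact dvd_zero _
  smul_mem' := by
    classical
    intro H G hG γ
    rw [smul_eq_mul, coeff_mul]
    refine dvd_sum fun x hx => ?_
    rw [Finset.HasAntidiagonal.mem_antidiagonal] at hx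
    refine Dvd.dvd.mul_left (dvd_trans (pow_dvd_pow _ ?_) (hG x.2)) _
    have : x.1.degree + x.2.degree = γ.degree := by rw [← hx, map_add]
    omega

theorem pow_le_DivIdeal (p : Polynomial ℂ) (m : ℕ) :
    (Ideal.span (insert (C p) (Set.range (X : Fin n → MvPolynomial (Fin n) (Polynomial ℂ))))) ^ m
      ≤ DivIdeal n p m := by
  classical
  induction m with
  | zero =>
    intro G _ γ
    rw [Nat.zero_sub, pow_zero]
    exact one_dvd _
  | succ m ih =>
    rw [pow_succ', Ideal.mul_le]
    intro r hr G hG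
    have hG' := ih hG
    refine Submodule.span_induction (p := fun r _ => r * G ∈ DivIdeal n p (m + 1)) ?_ ?_ ?_ ?_ hr
    · rintro _ (rfl | ⟨l, rfl⟩) γ
      · rw [coeff_C_mul]
        refine dvd_trans ?_ (mul_dvd_mul_left p (hG' γ))
        rw [← pow_succ']
        exact pow_dvd_pow _ (by omega)
      · rw [mul_comm, coeff_mul_X']
        split_ifs with h
        · refine dvd_trans (pow_dvd_pow _ ?_) (hG' (γ - Finsupp.single l 1))
          have h1 : γ.degree = (γ - Finsupp.single l 1).degree + 1 := by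
            conv_lhs => rw [← tsub_add_cancel_of_le (show Finsupp.single l 1 ≤ γ by
              rw [Finsupp.single_le_iff]
              exact Nat.one_le_iff_ne_zero.2 (Finsupp.mem_support_iff.1 h))]
            rw [map_add, Finsupp.degree_single]
          omega
        · exact dvd_zero _
    · rw [zero_mul]
      exact zero_mem _
    · intro x y _ _ hx hy
      rw [add_mul]
      exact add_mem hx hy
    · intro a x _ hx
      rw [smul_eq_mul, mul_assoc]
      exact Ideal.mul_mem_left _ _ hx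

theorem dvd_of_vanishes {e m : ℕ} {s : ℂ} {F : MvPolynomial (Fin (n + 2)) ℂ}
    (h : VanishesToOrder F (spec n e s) m) (γ : Fin n →₀ ℕ) :
    (Polynomial.X - Polynomial.C s) ^ (m - γ.degree) ∣ coeff γ (theta n e F) := by
  rw [vanishesToOrder_iff_mem_ideal_pow] at h
  have h1 := Ideal.mem_map_of_mem (theta n e) h
  rw [Ideal.map_pow] at h1
  refine pow_le_DivIdeal (Polynomial.X - Polynomial.C s) m (Ideal.pow_right_mono ?_ m h1) γ
  rw [Ideal.map_span, Ideal.span_le]
  rintro _ ⟨_, ⟨j, rfl⟩, rfl⟩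
  have hC : ∀ a : ℂ, theta n e (C a) = C (Polynomial.C a) := fun a => by
    rw [← algebraMap_eq, AlgHom.commutes]
    rfl
  have e0 : theta n e (X j - C (spec n e s j)) =
      theta n e (X j) - C (Polynomial.C (spec n e s j)) := by rw [map_sub, hC]
  rw [SetLike.mem_coe]
  change theta n e (X j - C (spec n e s j)) ∈ _
  rw [e0]
  refine Fin.cases ?_ (fun i => Fin.cases ?_ (fun l => ?_) i) j
  · have : theta n e (X 0) - C (Polynomial.C (spec n e s 0)) = 0 := by
      simp [theta, spec]
    rw [this]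
    exact zero_mem _
  · have : theta n e (X (Fin.succ 0)) - C (Polynomial.C (spec n e s (Fin.succ 0))) =
        C (Polynomial.X - Polynomial.C s) := by
      unfold theta spec
      rw [aeval_X, Fin.cons_succ, Fin.cons_succ, Fin.cons_zero, Fin.cons_zero, C_sub]
    rw [this]
    exact Ideal.subset_span (Set.mem_insert _ _)
  · have h2 : theta n e (X l.succ.succ) - C (Polynomial.C (spec n e s l.succ.succ)) =
        X l + C (Polynomial.X ^ e - Polynomial.C s ^ e) := by
      unfold theta spec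
      rw [aeval_X, Fin.cons_succ, Fin.cons_succ, Fin.cons_succ, Fin.cons_succ, C_sub,
        Polynomial.C_pow]
      ring
    rw [h2]
    refine add_mem (Ideal.subset_span (Set.mem_insert_of_mem _ ⟨l, rfl⟩)) ?_
    obtain ⟨g, hg⟩ := sub_dvd_pow_sub_pow Polynomial.X (Polynomial.C s) e
    rw [hg, C_mul]
    exact Ideal.mul_mem_right _ _ (Ideal.subset_span (Set.mem_insert _ _))

/-- Upper bound for the dimension of the special system. -/
theorem special_finrank_le {d : ℕ} (c : Fin n → ℕ) (e f : ℕ) (he : 1 ≤ e)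
    {ι : Type*} [Fintype ι] (hef : e + f = Fintype.card ι + 1) (s : ι → ℂ)
    (hs : Function.Injective s) (M : ι → ℕ) (hM : ∀ i, ∑ l, c l ≤ M i)
    {κ : Type*} (p : κ → Fin (n + 2) → ℂ) (m : κ → ℕ)
    (hJ : ∀ l : Fin n, ∃ i, p i = Pi.single l.succ.succ 1 ∧ d ≤ m i + c l)
    (hS : ∀ i : ι, ∃ j, p j = spec n e (s i) ∧ M i ≤ m j) :
    Module.finrank ℂ (fatForms (n + 1) d p m) ≤
      hsum c (d + 1 - ∑ i, (M i - ∑ l, c l)) (fun _ => e) (fun _ => f) := by
  classical
  -- auxiliary points
  obtain ⟨u, hu, hus⟩ : ∃ u : ℕ → ℂ, Function.Injective u ∧ ∀ k i, u k ≠ s i := by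
    have hinf : ((Set.range s)ᶜ).Infinite := (Set.finite_range s).infinite_compl
    refine ⟨fun k => (hinf.natEmbedding _ k).1, fun a b hab =>
      (hinf.natEmbedding _).injective (Subtype.ext hab), fun k i h => ?_⟩
    exact (hinf.natEmbedding _ k).2 ⟨i, h.symm⟩
  set D := d + 1 - ∑ i, (M i - ∑ l, c l) with hD
  let B := (l : Fin n) → Fin (c l + 1)
  let N : B → ℕ := fun β => D - ∑ l, ((β l : ℕ) * e + (c l - β l) * f)
  let γf : B → (Fin n →₀ ℕ) := fun β => Finsupp.equivFunOnFinite.symm fun l => (β l : ℕ)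
  let L : fatForms (n + 1) d p m →ₗ[ℂ] ((x : (β : B) × Fin (N β)) → ℂ) :=
    { toFun := fun F x => (coeff (γf x.1) (theta n e F.1)).eval (u x.2)
      map_add' := fun F G => by
        funext x
        simp
      map_smul' := fun a F => by
        funext x
        simp }
  have hinj : Function.Injective L := by
    rw [← LinearMap.ker_eq_bot, LinearMap.ker_eq_bot']
    intro F hF0
    set f' : mons (n + 2) d → ℂ := fun α => coeff α.1 F.1 with hf'
    have hFf : toPoly (n + 2) d f' = F.1 := exists_toPoly F.2.1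
    have hc : ∀ α, f' α ≠ 0 → ∀ l : Fin n, α.1 l.succ.succ ≤ c l := by
      intro α hα l
      obtain ⟨i, hi, him⟩ := hJ l
      have h1 := F.2.2 i
      rw [hi, ← hFf, vanishes_coord_iff] at h1
      have := h1 α hα
      omega
    have hth : ∀ γ : Fin n →₀ ℕ, coeff γ (theta n e F.1) = HH c e (Fd f') γ := by
      intro γ
      rw [← hFf]
      exact coeff_theta c e f' hc γ
    have hzero : ∀ δ ∈ box c, Fd f' δ = 0 := by
      refine eq_zero_of_conditions c e f d he (Fd f')
        (fun δ _ k hk => coeff_Fd_eq_zero f' δ k hk) hef s hs M hM u hu hus ?_ ?_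
      · intro γ _ i
        obtain ⟨j, hj, hjm⟩ := hS i
        have h1 := F.2.2 j
        rw [hj] at h1
        have h2 := dvd_of_vanishes h1 (Finsupp.equivFunOnFinite.symm γ)
        rw [hth, Finsupp.degree_eq_sum] at h2
        refine dvd_trans (pow_dvd_pow _ ?_) h2
        simp only [Finsupp.equivFunOnFinite_symm_apply_apply]
        omega
      · intro γ hγ k hk
        have hle := mem_box.1 hγ
        let β : B := fun l => ⟨γ l, Nat.lt_succ_of_le (hle l)⟩
        have hkN : k < N β := by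
          change k < D - ∑ l, (γ l * e + (c l - γ l) * f)
          rw [sum_add_distrib]
          omega
        have h1 := congrFun hF0 ⟨β, ⟨k, hkN⟩⟩
        change (coeff (γf β) (theta n e F.1)).eval (u k) = 0 at h1
        rw [hth] at h1
        exact h1
    apply Subtype.ext
    change F.1 = 0
    rw [← hFf]
    have hf0 : f' = 0 := by
      funext α
      by_contra hα
      have h1 := hzero (fun l => α.1 l.succ.succ) (mem_box.2 (hc α hα))
      have h2 := coeff_Fd_self f' α
      rw [h1, Polynomial.coeff_zero] at h2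
      exact hα h2.symm
    rw [hf0, map_zero]
  have h := LinearMap.finrank_le_finrank_of_injective hinj
  rw [Module.finrank_fintype_fun_eq_card, Fintype.card_sigma] at h
  refine h.trans (le_of_eq ?_)
  unfold hsum
  exact sum_congr rfl fun β _ => Fintype.card_fin _

end Pool.Agent.H49.Pencil
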